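import Pool.Agent.Lib.MP_19b7b8_co_FC.Cls
import Pool.Agent.Lib.MP_19b7b8_co_FB.Count

/-!
# MP_19b7b8_co FC: averaging over the subsets of a given size

Adapt `MP_19b7b8_co_FB/Count.lean` (there: sets of six points; `card_sup`, `sum_filter_card` can be
used as they are, `card_good` has to be redone with 5 in place of 6).
* `few_avg`: for `K` of size `k` without bad subsets `mn k ≤ (F.filter fun t => t ⊆ K).card`
  (`mn_le_sub`); the number of the other `K` is at most `(badSets F).card * (n - 5).choose (k - 5)`;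
  `∑ K, (F.filter fun t => t ⊆ K).card = F.card * (n - 3).choose (k - 3)` (`sum_filter_card`), and
  `n.choose k * k.choose 3 = n.choose 3 * (n - 3).choose (k - 3)`, the same with 5
  (`Nat.choose_mul`).
* `mn_mono`: `few_avg` (or the same argument) for a system with `mn n` triples (`exists_opt`); for
  `k = 3, 4` use the averaging directly (no bad sets, every `K` is good).
* `opt_deg`: `mn_le_sub` for `K = univ.erase x` (`K.card = n`), and
  `(F.filter fun t => t ⊆ univ.erase x).card + dgr F x = F.card`.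
-/

set_option autoImplicit false

namespace Pool.Agent.T53c

open Finset

variable {n : ℕ}

private theorem badSets_card (F : Finset (Finset (Fin n))) {S : Finset (Fin n)}
    (hS : S ∈ badSets F) : S.card = 5 := by
  classical
  unfold badSets at hS
  exact (mem_powersetCard.1 (mem_filter.1 hS).1).2

open Classical in
private theorem card_good (F : Finset (Finset (Fin n))) (k : ℕ) (hk : 5 ≤ k) :
    (n.choose k : ℝ) - (badSets F).card * ((n - 5).choose (k - 5) : ℝ) ≤
      ((powersetCard k (univ : Finset (Fin n))).filter fun K =>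
        ∀ S ∈ badSets F, ¬ S ⊆ K).card := by
  have h1 : (powersetCard k (univ : Finset (Fin n))).card = n.choose k := by
    rw [card_powersetCard, card_univ, Fintype.card_fin]
  have h2 := card_filter_add_card_filter_not (s := powersetCard k (univ : Finset (Fin n)))
    fun K => ∀ S ∈ badSets F, ¬ S ⊆ K
  have h3 : ((powersetCard k (univ : Finset (Fin n))).filter fun K =>
      ¬ ∀ S ∈ badSets F, ¬ S ⊆ K).card ≤ (badSets F).card * (n - 5).choose (k - 5) := by
    have h4 : ((powersetCard k (univ : Finset (Fin n))).filter fun K =>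
        ¬ ∀ S ∈ badSets F, ¬ S ⊆ K) ⊆ (badSets F).biUnion fun S =>
          (powersetCard k (univ : Finset (Fin n))).filter fun K => S ⊆ K := by
      intro K hK
      obtain ⟨hK1, hK2⟩ := mem_filter.1 hK
      obtain ⟨S, hS, hSK⟩ : ∃ S ∈ badSets F, S ⊆ K := by
        by_contra hcon
        exact hK2 fun S hS hSK => hcon ⟨S, hS, hSK⟩
      exact mem_biUnion.2 ⟨S, hS, mem_filter.2 ⟨hK1, hSK⟩⟩
    refine (card_le_card h4).trans (card_biUnion_le.trans ?_)
    have h5 : ∀ S ∈ badSets F,
        ((powersetCard k (univ : Finset (Fin n))).filter fun K => S ⊆ K).card =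
          (n - 5).choose (k - 5) := by
      intro S hS
      rw [T53b.card_sup S k (by rw [badSets_card F hS]; exact hk), badSets_card F hS]
    rw [sum_congr rfl h5, sum_const, smul_eq_mul]
  rw [h1] at h2
  have h2' : (((powersetCard k (univ : Finset (Fin n))).filter fun K =>
      ∀ S ∈ badSets F, ¬ S ⊆ K).card : ℝ) + (((powersetCard k (univ : Finset (Fin n))).filter
        fun K => ¬ ∀ S ∈ badSets F, ¬ S ⊆ K).card : ℝ) = n.choose k := by exact_mod_cast h2
  have h3' : (((powersetCard k (univ : Finset (Fin n))).filter fun K =>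
      ¬ ∀ S ∈ badSets F, ¬ S ⊆ K).card : ℝ) ≤
        (badSets F).card * ((n - 5).choose (k - 5) : ℝ) := by exact_mod_cast h3
  linarith

open Classical in
private theorem good_le {F : Finset (Finset (Fin n))} (h : Cov F) (k : ℕ) (hk : 3 ≤ k) :
    (mn k : ℝ) * (((powersetCard k (univ : Finset (Fin n))).filter fun K =>
      ∀ S ∈ badSets F, ¬ S ⊆ K).card : ℝ) ≤ F.card * ((n - 3).choose (k - 3) : ℝ) := by
  have h4 : (∑ K ∈ powersetCard k (univ : Finset (Fin n)),
      ((F.filter fun t => t ⊆ K).card : ℝ)) = F.card * ((n - 3).choose (k - 3) : ℝ) := by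
    exact_mod_cast T53b.sum_filter_card F h.1 k hk
  rw [← h4]
  have h6 : ∑ K ∈ (powersetCard k (univ : Finset (Fin n))).filter
      (fun K => ∀ S ∈ badSets F, ¬ S ⊆ K), (mn k : ℝ) ≤
      ∑ K ∈ (powersetCard k (univ : Finset (Fin n))).filter
        (fun K => ∀ S ∈ badSets F, ¬ S ⊆ K), ((F.filter fun t => t ⊆ K).card : ℝ) := by
    refine sum_le_sum fun K hK => ?_
    obtain ⟨hK1, hK2⟩ := mem_filter.1 hK
    exact_mod_cast mn_le_sub h K (mem_powersetCard.1 hK1).2 hK2
  rw [sum_const, nsmul_eq_mul] at h6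
  have h7 : ∑ K ∈ (powersetCard k (univ : Finset (Fin n))).filter
      (fun K => ∀ S ∈ badSets F, ¬ S ⊆ K), ((F.filter fun t => t ⊆ K).card : ℝ) ≤
      ∑ K ∈ powersetCard k (univ : Finset (Fin n)), ((F.filter fun t => t ⊆ K).card : ℝ) :=
    sum_le_sum_of_subset_of_nonneg (filter_subset _ _) fun K _ _ => Nat.cast_nonneg _
  linarith

private theorem choose_quot (k n i : ℕ) (hi : i ≤ k) (hkn : k ≤ n) :
    ((n - i).choose (k - i) : ℝ) = (n.choose k : ℝ) * (k.choose i : ℝ) / (n.choose i : ℝ) := by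
  have c : (n.choose k : ℝ) * (k.choose i : ℝ) =
      (n.choose i : ℝ) * ((n - i).choose (k - i) : ℝ) := by
    exact_mod_cast Nat.choose_mul (n := n) hi
  have p : (0 : ℝ) < n.choose i := by exact_mod_cast Nat.choose_pos (hi.trans hkn)
  rw [c]
  field_simp

private theorem avg_aux {k n : ℕ} (hk : 3 ≤ k) (hkn : k ≤ n) {q m f : ℝ}
    (h : q * ((n.choose k : ℝ) * m) ≤
      f * ((n.choose k : ℝ) * (k.choose 3 : ℝ) / (n.choose 3 : ℝ))) :
    q / (k.choose 3 : ℝ) * m * (n.choose 3 : ℝ) ≤ f := by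
  have p0 : (0 : ℝ) < n.choose k := by exact_mod_cast Nat.choose_pos hkn
  have p3 : (0 : ℝ) < n.choose 3 := by exact_mod_cast Nat.choose_pos (hk.trans hkn)
  have pk : (0 : ℝ) < k.choose 3 := by exact_mod_cast Nat.choose_pos hk
  have h1 : (n.choose k : ℝ) * (q * m) ≤
      (n.choose k : ℝ) * (f * (k.choose 3 : ℝ) / (n.choose 3 : ℝ)) := by
    calc _ = q * ((n.choose k : ℝ) * m) := by ring
      _ ≤ _ := h
      _ = _ := by ring
  have h2 := le_of_mul_le_mul_left h1 p0
  rw [le_div_iff₀ p3] at h2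
  have h3 : q / (k.choose 3 : ℝ) * m * (n.choose 3 : ℝ) =
      q * m * (n.choose 3 : ℝ) / (k.choose 3 : ℝ) := by ring
  rw [h3, div_le_iff₀ pk]
  exact h2

theorem few_avg {n : ℕ} {F : Finset (Finset (Fin n))} (h : Cov F) (k : ℕ) (hk : 5 ≤ k)
    (hkn : k ≤ n) : (mn k : ℝ) / (k.choose 3 : ℝ) *
      (1 - ((badSets F).card : ℝ) * (k.choose 5 : ℝ) / (n.choose 5 : ℝ)) * (n.choose 3 : ℝ) ≤
        F.card := by
  classical
  refine avg_aux (by omega) hkn ?_
  have h1 := card_good F k hk
  have h2 := good_le h k (by omega)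
  have h3 := (mul_le_mul_of_nonneg_left h1 (Nat.cast_nonneg (mn k) : (0 : ℝ) ≤ mn k)).trans h2
  rw [choose_quot k n 5 hk hkn, choose_quot k n 3 (by omega) hkn] at h3
  calc _ = (mn k : ℝ) * ((n.choose k : ℝ) - (badSets F).card *
        ((n.choose k : ℝ) * (k.choose 5 : ℝ) / (n.choose 5 : ℝ))) := by ring
    _ ≤ _ := h3

theorem mn_mono {k n : ℕ} (hk : 3 ≤ k) (hkn : k ≤ n) :
    (mn k : ℝ) / (k.choose 3 : ℝ) ≤ (mn n : ℝ) / (n.choose 3 : ℝ) := by
  classical
  obtain ⟨F, hF, hc⟩ := exists_opt n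
  have p3 : (0 : ℝ) < n.choose 3 := by exact_mod_cast Nat.choose_pos (hk.trans hkn)
  have h1 : ((powersetCard k (univ : Finset (Fin n))).filter fun K =>
      ∀ S ∈ badSets F, ¬ S ⊆ K).card = n.choose k := by
    rw [filter_true_of_mem, card_powersetCard, card_univ, Fintype.card_fin]
    intro K _ S hS
    rw [hF.2] at hS
    exact absurd hS (notMem_empty S)
  have h2 := good_le hF.1 k hk
  rw [h1, hc, choose_quot k n 3 hk hkn] at h2
  have h3 := avg_aux (m := 1) hk hkn (by rw [mul_one]; exact h2)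
  rw [mul_one] at h3
  rw [le_div_iff₀ p3]
  exact h3

theorem opt_deg {n : ℕ} {F : Finset (Finset (Fin (n + 1)))} (h : Cl F)
    (ho : F.card = mn (n + 1)) (x : Fin (n + 1)) : dgr F x + mn n ≤ mn (n + 1) := by
  classical
  have h1 : (univ.erase x : Finset (Fin (n + 1))).card = n := by
    rw [card_erase_of_mem (mem_univ x), card_univ, Fintype.card_fin]
    rfl
  have h2 := mn_le_sub h.1 (univ.erase x) h1 (fun S hS => by
    rw [h.2] at hS
    exact absurd hS (notMem_empty S))
  have h3 := card_filter_add_card_filter_not (s := F) fun t => x ∈ t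
  have h4 : (F.filter fun t => t ⊆ univ.erase x) = F.filter fun t => ¬ x ∈ t := by
    refine filter_congr fun t _ => ?_
    constructor
    · intro ht hx
      exact (mem_erase.1 (ht hx)).1 rfl
    · intro ht y hy
      exact mem_erase.2 ⟨fun hyx => ht (hyx ▸ hy), mem_univ y⟩
  rw [h4] at h2
  unfold dgr
  omega

end Pool.Agent.T53c
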