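import Pool.Agent.Lib.MP_19b7b8_co_FB.Sym
import Pool.Agent.Lib.MP_19b7b8_co_FC.ChkT
import Pool.Agent.Lib.MP_19b7b8_co_FC.ChkI1
import Pool.Agent.Lib.MP_19b7b8_co_FC.ChkI2
import Pool.Agent.Lib.MP_19b7b8_co_FC.ChkI3

/-!
# MP_19b7b8_co FC: invariance and positivity of the blocks
-/

set_option autoImplicit false

namespace Pool.Agent.T53c

open Finset Pool.Agent.T53 Pool.Agent.T53b

theorem mem5 (b : ℕ) (hb : b < 5) : b ∈ [0, 1, 2, 3, 4] := by
  simp only [List.mem_cons, List.not_mem_nil, or_false]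
  omega

theorem ckGc_all (i f' : ℕ) (hi : i < 5) (hf' : f' < 64) : ckG1c i f' = true := by
  have h := (allN_iff _ _).1 (AllL_spec (AllL_spec ckG_lc i (mem5 i hi)) (f' / 16)
    (mem4 _ (by omega))) (f' % 16) (Nat.mod_lt _ (by norm_num))
  rw [ixb_eq] at h
  exact h

theorem ckIc_all (a t f' : ℕ) (ha : a < 4) (h0 : a ≠ 0) (ht : t < 16) (hf' : f' < 64) :
    ckI1c a t f' = true := by
  have h : ckIc a t (f' / 16) = true := by
    obtain h | h | h : a = 1 ∨ a = 2 ∨ a = 3 := by omega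
    · subst h; exact AllL_spec (AllL_spec ckI1_lc t (mem16 t ht)) (f' / 16) (mem4 _ (by omega))
    · subst h; exact AllL_spec (AllL_spec ckI2_lc t (mem16 t ht)) (f' / 16) (mem4 _ (by omega))
    · subst h; exact AllL_spec (AllL_spec ckI3_lc t (mem16 t ht)) (f' / 16) (mem4 _ (by omega))
  have h1 := (allN_iff _ _).1 h (f' % 16) (Nat.mod_lt _ (by norm_num))
  rw [ixb_eq] at h1
  exact h1

/-- entries of the vectors -/
noncomputable def RVc (i j f : ℕ) : ℤ := (rvc i j f : ℤ) - 16384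

/-- entries of the forms -/
noncomputable def TTc (t f f' : ℕ) : ℤ := (ttc (t + 16 * f + 1024 * f') : ℤ) - 268435456

theorem ttc_eq' (t f f' : ℕ) (ht : t < 16) (hf : f < 64) :
    ttc (t + 16 * f + 1024 * f') = tqc f' (t + 16 * f) := ttc_eq _ _ (by omega)

theorem tr5_lt (i : ℕ) : tr5 i < 16 := dg_lt _ _ _

/-- the table is a Gram matrix -/
theorem gram4c (i f f' : ℕ) (hi : i < 5) (hf : f < 64) (hf' : f' < 64) :
    TTc (tr5 i) f f' = ∑ j ∈ range 19, (wvc i j : ℤ) * (RVc i j f * RVc i j f') := by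
  have h := (allN_iff _ _).1 (ckGc_all i f' hi hf') f hf
  have h1 := Nat.eq_of_beq_eq_true h
  rw [sumN_eq, sumN_eq, sumN_eq] at h1
  have h2 : (tqc f' (tr5 i + 16 * f) +
      16384 * ∑ j ∈ range 19, wvc i j * (rvc i j f + rvc i j f') : ℕ) =
      ∑ j ∈ range 19, wvc i j * (rvc i j f * rvc i j f') +
        (268435456 * ∑ j ∈ range 19, wvc i j + 268435456) := h1
  rw [← ttc_eq' (tr5 i) f f' (tr5_lt i) hf] at h2
  have h3 : ((ttc (tr5 i + 16 * f + 1024 * f') : ℕ) : ℤ) +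
      16384 * ∑ j ∈ range 19, (wvc i j : ℤ) * ((rvc i j f : ℤ) + (rvc i j f' : ℤ)) =
      ∑ j ∈ range 19, (wvc i j : ℤ) * ((rvc i j f : ℤ) * (rvc i j f' : ℤ)) +
        (268435456 * ∑ j ∈ range 19, (wvc i j : ℤ) + 268435456) := by
    exact_mod_cast h2
  have h4 : ∑ j ∈ range 19, (wvc i j : ℤ) * (RVc i j f * RVc i j f') =
      ∑ j ∈ range 19, (wvc i j : ℤ) * ((rvc i j f : ℤ) * (rvc i j f' : ℤ)) -
      16384 * ∑ j ∈ range 19, (wvc i j : ℤ) * ((rvc i j f : ℤ) + (rvc i j f' : ℤ)) +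
      268435456 * ∑ j ∈ range 19, (wvc i j : ℤ) := by
    simp only [RVc, mul_sum, ← sum_sub_distrib, ← sum_add_distrib]
    exact sum_congr rfl fun j _ => by ring
  rw [h4]
  unfold TTc
  linarith

theorem TTc_inv (a t f f' : ℕ) (ha : a < 4) (h0 : a ≠ 0) (ht : t < 16) (hf : f < 64)
    (hf' : f' < 64) :
    ttc (pm (at4 a) 4 t + 16 * pm (af4 a) 6 f + 1024 * pm (af4 a) 6 f') =
      ttc (t + 16 * f + 1024 * f') := by
  have hI := (allN_iff _ _).1 (ckIc_all a t f' ha h0 ht hf') f hf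
  have hI' : tqc (pm (af4 a) 6 f') (pm (at4 a) 4 t + 16 * pm (af4 a) 6 f) =
    tqc f' (t + 16 * f) := Nat.eq_of_beq_eq_true hI
  have b1 : pm (at4 a) 4 t < 16 := mk_lt _ _ fun _ _ => bt_lt _ _
  have b2 : pm (af4 a) 6 f < 64 := mk_lt _ _ fun _ _ => bt_lt _ _
  rw [ttc_eq' _ _ _ b1 b2, ttc_eq' _ _ _ ht hf]
  exact hI'

/-- the form of the type `t` is symmetric and positive semidefinite -/
def Posc (t : ℕ) : Prop := (∀ f < 64, ∀ f' < 64, TTc t f f' = TTc t f' f) ∧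
  ∀ z : ℕ → ℝ, 0 ≤ ∑ f ∈ range 64, ∑ f' ∈ range 64, z f * z f' * (TTc t f f' : ℝ)

theorem posc_rep (i : ℕ) (hi : i < 5) : Posc (tr5 i) := by
  constructor
  · intro f hf f' hf'
    rw [gram4c i f f' hi hf hf', gram4c i f' f hi hf' hf]
    exact sum_congr rfl fun j _ => by ring
  · intro z
    have h : ∑ f ∈ range 64, ∑ f' ∈ range 64, z f * z f' * (TTc (tr5 i) f f' : ℝ) =
        ∑ j ∈ range 19, (wvc i j : ℝ) * (∑ f ∈ range 64, z f * (RVc i j f : ℝ)) ^ 2 := by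
      have e1 : ∀ f ∈ range 64, ∀ f' ∈ range 64, z f * z f' * (TTc (tr5 i) f f' : ℝ) =
          ∑ j ∈ range 19, (wvc i j : ℝ) * ((z f * (RVc i j f : ℝ)) *
            (z f' * (RVc i j f' : ℝ))) := by
        intro f hf f' hf'
        rw [gram4c i f f' hi (mem_range.1 hf) (mem_range.1 hf')]
        push_cast
        rw [mul_sum]
        exact sum_congr rfl fun j _ => by ring
      rw [sum_congr rfl fun f hf => sum_congr rfl fun f' hf' => e1 f hf f' hf']
      rw [sum_congr rfl fun f _ => sum_comm, sum_comm]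
      refine sum_congr rfl fun j _ => ?_
      rw [pow_two, sum_mul, mul_sum]
      exact sum_congr rfl fun f _ => by rw [mul_sum, mul_sum]
    rw [h]
    exact sum_nonneg fun j _ => mul_nonneg (Nat.cast_nonneg _) (sq_nonneg _)

theorem TTc_step (a t f f' : ℕ) (ha : a < 4) (h0 : a ≠ 0) (ht : t < 16) (hf : f < 64)
    (hf' : f' < 64) :
    TTc (pm (at4 a) 4 t) (pm (af4 a) 6 f) (pm (af4 a) 6 f') = TTc t f f' := by
  unfold TTc
  rw [TTc_inv a t f f' ha h0 ht hf hf']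

theorem posc_step (a t : ℕ) (ha : a < 4) (h0 : a ≠ 0) (ht : t < 16) (h : Posc t) :
    Posc (pm (at4 a) 4 t) := by
  constructor
  · intro f hf f' hf'
    have e1 := TTc_step a t (pm (af4 a) 6 f) (pm (af4 a) 6 f') ha h0 ht (pf_lt a f) (pf_lt a f')
    have e2 := TTc_step a t (pm (af4 a) 6 f') (pm (af4 a) 6 f) ha h0 ht (pf_lt a f') (pf_lt a f)
    rw [pf_inv a f ha hf, pf_inv a f' ha hf'] at e1 e2
    rw [e1, e2]
    exact h.1 _ (pf_lt a f) _ (pf_lt a f')
  · intro z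
    rw [sum_pf a ha]
    have e : ∀ f ∈ range 64, ∑ f' ∈ range 64, z (pm (af4 a) 6 f) * z f' *
        (TTc (pm (at4 a) 4 t) (pm (af4 a) 6 f) f' : ℝ) =
        ∑ f' ∈ range 64, z (pm (af4 a) 6 f) * z (pm (af4 a) 6 f') * (TTc t f f' : ℝ) := by
      intro f hf
      rw [sum_pf a ha]
      refine sum_congr rfl fun f' hf' => ?_
      rw [TTc_step a t f f' ha h0 ht (mem_range.1 hf) (mem_range.1 hf')]
    rw [sum_congr rfl e]
    exact h.2 fun f => z (pm (af4 a) 6 f)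

theorem ckChc : (Nat.beq (tr5 0) 0 && (Nat.beq (tr5 1) 1 && (Nat.beq (tr5 2) 3 &&
    (Nat.beq (tr5 3) 7 && (Nat.beq (tr5 4) 15 &&
    (Nat.beq (pm (at4 3) 4 1) 2 && (Nat.beq (pm (at4 2) 4 2) 4 && (Nat.beq (pm (at4 1) 4 4) 8 &&
    (Nat.beq (pm (at4 2) 4 3) 5 && (Nat.beq (pm (at4 1) 4 5) 9 && (Nat.beq (pm (at4 3) 4 5) 6 &&
    (Nat.beq (pm (at4 1) 4 6) 10 && (Nat.beq (pm (at4 2) 4 10) 12 &&
    (Nat.beq (pm (at4 1) 4 7) 11 && (Nat.beq (pm (at4 2) 4 11) 13 &&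
     Nat.beq (pm (at4 3) 4 13) 14))))))))))))))) = true := by decide +kernel

theorem posc_all (t : ℕ) (ht : t < 16) : Posc t := by
  have h := ckChc
  simp only [Bool.and_eq_true] at h
  obtain ⟨e0, e1, e3, e7, e15, c2, c4, c8, c5, c9, c6, c10, c12, c11, c13, c14⟩ := h
  have q (i t : ℕ) (hi : i < 5) (e : Nat.beq (tr5 i) t = true) : Posc t :=
    Nat.eq_of_beq_eq_true e ▸ posc_rep i hi
  have st (a t u : ℕ) (ha : a < 4) (h0 : a ≠ 0) (ht : t < 16)
      (e : Nat.beq (pm (at4 a) 4 t) u = true) (h : Posc t) : Posc u :=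
    Nat.eq_of_beq_eq_true e ▸ posc_step a t ha h0 ht h
  have p0 : Posc 0 := q 0 0 (by norm_num) e0
  have p1 : Posc 1 := q 1 1 (by norm_num) e1
  have p3 : Posc 3 := q 2 3 (by norm_num) e3
  have p7 : Posc 7 := q 3 7 (by norm_num) e7
  have p15 : Posc 15 := q 4 15 (by norm_num) e15
  have p2 : Posc 2 := st 3 1 2 (by norm_num) (by norm_num) (by norm_num) c2 p1
  have p4 : Posc 4 := st 2 2 4 (by norm_num) (by norm_num) (by norm_num) c4 p2
  have p8 : Posc 8 := st 1 4 8 (by norm_num) (by norm_num) (by norm_num) c8 p4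
  have p5 : Posc 5 := st 2 3 5 (by norm_num) (by norm_num) (by norm_num) c5 p3
  have p9 : Posc 9 := st 1 5 9 (by norm_num) (by norm_num) (by norm_num) c9 p5
  have p6 : Posc 6 := st 3 5 6 (by norm_num) (by norm_num) (by norm_num) c6 p5
  have p10 : Posc 10 := st 1 6 10 (by norm_num) (by norm_num) (by norm_num) c10 p6
  have p12 : Posc 12 := st 2 10 12 (by norm_num) (by norm_num) (by norm_num) c12 p10
  have p11 : Posc 11 := st 1 7 11 (by norm_num) (by norm_num) (by norm_num) c11 p7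
  have p13 : Posc 13 := st 2 11 13 (by norm_num) (by norm_num) (by norm_num) c13 p11
  have p14 : Posc 14 := st 3 13 14 (by norm_num) (by norm_num) (by norm_num) c14 p13
  obtain h | h | h | h | h | h | h | h | h | h | h | h | h | h | h | h :
    t = 0 ∨ t = 1 ∨ t = 2 ∨ t = 3 ∨ t = 4 ∨ t = 5 ∨ t = 6 ∨ t = 7 ∨ t = 8 ∨ t = 9 ∨ t = 10 ∨
    t = 11 ∨ t = 12 ∨ t = 13 ∨ t = 14 ∨ t = 15 := by omega
  all_goals (subst h; assumption)

theorem h4c_swap (t f f' : ℕ) (ht : t < 16) (hf : f < 64) (hf' : f' < 64) :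
    ttc (t + 16 * f + 1024 * f') = ttc (t + 16 * f' + 1024 * f) := by
  have h1 := (posc_all t ht).1 f hf f' hf'
  unfold TTc at h1
  have h2 : (ttc (t + 16 * f + 1024 * f') : ℤ) = (ttc (t + 16 * f' + 1024 * f) : ℤ) := by
    linarith
  exact_mod_cast h2

/-! ### the blocks -/

/-- the block of type 4 -/
noncomputable def h4c (g : ℕ) : ℕ := ttc (code16 g)
/-- the block of type 2 -/
noncomputable def h2c (g : ℕ) : ℕ := dg 32 T2c (code pos8 8 g)
/-- the block of first order -/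
noncomputable def h1c (g : ℕ) : ℕ := dg 32 T1c (code pos5 5 g)

/-- the total of the blocks -/
noncomputable def FFc (g : ℕ) : ℕ := blk h4c p4 15 g + blk h2c p2 45 g + blk h1c p1 60 g

theorem ckP2c : allN (fun a => ckPb (r2 a) pos8 (a8b a) 8 sel &&
    allN (fun c => Nat.beq (dg 32 T2c (pm (a8b a) 8 c)) (dg 32 T2c c)) 256) 5 = true := by
  decide +kernel

theorem ckP1c : allN (fun a => ckPb (r1 a) pos5 (a5b a) 5 sel &&
    allN (fun c => Nat.beq (dg 32 T1c (pm (a5b a) 5 c)) (dg 32 T1c c)) 32) 4 = true := by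
  decide +kernel

theorem h2c_act (a : ℕ) (ha : a < 5) (g : ℕ) : h2c (act (r2 a) g) = h2c g := by
  have h := (allN_iff _ _).1 ckP2c a ha
  simp only [Bool.and_eq_true] at h
  obtain ⟨h1, h2'⟩ := ckPb_spec h.1
  unfold h2c
  rw [code_act_pm pos8 (a8b a) 8 (r2 a) g pos8_lt h1 h2']
  exact Nat.eq_of_beq_eq_true ((allN_iff _ _).1 h.2 _ (code_lt _ _ _))

theorem h1c_act (a : ℕ) (ha : a < 4) (g : ℕ) : h1c (act (r1 a) g) = h1c g := by
  have h := (allN_iff _ _).1 ckP1c a ha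
  simp only [Bool.and_eq_true] at h
  obtain ⟨h1', h2'⟩ := ckPb_spec h.1
  unfold h1c
  rw [code_act_pm pos5 (a5b a) 5 (r1 a) g pos5_lt h1' h2']
  exact Nat.eq_of_beq_eq_true ((allN_iff _ _).1 h.2 _ (code_lt _ _ _))

theorem h4c_act (a : ℕ) (ha : a < 5) (g : ℕ) : h4c (act (r4 a) g) = h4c g := by
  unfold h4c code16
  rcases Nat.lt_succ_iff_lt_or_eq.1 ha with h | h
  · have h' := (allN_iff _ _).1 ckP4 a h
    simp only [Bool.and_eq_true] at h'
    obtain ⟨t1, t2⟩ := ckPb_spec h'.1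
    obtain ⟨f1, f2⟩ := ckPb_spec h'.2.1
    obtain ⟨g1, g2⟩ := ckPb_spec h'.2.2
    rw [code_act_pm post (at4 a) 4 (r4 a) g post_lt t1 t2,
      code_act_pm posf (af4 a) 6 (r4 a) g posf_lt f1 f2,
      code_act_pm posg (af4 a) 6 (r4 a) g posg_lt g1 g2]
    have ht := code_lt post 4 g
    have hf := code_lt posf 6 g
    have hg := code_lt posg 6 g
    generalize code post 4 g = t at *
    generalize code posf 6 g = f at *
    generalize code posg 6 g = f' at *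
    by_cases h0 : a = 0
    · subst h0
      have hA := ckA0
      simp only [Bool.and_eq_true] at hA
      rw [pm_at0 4 t _ (fun i hi => Nat.eq_of_beq_eq_true ((allN_iff _ _).1 hA.1 i hi)) ht,
        pm_at0 6 f _ (fun i hi => Nat.eq_of_beq_eq_true ((allN_iff _ _).1 hA.2 i hi)) hf,
        pm_at0 6 f' _ (fun i hi => Nat.eq_of_beq_eq_true ((allN_iff _ _).1 hA.2 i hi)) hg]
    · exact TTc_inv a t f f' h h0 ht hf hg
  · subst h
    have hs := ckP4s
    simp only [Bool.and_eq_true] at hs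
    have e1 : code post 4 (act (r4 4) g) = code post 4 g := by
      rw [code_act _ _ _ _ post_lt]
      exact mk_congr fun i hi => by rw [Nat.eq_of_beq_eq_true ((allN_iff _ _).1 hs.1 i hi)]
    have e2 : code posf 6 (act (r4 4) g) = code posg 6 g := by
      rw [code_act _ _ _ _ posf_lt]
      exact mk_congr fun i hi => by rw [Nat.eq_of_beq_eq_true ((allN_iff _ _).1 hs.2.1 i hi)]
    have e3 : code posg 6 (act (r4 4) g) = code posf 6 g := by
      rw [code_act _ _ _ _ posg_lt]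
      exact mk_congr fun i hi => by rw [Nat.eq_of_beq_eq_true ((allN_iff _ _).1 hs.2.2 i hi)]
    rw [e1, e2, e3]
    exact h4c_swap _ _ _ (code_lt _ _ _) (code_lt _ _ _) (code_lt _ _ _)

theorem FFc_act {s : ℕ} (hs : s < 5) (g : ℕ) : FFc (act (pg s) g) = FFc g := by
  unfold FFc
  rw [blk_act h4c p4 r4 15 ka4 5 h4c_act s (ckB_spec ckB4 s hs) g,
    blk_act h2c p2 r2 45 ka2 5 h2c_act s (ckB_spec ckB2 s hs) g,
    blk_act h1c p1 r1 60 ka1 4 h1c_act s (ckB_spec ckB1 s hs) g]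

end Pool.Agent.T53c
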