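import Pool.Agent.Lib.MP_19b7b8_co_FB.Enum
import Pool.Agent.Lib.MP_19b7b8_co_FC.Sym
import Pool.Agent.Lib.MP_19b7b8_co_FC.ChkA
import Pool.Agent.Lib.MP_19b7b8_co_FC.ChkB
import Pool.Agent.Lib.MP_19b7b8_co_FC.ChkC

/-!
# MP_19b7b8_co FC: the pointwise inequality for the samples
-/

set_option autoImplicit false

namespace Pool.Agent.T53c

open Finset Pool.Agent.T53 Pool.Agent.T53b

/-- first five vertices of the graphs to be enumerated -/
def repLc : List ℕ := repAc ++ (repBc ++ repCc)

theorem ckMc_all : ∀ s ∈ repLc, ∀ r < 8,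
    chkc ttc T2c T1c BM UUc 7 (cg UUc (1024 * s + 128 * r)) = true := by
  intro s hs r hr
  unfold repLc at hs
  rw [List.mem_append, List.mem_append] at hs
  rcases hs with hs | hs | hs
  · exact AllL_spec (AllL_spec ckMAc s hs) r (T53b.mem8 r hr)
  · exact AllL_spec (AllL_spec ckMBc s hs) r (T53b.mem8 r hr)
  · exact AllL_spec (AllL_spec ckMCc s hs) r (T53b.mem8 r hr)

theorem ckRc : allN (fun s => Bool.or (Nat.beq (bt BM s) 1) (Bool.or
    (anyN (fun q => Nat.ble (Nat.add (act (pg q) (Nat.mul 1024 s)) 1) (Nat.mul 1024 s)) 4)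
    (memLb s repLc))) 1024 = true := by decide +kernel

theorem ckOkq : allN (fun v => okP (pq v)) 6 = true := by decide +kernel

theorem leafc_spec (C : ℕ) (h : leafc ttc T2c T1c BM C = true) :
    (∃ q < 5, dg 20 C (127 + q) + 1 ≤ dg 20 C 132) ∨
    (∃ v < 6, bt BM (dg 20 C (121 + v)) = 1) ∨
    (leafS4 ttc C + (leafS2 T2c C + leafS1 T1c C) ≤ 11072962560) := by
  unfold leafc at h
  simp only [T53b.cond_or] at h
  rcases h with h | h | h | h | h | h | h | h | h | h | h | h
  · exact Or.inl ⟨0, by norm_num, Nat.le_of_ble_eq_true h⟩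
  · exact Or.inl ⟨1, by norm_num, Nat.le_of_ble_eq_true h⟩
  · exact Or.inl ⟨2, by norm_num, Nat.le_of_ble_eq_true h⟩
  · exact Or.inl ⟨3, by norm_num, Nat.le_of_ble_eq_true h⟩
  · exact Or.inl ⟨4, by norm_num, Nat.le_of_ble_eq_true h⟩
  · exact Or.inr (Or.inl ⟨0, by norm_num, Nat.eq_of_beq_eq_true h⟩)
  · exact Or.inr (Or.inl ⟨1, by norm_num, Nat.eq_of_beq_eq_true h⟩)
  · exact Or.inr (Or.inl ⟨2, by norm_num, Nat.eq_of_beq_eq_true h⟩)
  · exact Or.inr (Or.inl ⟨3, by norm_num, Nat.eq_of_beq_eq_true h⟩)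
  · exact Or.inr (Or.inl ⟨4, by norm_num, Nat.eq_of_beq_eq_true h⟩)
  · exact Or.inr (Or.inl ⟨5, by norm_num, Nat.eq_of_beq_eq_true h⟩)
  · exact Or.inr (Or.inr (Nat.le_of_ble_eq_true h))

theorem chkc_spec (n : ℕ) (C : ℕ) (h : chkc ttc T2c T1c BM UUc n C = true) (b : ℕ → ℕ)
    (hb : ∀ j < n, b j < 2) :
    leafc ttc T2c T1c BM (C + ∑ j ∈ range n, b j * dg 2660 UUc j) = true := by
  induction n generalizing C with
  | zero => rw [range_zero, sum_empty, add_zero]; exact h
  | succ n ih =>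
    have h1 : cond (chkc ttc T2c T1c BM UUc n C)
      (chkc ttc T2c T1c BM UUc n (Nat.add C (dg 2660 UUc n))) false = true := h
    have h2 : chkc ttc T2c T1c BM UUc n C = true ∧
        chkc ttc T2c T1c BM UUc n (C + dg 2660 UUc n) = true := by
      cases hc : chkc ttc T2c T1c BM UUc n C
      · rw [hc] at h1; simp at h1
      · rw [hc] at h1; exact ⟨rfl, h1⟩
    rw [sum_range_succ]
    have h3 := hb n (by omega)
    obtain h4 | h4 : b n = 0 ∨ b n = 1 := by omega
    · rw [h4, zero_mul, add_zero]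
      exact ih C h2.1 fun j hj => hb j (by omega)
    · rw [h4, one_mul, add_comm (∑ j ∈ range n, b j * dg 2660 UUc j), ← add_assoc]
      exact ih _ h2.2 fun j hj => hb j (by omega)

theorem cg_splitc (g : ℕ) : cg UUc g = cg UUc (128 * (g / 128)) +
    ∑ j ∈ range 7, bt g j * dg 2660 UUc j := by
  unfold cg
  rw [sumN_eq, sumN_eq]
  show ∑ j ∈ range 20, bt g j * dg 2660 UUc j =
    ∑ j ∈ range 20, bt (128 * (g / 128)) j * dg 2660 UUc j + _
  rw [show (20 : ℕ) = 7 + 13 by norm_num, sum_range_add, sum_range_add]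
  have h1 : ∑ j ∈ range 7, bt (128 * (g / 128)) j * dg 2660 UUc j = 0 :=
    sum_eq_zero fun j hj => by rw [T53b.bt_lo _ _ (mem_range.1 hj), zero_mul]
  have h2 : ∀ j ∈ range 13, bt (128 * (g / 128)) (7 + j) * dg 2660 UUc (7 + j) =
      bt g (7 + j) * dg 2660 UUc (7 + j) := fun j _ => by rw [T53b.bt_hi7 _ _ (by omega)]
  rw [h1, sum_congr rfl h2]
  omega

variable {V : Type*}

theorem pointwise_c {c : V → V → V → Bool} (hc : Sys c)
    (hb : ∀ X : Fin 6 → V, Function.Injective X → bt BM (gX c X / 1024) = 0) (g : ℕ) :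
    ∀ X : Fin 6 → V, Function.Injective X → gX c X = g → FFc g ≤ 11072962560 := by
  induction g using Nat.strong_induction_on with
  | _ g ih =>
    intro X hinj hX
    have hg : g < 2 ^ 20 := by rw [← hX]; exact gX_lt c X
    have step : ∀ q < 5, act (pg q) g < g → FFc g ≤ 11072962560 := by
      intro q hq hlt
      have hok := (allN_iff _ _).1 ckOk q hq
      have h1 := gX_perm hc hok X
      rw [hX] at h1
      have := ih _ hlt _ (hinj.comp (pfun_bij hok).injective) h1
      rwa [FFc_act hq] at this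
    have hs : g / 1024 < 1024 := by rw [Nat.div_lt_iff_lt_mul (by norm_num)]; omega
    have h1 := (allN_iff _ _).1 ckRc (g / 1024) hs
    rw [Bool.or_eq_true, Bool.or_eq_true] at h1
    rcases h1 with h1 | h1 | h1
    · exfalso
      have h2 := hb X hinj
      rw [hX] at h2
      have h3 : bt BM (g / 1024) = 1 := Nat.eq_of_beq_eq_true h1
      omega
    · obtain ⟨q, hq, h2⟩ := (anyN_iff _ _).1 h1
      exact step q (by omega) (T53b.act_hi hq g (Nat.le_of_ble_eq_true h2))
    · have h2 := ckMc_all _ (memLb_spec _ _ h1) (g / 128 % 8) (Nat.mod_lt _ (by norm_num))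
      rw [show 1024 * (g / 1024) + 128 * (g / 128 % 8) = 128 * (g / 128) by omega] at h2
      have h3 := chkc_spec 7 _ h2 (bt g) fun j _ => bt_lt _ _
      have h4 : leafc ttc T2c T1c BM (cg UUc g) = true := by
        rw [cg_splitc g]; exact h3
      rcases leafc_spec _ h4 with ⟨q, hq, h5⟩ | ⟨v, hv', h5⟩ | h5
      · rw [dg_cgc _ _ (by omega), dg_cgc _ _ (by omega), phic_act hq, phic_g g hg] at h5
        exact step q hq h5
      · exfalso
        rw [dg_cgc _ _ (by omega), phic_v hv' g] at h5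
        have hok := (allN_iff _ _).1 ckOkq v hv'
        have h6 := hb (X ∘ pfun (pq v)) (hinj.comp (pfun_bij hok).injective)
        rw [gX_perm hc hok X, hX] at h6
        omega
      · rw [leafS4_eq, leafS2_eq, leafS1_eq, sumN_eq, sumN_eq, sumN_eq] at h5
        have e4 : ∑ k ∈ range 15, ttc (dg 20 (cg UUc g) k) = blk h4c p4 15 g :=
          sum_congr rfl fun k hk => by
            have hk' := mem_range.1 hk
            rw [dg_cgc _ _ (by omega), phic_4 hk']; rfl
        have e2 : ∑ k ∈ range 45, dg 32 T2c (dg 20 (cg UUc g) (15 + k)) = blk h2c p2 45 g :=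
          sum_congr rfl fun k hk => by
            have hk' := mem_range.1 hk
            rw [dg_cgc _ _ (by omega), phic_2 hk']; rfl
        have e1 : ∑ k ∈ range 60, dg 32 T1c (dg 20 (cg UUc g) (60 + k)) = blk h1c p1 60 g :=
          sum_congr rfl fun k hk => by
            have hk' := mem_range.1 hk
            rw [dg_cgc _ _ (by omega), phic_1 hk']; rfl
        rw [e4, e2, e1] at h5
        unfold FFc
        omega

end Pool.Agent.T53c
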