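import Pool.Agent.Lib.MP_19b7b8_co_FB.Blocks
import Pool.Agent.Lib.MP_19b7b8_co_FC.Enum

/-!
# MP_19b7b8_co FC: the expectations of the blocks
-/

set_option autoImplicit false

namespace Pool.Agent.T53c

open Finset Pool.Agent.T53 Pool.Agent.T53b

variable {V : Type*} [Fintype V]

/-! ### the block of type 4 -/

omit [Fintype V] in
theorem h4c_six (c : V → V → V → Bool) (x0 x1 x2 x3 x4 x5 : V) :
    (h4c (gX c ![x0, x1, x2, x3, x4, x5]) : ℝ) = 268435456 +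
      (TTc (n4 (c x0 x1 x2) (c x0 x1 x3) (c x0 x2 x3) (c x1 x2 x3)) (pat c x0 x1 x2 x3 x4)
        (pat c x0 x1 x2 x3 x5) : ℝ) := by
  unfold h4c code16
  rw [code_post, code_posf, code_posg]
  unfold TTc
  push_cast
  ring

theorem quad_nonnegc (w : V → ℝ) (t : ℕ) (ht : t < 16) (p : V → ℕ) (hp : ∀ x, p x < 64) :
    0 ≤ ∑ x, ∑ y, w x * w y * (TTc t (p x) (p y) : ℝ) := by
  have h := (posc_all t ht).2 fun f => ∑ x, if p x = f then w x else 0
  have e : ∑ f ∈ range 64, ∑ f' ∈ range 64, (∑ x, if p x = f then w x else 0) *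
      (∑ x, if p x = f' then w x else 0) * (TTc t f f' : ℝ) =
      ∑ x, ∑ y, w x * w y * (TTc t (p x) (p y) : ℝ) := by
    have e1 : ∀ f ∈ range 64, ∑ f' ∈ range 64, (∑ x, if p x = f then w x else 0) *
        (∑ x, if p x = f' then w x else 0) * (TTc t f f' : ℝ) =
        (∑ x, if p x = f then w x else 0) * ∑ y, w y * (TTc t f (p y) : ℝ) := by
      intro f _
      rw [← fib_sum w p hp fun f' => (TTc t f f' : ℝ), mul_sum]
      exact sum_congr rfl fun f' _ => by ring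
    rw [sum_congr rfl e1, fib_sum w p hp fun f => ∑ y, w y * (TTc t f (p y) : ℝ)]
    refine sum_congr rfl fun x _ => ?_
    rw [mul_sum]
    exact sum_congr rfl fun y _ => by ring
  rw [e] at h
  exact h

theorem Ev_h4c (w : V → ℝ) (hw : ∀ x, 0 ≤ w x) (hs : ∑ x, w x = 1) (c : V → V → V → Bool) :
    268435456 ≤ Ev w (fun X => (h4c (gX c X) : ℝ)) := by
  have h : Ev w (fun X => (h4c (gX c X) : ℝ)) = 268435456 + ∑ x0, ∑ x1, ∑ x2, ∑ x3,
      w x0 * (w x1 * (w x2 * w x3)) * ∑ x4, ∑ x5, w x4 * w x5 *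
        (TTc (n4 (c x0 x1 x2) (c x0 x1 x3) (c x0 x2 x3) (c x1 x2 x3)) (pat c x0 x1 x2 x3 x4)
        (pat c x0 x1 x2 x3 x5) : ℝ) := by
    have e1 := Ev_six w (fun X => (h4c (gX c X) : ℝ))
    have e2 : (268435456 : ℝ) = ∑ x0, ∑ x1, ∑ x2, ∑ x3, ∑ x4, ∑ x5,
        w x0 * (w x1 * (w x2 * (w x3 * (w x4 * w x5)))) * 268435456 := by
      rw [← Ev_six w fun _ => (268435456 : ℝ), Ev_one w hs]
    rw [e1]
    conv_rhs => rw [e2]
    simp only [← sum_add_distrib]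
    refine sum_congr rfl fun x0 _ => sum_congr rfl fun x1 _ => sum_congr rfl fun x2 _ =>
      sum_congr rfl fun x3 _ => ?_
    generalize hR : (fun x y => (TTc (n4 (c x0 x1 x2) (c x0 x1 x3) (c x0 x2 x3) (c x1 x2 x3))
      (pat c x0 x1 x2 x3 x) (pat c x0 x1 x2 x3 y) : ℝ)) = R
    have hR' (x y : V) : (TTc (n4 (c x0 x1 x2) (c x0 x1 x3) (c x0 x2 x3) (c x1 x2 x3))
      (pat c x0 x1 x2 x3 x) (pat c x0 x1 x2 x3 y) : ℝ) = R x y := by rw [← hR]
    simp only [h4c_six, hR']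
    rw [mul_sum, ← sum_add_distrib]
    refine sum_congr rfl fun x4 _ => ?_
    rw [mul_sum, ← sum_add_distrib]
    refine sum_congr rfl fun x5 _ => ?_
    ring
  rw [h]
  have : 0 ≤ ∑ x0, ∑ x1, ∑ x2, ∑ x3,
      w x0 * (w x1 * (w x2 * w x3)) * ∑ x4, ∑ x5, w x4 * w x5 *
        (TTc (n4 (c x0 x1 x2) (c x0 x1 x3) (c x0 x2 x3) (c x1 x2 x3)) (pat c x0 x1 x2 x3 x4)
        (pat c x0 x1 x2 x3 x5) : ℝ) :=
    sum_nonneg fun x0 _ => sum_nonneg fun x1 _ => sum_nonneg fun x2 _ => sum_nonneg fun x3 _ =>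
      mul_nonneg (mul_nonneg (hw _) (mul_nonneg (hw _) (mul_nonneg (hw _) (hw _))))
        (quad_nonnegc w _ (n4_lt _ _ _ _) (pat c x0 x1 x2 x3) (pat_lt c x0 x1 x2 x3))
  linarith

/-! ### the block of type 2 -/

/-- entries of the vectors of the block of type 2, shifted by `2^14` -/
noncomputable def rw2c (j f : ℕ) : ℕ := dg 16 V2c (Nat.add (Nat.mul 16 j) f)

/-- weights of the vectors of the block of type 2 -/
noncomputable def ww2c (j : ℕ) : ℕ := dg 32 W2c j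

theorem ckG2c : allN (fun f => allN (fun f' =>
  Nat.beq (Nat.add (dg 32 T2c (Nat.add f (Nat.mul 16 f')))
      (Nat.mul 16384 (sumN (fun j => Nat.mul (ww2c j) (Nat.add (rw2c j f) (rw2c j f'))) 3)))
    (Nat.add (sumN (fun j => Nat.mul (ww2c j) (Nat.mul (rw2c j f) (rw2c j f'))) 3)
      (Nat.add (Nat.mul 268435456 (sumN (fun j => ww2c j) 3)) 67108864))) 16) 16
    = true := by decide +kernel

/-- entries of the vectors -/
noncomputable def RWc (j f : ℕ) : ℤ := (rw2c j f : ℤ) - 16384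

theorem gram_cast (n T O : ℕ) (W r r' : ℕ → ℕ)
    (h : T + 16384 * ∑ j ∈ range n, W j * (r j + r' j) =
      ∑ j ∈ range n, W j * (r j * r' j) + (268435456 * ∑ j ∈ range n, W j + O)) :
    (T : ℤ) = (O : ℤ) + ∑ j ∈ range n, (W j : ℤ) * (((r j : ℤ) - 16384) * ((r' j : ℤ) - 16384)) := by
  have h3 : (T : ℤ) + 16384 * ∑ j ∈ range n, (W j : ℤ) * ((r j : ℤ) + (r' j : ℤ)) =
      ∑ j ∈ range n, (W j : ℤ) * ((r j : ℤ) * (r' j : ℤ)) +
        (268435456 * ∑ j ∈ range n, (W j : ℤ) + (O : ℤ)) := by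
    exact_mod_cast h
  have h4 : ∑ j ∈ range n, (W j : ℤ) * (((r j : ℤ) - 16384) * ((r' j : ℤ) - 16384)) =
      ∑ j ∈ range n, (W j : ℤ) * ((r j : ℤ) * (r' j : ℤ)) -
      16384 * ∑ j ∈ range n, (W j : ℤ) * ((r j : ℤ) + (r' j : ℤ)) +
      268435456 * ∑ j ∈ range n, (W j : ℤ) := by
    simp only [mul_sum, ← sum_sub_distrib, ← sum_add_distrib]
    exact sum_congr rfl fun j _ => by ring
  rw [h4]
  linarith

theorem gram2c (f f' : ℕ) (hf : f < 16) (hf' : f' < 16) :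
    (dg 32 T2c (f + 16 * f') : ℤ) = 67108864 +
      ∑ j ∈ range 3, (ww2c j : ℤ) * (RWc j f * RWc j f') := by
  have h := (allN_iff _ _).1 ((allN_iff _ _).1 ckG2c f hf) f' hf'
  have h1 := Nat.eq_of_beq_eq_true h
  rw [sumN_eq, sumN_eq, sumN_eq] at h1
  exact gram_cast 3 (dg 32 T2c (f + 16 * f')) 67108864 ww2c (fun j => rw2c j f)
    (fun j => rw2c j f') h1

omit [Fintype V] in
theorem h2c_six (c : V → V → V → Bool) (x0 x1 x2 x3 x4 x5 : V) :
    (h2c (gX c ![x0, x1, x2, x3, x4, x5]) : ℝ) = 67108864 + ∑ j ∈ range 3, (ww2c j : ℝ) *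
      ((RWc j (n4 (c x0 x1 x2) (c x0 x1 x3) (c x0 x2 x3) (c x1 x2 x3)) : ℝ) *
      (RWc j (n4 (c x0 x1 x4) (c x0 x1 x5) (c x0 x4 x5) (c x1 x4 x5)) : ℝ)) := by
  unfold h2c
  rw [code_pos8]
  have h := gram2c (n4 (c x0 x1 x2) (c x0 x1 x3) (c x0 x2 x3) (c x1 x2 x3))
    (n4 (c x0 x1 x4) (c x0 x1 x5) (c x0 x4 x5) (c x1 x4 x5)) (n4_lt _ _ _ _) (n4_lt _ _ _ _)
  generalize n4 (c x0 x1 x2) (c x0 x1 x3) (c x0 x2 x3) (c x1 x2 x3) = f at *
  generalize n4 (c x0 x1 x4) (c x0 x1 x5) (c x0 x4 x5) (c x1 x4 x5) = f' at *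
  exact_mod_cast congrArg (fun z : ℤ => (z : ℝ)) h

theorem Ev_h2c (w : V → ℝ) (hw : ∀ x, 0 ≤ w x) (hs : ∑ x, w x = 1) (c : V → V → V → Bool) :
    67108864 ≤ Ev w (fun X => (h2c (gX c X) : ℝ)) := by
  have h : Ev w (fun X => (h2c (gX c X) : ℝ)) = 67108864 + ∑ x0, ∑ x1,
      w x0 * w x1 * ∑ j ∈ range 3, (ww2c j : ℝ) * (∑ x, ∑ y, w x * w y *
        (RWc j (n4 (c x0 x1 x) (c x0 x1 y) (c x0 x y) (c x1 x y)) : ℝ)) ^ 2 := by
    have e1 := Ev_six w (fun X => (h2c (gX c X) : ℝ))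
    have e2 : (67108864 : ℝ) = ∑ x0, ∑ x1, ∑ x2, ∑ x3, ∑ x4, ∑ x5,
        w x0 * (w x1 * (w x2 * (w x3 * (w x4 * w x5)))) * 67108864 := by
      rw [← Ev_six w fun _ => (67108864 : ℝ), Ev_one w hs]
    rw [e1]
    conv_rhs => rw [e2]
    simp only [← sum_add_distrib]
    refine sum_congr rfl fun x0 _ => sum_congr rfl fun x1 _ => ?_
    generalize hR : (fun j x y =>
      (RWc j (n4 (c x0 x1 x) (c x0 x1 y) (c x0 x y) (c x1 x y)) : ℝ)) = R
    have hR' (j : ℕ) (x y : V) : (RWc j (n4 (c x0 x1 x) (c x0 x1 y) (c x0 x y) (c x1 x y)) : ℝ) =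
      R j x y := by rw [← hR]
    simp only [h2c_six, hR']
    have e3 : ∑ j ∈ range 3, (ww2c j : ℝ) * (∑ x, ∑ y, w x * w y * R j x y) ^ 2 =
        ∑ x2, ∑ x3, ∑ x4, ∑ x5, ∑ j ∈ range 3,
          (ww2c j : ℝ) * (w x2 * w x3 * R j x2 x3 * (w x4 * w x5 * R j x4 x5)) := by
      rw [← swap4]
      refine sum_congr rfl fun j _ => ?_
      rw [pow_two, sum_mul, mul_sum]
      refine sum_congr rfl fun x2 _ => ?_
      rw [sum_mul, mul_sum]
      refine sum_congr rfl fun x3 _ => ?_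
      rw [mul_sum, mul_sum]
      refine sum_congr rfl fun x4 _ => ?_
      rw [mul_sum, mul_sum]
    rw [e3, mul_sum, ← sum_add_distrib]
    refine sum_congr rfl fun x2 _ => ?_
    rw [mul_sum, ← sum_add_distrib]
    refine sum_congr rfl fun x3 _ => ?_
    rw [mul_sum, ← sum_add_distrib]
    refine sum_congr rfl fun x4 _ => ?_
    rw [mul_sum, ← sum_add_distrib]
    refine sum_congr rfl fun x5 _ => ?_
    rw [mul_add, mul_sum, mul_sum]
    congr 1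
    exact sum_congr rfl fun j _ => by ring
  rw [h]
  have : 0 ≤ ∑ x0, ∑ x1,
      w x0 * w x1 * ∑ j ∈ range 3, (ww2c j : ℝ) * (∑ x, ∑ y, w x * w y *
        (RWc j (n4 (c x0 x1 x) (c x0 x1 y) (c x0 x y) (c x1 x y)) : ℝ)) ^ 2 :=
    sum_nonneg fun x0 _ => sum_nonneg fun x1 _ =>
      mul_nonneg (mul_nonneg (hw _) (hw _)) (sum_nonneg fun j _ =>
        mul_nonneg (Nat.cast_nonneg _) (sq_nonneg _))
  linarith

/-! ### the first order block -/

/-- the multiplier of a pattern -/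
noncomputable def mmc (f : ℕ) : ℤ := (dg 32 MMc f : ℤ) - 67108864

theorem ckM1c : allN (fun f => Bool.and
    (Nat.beq (Nat.add (dg 32 T1c (Nat.mul 2 f)) (dg 32 MMc f)) 134217728)
    (Nat.beq (Nat.add (dg 32 T1c (Nat.add 1 (Nat.mul 2 f))) 134217728)
      (Nat.mul 3 (dg 32 MMc f)))) 16 = true := by
  decide +kernel

theorem h1c_val (e : Bool) (f : ℕ) (hf : f < 16) :
    (dg 32 T1c (e.toNat + 2 * f) : ℤ) = 67108864 + (4 * (e.toNat : ℤ) - 1) * mmc f := by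
  have h := (allN_iff _ _).1 ckM1c f hf
  simp only [Bool.and_eq_true] at h
  obtain ⟨h1, h2⟩ := h
  have h1' : dg 32 T1c (2 * f) + dg 32 MMc f = 134217728 := Nat.eq_of_beq_eq_true h1
  have h2' : dg 32 T1c (1 + 2 * f) + 134217728 = 3 * dg 32 MMc f := Nat.eq_of_beq_eq_true h2
  unfold mmc
  cases e
  · simp only [Bool.toNat_false, zero_add, Nat.cast_zero, mul_zero]
    have : ((dg 32 T1c (2 * f) : ℕ) : ℤ) + (dg 32 MMc f : ℤ) = 134217728 := by
      exact_mod_cast h1'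
    linarith
  · simp only [Bool.toNat_true, Nat.cast_one, mul_one]
    have : ((dg 32 T1c (1 + 2 * f) : ℕ) : ℤ) + 134217728 = 3 * (dg 32 MMc f : ℤ) := by
      exact_mod_cast h2'
    linarith

omit [Fintype V] in
theorem h1c_six (c : V → V → V → Bool) (x0 x1 x2 x3 x4 x5 : V) :
    (h1c (gX c ![x0, x1, x2, x3, x4, x5]) : ℝ) = 67108864 +
      (4 * ((c x0 x1 x2).toNat : ℝ) - 1) *
        (mmc (n4 (c x3 x4 x5) (c x0 x3 x4) (c x0 x3 x5) (c x0 x4 x5)) : ℝ) := by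
  unfold h1c
  rw [code_pos5]
  have h := h1c_val (c x0 x1 x2) (n4 (c x3 x4 x5) (c x0 x3 x4) (c x0 x3 x5) (c x0 x4 x5))
    (n4_lt _ _ _ _)
  generalize n4 (c x3 x4 x5) (c x0 x3 x4) (c x0 x3 x5) (c x0 x4 x5) = f at *
  exact_mod_cast congrArg (fun z : ℤ => (z : ℝ)) h

/-- expectation of the multiplier for a given root -/
noncomputable def m3 (w : V → ℝ) (c : V → V → V → Bool) (x0 : V) : ℝ := ∑ x3, ∑ x4, ∑ x5,
  w x3 * (w x4 * w x5) * (mmc (n4 (c x3 x4 x5) (c x0 x3 x4) (c x0 x3 x5) (c x0 x4 x5)) : ℝ)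

theorem Ev_h1c (w : V → ℝ) (hs : ∑ x, w x = 1) (c : V → V → V → Bool) :
    Ev w (fun X => (h1c (gX c X) : ℝ)) = 67108864 +
      ∑ x0, w x0 * ((4 * degb w c x0 - 1) * m3 w c x0) := by
  have e1 := Ev_six w (fun X => (h1c (gX c X) : ℝ))
  have e2 : (67108864 : ℝ) = ∑ x0, ∑ x1, ∑ x2, ∑ x3, ∑ x4, ∑ x5,
      w x0 * (w x1 * (w x2 * (w x3 * (w x4 * w x5)))) * 67108864 := by
    rw [← Ev_six w fun _ => (67108864 : ℝ), Ev_one w hs]
  rw [e1]
  conv_rhs => rw [e2]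
  rw [← sum_add_distrib]
  refine sum_congr rfl fun x0 _ => ?_
  simp only [h1c_six, mul_add, sum_add_distrib]
  congr 1
  unfold m3
  generalize hm : (fun x3 x4 x5 =>
    (mmc (n4 (c x3 x4 x5) (c x0 x3 x4) (c x0 x3 x5) (c x0 x4 x5)) : ℝ)) = m
  have hm' (x3 x4 x5 : V) :
      (mmc (n4 (c x3 x4 x5) (c x0 x3 x4) (c x0 x3 x5) (c x0 x4 x5)) : ℝ) =
    m x3 x4 x5 := by rw [← hm]
  simp only [hm']
  have e3 : ∑ x1, ∑ x2, w x1 * w x2 * (4 * ((c x0 x1 x2).toNat : ℝ) - 1) =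
      4 * degb w c x0 - 1 := by
    unfold degb
    have e4 : (1 : ℝ) = ∑ x1, ∑ x2, w x1 * w x2 * 1 := by
      simp only [← mul_sum, ← sum_mul, hs, one_mul]
    conv_rhs => rw [e4]
    rw [mul_sum, ← sum_sub_distrib]
    refine sum_congr rfl fun x1 _ => ?_
    rw [mul_sum, ← sum_sub_distrib]
    exact sum_congr rfl fun x2 _ => by ring
  rw [← e3, sum_mul, mul_sum]
  refine sum_congr rfl fun x1 _ => ?_
  rw [sum_mul, mul_sum]
  refine sum_congr rfl fun x2 _ => ?_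
  simp only [mul_sum]
  refine sum_congr rfl fun x3 _ => sum_congr rfl fun x4 _ => sum_congr rfl fun x5 _ => by ring

/-! ### bounds -/

theorem dg32_le (n k : ℕ) : dg 32 n k ≤ 4294967296 := by
  have := dg_lt 32 n k
  omega

theorem ttc_le (i : ℕ) : ttc i ≤ 4294967296 := by
  unfold ttc
  rw [tqc_eq]
  exact dg32_le _ _

theorem blk_le (h p : ℕ → ℕ) (n g B : ℕ) (hB : ∀ g, h g ≤ B) : blk h p n g ≤ n * B := by
  unfold blk
  calc ∑ k ∈ range n, h (act (p k) g) ≤ ∑ _k ∈ range n, B := sum_le_sum fun k _ => hB _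
    _ = n * B := by rw [sum_const, card_range, smul_eq_mul]

theorem FFc_le (g : ℕ) : FFc g ≤ 515396075520 := by
  unfold FFc
  have h1 := blk_le h4c p4 15 g 4294967296 fun g => ttc_le _
  have h2 := blk_le h2c p2 45 g 4294967296 fun g => dg32_le _ _
  have h3 := blk_le h1c p1 60 g 4294967296 fun g => dg32_le _ _
  omega

theorem ckMB : allN (fun f => Bool.and (Nat.ble (dg 32 MMc f) 83886080)
    (Nat.ble 50331648 (dg 32 MMc f))) 16 = true := by decide +kernel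

theorem mmc_abs (f : ℕ) (hf : f < 16) : |(mmc f : ℝ)| ≤ 16777216 := by
  have h := (allN_iff _ _).1 ckMB f hf
  simp only [Bool.and_eq_true] at h
  have h1 : dg 32 MMc f ≤ 83886080 := Nat.le_of_ble_eq_true h.1
  have h2 : 50331648 ≤ dg 32 MMc f := Nat.le_of_ble_eq_true h.2
  unfold mmc
  push_cast
  have h1' : ((dg 32 MMc f : ℕ) : ℝ) ≤ 83886080 := by exact_mod_cast h1
  have h2' : (50331648 : ℝ) ≤ ((dg 32 MMc f : ℕ) : ℝ) := by exact_mod_cast h2
  rw [abs_le]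
  constructor <;> linarith

theorem m3_abs (w : V → ℝ) (hw : ∀ x, 0 ≤ w x) (hs : ∑ x, w x = 1) (c : V → V → V → Bool)
    (x0 : V) : |m3 w c x0| ≤ 16777216 := by
  unfold m3
  have e : (16777216 : ℝ) = ∑ x3, ∑ x4, ∑ x5, w x3 * (w x4 * w x5) * 16777216 := by
    simp only [← mul_sum, ← sum_mul, hs, mul_one, one_mul]
  rw [e]
  refine (abs_sum_le_sum_abs _ _).trans (sum_le_sum fun x3 _ => ?_)
  refine (abs_sum_le_sum_abs _ _).trans (sum_le_sum fun x4 _ => ?_)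
  refine (abs_sum_le_sum_abs _ _).trans (sum_le_sum fun x5 _ => ?_)
  have h0 : 0 ≤ w x3 * (w x4 * w x5) := mul_nonneg (hw _) (mul_nonneg (hw _) (hw _))
  rw [abs_mul, abs_of_nonneg h0]
  exact mul_le_mul_of_nonneg_left (mmc_abs _ (n4_lt _ _ _ _)) h0

/-- the averages of the multipliers over the root -/
theorem ckRoot : ∀ p q r t : Bool, dg 32 MMc (n4 p q r t) + dg 32 MMc (n4 t q r p) +
    dg 32 MMc (n4 r q p t) + dg 32 MMc (n4 q p r t) ≤
      if p.toNat + q.toNat + r.toNat + t.toNat = 2 then 236435200 else 268435456 := by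
  decide +kernel

theorem root_le (p q r t : Bool) : (mmc (n4 p q r t) : ℝ) + (mmc (n4 t q r p) : ℝ) +
    (mmc (n4 r q p t) : ℝ) + (mmc (n4 q p r t) : ℝ) ≤
      if p.toNat + q.toNat + r.toNat + t.toNat = 2 then -(4 * 8000064) else 0 := by
  have h := ckRoot p q r t
  have e (k : ℕ) : (mmc k : ℝ) = ((dg 32 MMc k : ℕ) : ℝ) - 67108864 := by
    unfold mmc; push_cast; ring
  rw [e, e, e, e]
  split_ifs at h ⊢ with h1
  · have h2 : ((dg 32 MMc (n4 p q r t) + dg 32 MMc (n4 t q r p) +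
      dg 32 MMc (n4 r q p t) + dg 32 MMc (n4 q p r t) : ℕ) : ℝ) ≤ 236435200 := by
      exact_mod_cast h
    push_cast at h2
    linarith
  · have h2 : ((dg 32 MMc (n4 p q r t) + dg 32 MMc (n4 t q r p) +
      dg 32 MMc (n4 r q p t) + dg 32 MMc (n4 q p r t) : ℕ) : ℝ) ≤ 268435456 := by
      exact_mod_cast h
    push_cast at h2
    linarith

end Pool.Agent.T53c
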