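import Pool.Agent.Lib.MP_19b7b8_co_FC.Two

/-!
# MP_19b7b8_co FC: the minimum and induced systems

* `mn_le`: `Nat.sInf_le`.  `exists_opt`: `Nat.sInf_mem` with `exists_two`.  `mn_upper`: `exists_two`.
* `mn_le_sub`: let `e : Fin k ↪o Fin n` be the order embedding with image `K`
  (`K.orderEmbOfFin hK`), and let `F' : Finset (Finset (Fin k))` be the set of the `t` of three
  points with `t.map e ∈ F`.  `F'` covers (apply `Cov F` to `S.map e`; a triple inside `S.map e` is
  `t.map e` with `t ⊆ S`), it has no bad set (if `S` is bad for `F'`, then `S.map e` is bad for `F`,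
  because the triples of `F` inside `S.map e` are the images of the triples of `F'` inside `S`, and
  it is a subset of `K`), and `F'.card = (F.filter fun t => t ⊆ K).card`.
-/

set_option autoImplicit false

namespace Pool.Agent.T53c

open Finset

theorem mn_le {n : ℕ} {F : Finset (Finset (Fin n))} (h : Cl F) : mn n ≤ F.card :=
  Nat.sInf_le ⟨F, h, rfl⟩

theorem exists_opt (n : ℕ) : ∃ F : Finset (Finset (Fin n)), Cl F ∧ F.card = mn n := by
  obtain ⟨F, hF, -⟩ := exists_two n
  exact Nat.sInf_mem (s := {m : ℕ | ∃ F : Finset (Finset (Fin n)), Cl F ∧ F.card = m})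
    ⟨F.card, F, hF, rfl⟩

theorem mn_upper (n : ℕ) : 24 * mn n ≤ n ^ 3 := by
  obtain ⟨F, hF, h⟩ := exists_two n
  exact (Nat.mul_le_mul_left 24 (mn_le hF)).trans h

private theorem Cls_filter {n k : ℕ} (F : Finset (Finset (Fin n))) (e : Fin k ↪ Fin n)
    (F' : Finset (Finset (Fin k))) (hF' : ∀ t, t ∈ F' ↔ t.map e ∈ F) (S : Finset (Fin k)) :
    F.filter (fun t => t ⊆ S.map e) = (F'.filter fun t => t ⊆ S).image fun t => t.map e := by
  classical
  ext t
  simp only [mem_filter, mem_image]
  constructor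
  · rintro ⟨ht, hs⟩
    obtain ⟨u, hu, rfl⟩ := subset_map_iff.1 hs
    exact ⟨u, ⟨(hF' u).2 ht, hu⟩, rfl⟩
  · rintro ⟨u, ⟨hu, hs⟩, rfl⟩
    exact ⟨(hF' u).1 hu, map_subset_map.2 hs⟩

private theorem Cls_four {n k : ℕ} (e : Fin k ↪ Fin n) (a b c d f : Fin k)
    (G : Finset (Finset (Fin k))) (h : G ∈ fourSystems a b c d f) :
    (G.image fun t => t.map e) ∈ fourSystems (e a) (e b) (e c) (e d) (e f) := by
  unfold fourSystems at h ⊢
  simp only [mem_insert, mem_singleton] at h ⊢
  rcases h with rfl | rfl | rfl | rfl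
  · left
    simp [image_insert, map_insert]
  · right; left
    simp [image_insert, map_insert]
  · right; right; left
    simp [image_insert, map_insert]
  · right; right; right
    simp [image_insert, map_insert]

theorem mn_le_sub {n k : ℕ} {F : Finset (Finset (Fin n))} (h : Cov F) (K : Finset (Fin n))
    (hK : K.card = k) (hg : ∀ S ∈ badSets F, ¬ S ⊆ K) :
    mn k ≤ (F.filter fun t => t ⊆ K).card := by
  classical
  obtain ⟨e, he⟩ : ∃ e : Fin k ↪ Fin n, univ.map e = K := by
    refine ⟨(K.orderEmbOfFin hK).toEmbedding, ?_⟩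
    ext v
    have h1 := K.range_orderEmbOfFin hK
    have h2 : v ∈ (K : Set (Fin n)) ↔ v ∈ Set.range (K.orderEmbOfFin hK) := by rw [h1]
    simp only [mem_map, mem_univ, true_and, RelEmbedding.coe_toEmbedding]
    exact h2.symm
  have hF' : ∀ t, t ∈ (univ.filter fun t : Finset (Fin k) => t.map e ∈ F) ↔ t.map e ∈ F := by
    intro t
    simp
  set F' : Finset (Finset (Fin k)) := univ.filter fun t : Finset (Fin k) => t.map e ∈ F with hd
  have hfil := Cls_filter F e F' hF'
  have hinj : Function.Injective fun t : Finset (Fin k) => t.map e := map_injective e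
  have hcard : F'.card = (F.filter fun t => t ⊆ K).card := by
    rw [← he, hfil, card_image_of_injective _ hinj]
    congr 1
    ext t
    simp
  rw [← hcard]
  apply mn_le
  refine ⟨⟨?_, ?_⟩, ?_⟩
  · intro t ht
    rw [← card_map e]
    exact h.1 _ ((hF' t).1 ht)
  · intro S hS
    obtain ⟨t, ht, hts⟩ := h.2 (S.map e) (by rw [card_map, hS])
    obtain ⟨u, hu, rfl⟩ := subset_map_iff.1 hts
    exact ⟨u, (hF' u).2 ht, hu⟩
  · rw [eq_empty_iff_forall_notMem]
    intro S hS
    unfold badSets at hS
    obtain ⟨hS1, a, b, c, d, f, hSe, hG⟩ := mem_filter.1 hS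
    refine hg (S.map e) ?_ (by rw [← he]; exact map_subset_map.2 (subset_univ _))
    unfold badSets
    rw [mem_filter, mem_powersetCard]
    refine ⟨⟨subset_univ _, by rw [card_map]; exact (mem_powersetCard.1 hS1).2⟩,
      e a, e b, e c, e d, e f, ?_, ?_⟩
    · rw [hSe]
      simp [map_insert]
    · have h1 := Cls_four e a b c d f _ hG
      rw [← hfil S] at h1
      exact h1

end Pool.Agent.T53c
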