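import Mathlib

/-!
# MP_19b7b8_co: four systems of triples on five points
-/

set_option autoImplicit false

namespace Pool.Agent.T53c

open Finset

/-- The four systems of triples on the points `a, b, c, d, e`: the triples `abc, ade`; the triples
`abc, abd, abe`; the triples `abc, abd, acd`; the triples `abc, acd, ade, abe`. -/
def fourSystems {n : ℕ} (a b c d e : Fin n) : Finset (Finset (Finset (Fin n))) :=
  {{{a, b, c}, {a, d, e}},
   {{a, b, c}, {a, b, d}, {a, b, e}},
   {{a, b, c}, {a, b, d}, {a, c, d}},
   {{a, b, c}, {a, c, d}, {a, d, e}, {a, b, e}}}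

open Classical in
/-- The sets of five points in which the triples of `F` form one of the four systems, for some
naming of the five points. -/
noncomputable def badSets {n : ℕ} (F : Finset (Finset (Fin n))) : Finset (Finset (Fin n)) :=
  (powersetCard 5 univ).filter fun S => ∃ a b c d e : Fin n, S = {a, b, c, d, e} ∧
    F.filter (fun t => t ⊆ S) ∈ fourSystems a b c d e

/-- `F` consists of triples, and every five points contain a triple of `F`. -/
def Cov {n : ℕ} (F : Finset (Finset (Fin n))) : Prop :=
  (∀ e ∈ F, e.card = 3) ∧ ∀ S : Finset (Fin n), S.card = 5 → ∃ e ∈ F, e ⊆ S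

/-- The class: covering systems without bad sets. -/
def Cl {n : ℕ} (F : Finset (Finset (Fin n))) : Prop := Cov F ∧ badSets F = ∅

/-- The smallest number of triples of a system of the class on `n` points. -/
noncomputable def mn (n : ℕ) : ℕ :=
  sInf {m : ℕ | ∃ F : Finset (Finset (Fin n)), Cl F ∧ F.card = m}

/-- The number of triples through a point. -/
def dgr {n : ℕ} (F : Finset (Finset (Fin n))) (x : Fin n) : ℕ := (F.filter fun t => x ∈ t).card

/-- The number of sets of four points which contain exactly two triples of `F`. -/
def M2 {n : ℕ} (F : Finset (Finset (Fin n))) : ℕ :=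
  (univ.filter fun S : Finset (Fin n) => S.card = 4 ∧ (F.filter (· ⊆ S)).card = 2).card

/-- Ringel's system for the map `p` into four cyclically ordered classes: the triples with two
points in a class `i` and the third point in the class `i` or `i + 1`. -/
def ringel {n : ℕ} (p : Fin n → ZMod 4) : Finset (Finset (Fin n)) :=
  (powersetCard 3 univ).filter fun t =>
    ∃ x ∈ t, ∃ y ∈ t, ∃ z ∈ t, x ≠ y ∧ x ≠ z ∧ y ≠ z ∧ p x = p y ∧ (p z = p x ∨ p z = p x + 1)

end Pool.Agent.T53c
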