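import Pool.Agent.Lib.MP_19b7b8_co_FB.Rel
import Pool.Agent.Lib.MP_19b7b8_co_FC.Defs

/-!
# MP_19b7b8_co FC: degrees
-/

set_option autoImplicit false

namespace Pool.Agent.T53c

open Finset Pool.Agent.T53b

variable {n : ℕ}

theorem card_link (F : Finset (Finset (Fin n))) (h3 : ∀ e ∈ F, e.card = 3) (x : Fin n) :
    ((univ.erase x).offDiag.filter fun p : Fin n × Fin n => ({x, p.1, p.2} : Finset (Fin n)) ∈ F).card
      = 2 * dgr F x := by
  classical
  have hmap : ∀ p ∈ (univ.erase x).offDiag.filter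
      (fun p : Fin n × Fin n => ({x, p.1, p.2} : Finset (Fin n)) ∈ F),
      ({x, p.1, p.2} : Finset (Fin n)) ∈ F.filter fun t => x ∈ t := by
    intro p hp
    rw [mem_filter] at hp ⊢
    exact ⟨hp.2, by simp⟩
  rw [card_eq_sum_card_fiberwise hmap]
  have hfib : ∀ t ∈ F.filter (fun t => x ∈ t), (((univ.erase x).offDiag.filter
      (fun p : Fin n × Fin n => ({x, p.1, p.2} : Finset (Fin n)) ∈ F)).filter
        fun p => ({x, p.1, p.2} : Finset (Fin n)) = t).card = 2 := by
    intro t ht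
    rw [mem_filter] at ht
    have hc : (t.erase x).card = 2 := by
      rw [card_erase_of_mem ht.2, h3 t ht.1]
    have : (((univ.erase x).offDiag.filter
      (fun p : Fin n × Fin n => ({x, p.1, p.2} : Finset (Fin n)) ∈ F)).filter
        fun p => ({x, p.1, p.2} : Finset (Fin n)) = t) = (t.erase x).offDiag := by
      ext ⟨y, z⟩
      simp only [mem_filter, mem_offDiag, mem_erase, mem_univ, and_true]
      constructor
      · rintro ⟨⟨⟨hy, hz, hyz⟩, _⟩, hT⟩
        refine ⟨⟨hy, ?_⟩, ⟨hz, ?_⟩, hyz⟩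
        · rw [← hT]; simp
        · rw [← hT]; simp
      · rintro ⟨⟨hy, hyt⟩, ⟨hz, hzt⟩, hyz⟩
        have hT : ({x, y, z} : Finset (Fin n)) = t := by
          apply eq_of_subset_of_card_le
          · intro v hv
            simp only [mem_insert, mem_singleton] at hv
            rcases hv with rfl | rfl | rfl
            · exact ht.2
            · exact hyt
            · exact hzt
          · rw [h3 t ht.1, card_insert_of_notMem, card_pair hyz]
            simp only [mem_insert, mem_singleton, not_or]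
            exact ⟨Ne.symm hy, Ne.symm hz⟩
        exact ⟨⟨⟨hy, hz, hyz⟩, by rw [hT]; exact ht.1⟩, hT⟩
    rw [this, offDiag_card, hc]
  rw [sum_congr rfl hfib, sum_const, smul_eq_mul]
  unfold dgr
  ring

theorem sum_rel (F : Finset (Finset (Fin n))) (h3 : ∀ e ∈ F, e.card = 3) (x : Fin n) :
    ∑ y, ∑ z, ((rel F x y z).toNat : ℝ) = 2 * (dgr F x : ℝ) + 3 * n - 2 := by
  classical
  have hn : 0 < n := x.pos
  have e1 : ∑ y, ∑ z, ((rel F x y z).toNat : ℝ) =
      ∑ p : Fin n × Fin n, ((rel F x p.1 p.2).toNat : ℝ) := by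
    rw [Fintype.sum_prod_type]
  have e2 : ∀ p : Fin n × Fin n, ((rel F x p.1 p.2).toNat : ℝ) =
      1 - (if p ∈ (univ.erase x).offDiag then (1 : ℝ) else 0) +
      (if p ∈ (univ.erase x).offDiag.filter
        (fun p : Fin n × Fin n => ({x, p.1, p.2} : Finset (Fin n)) ∈ F) then (1 : ℝ) else 0) := by
    rintro ⟨y, z⟩
    simp only [mem_filter, mem_offDiag, mem_erase, mem_univ, and_true]
    unfold rel
    by_cases h1 : y ≠ x ∧ z ≠ x ∧ y ≠ z
    · obtain ⟨hy, hz, hyz⟩ := h1
      by_cases h2 : ({x, y, z} : Finset (Fin n)) ∈ F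
      · simp [hy, hz, hyz, h2]
      · simp [hy, hz, hyz, h2, Ne.symm hy, Ne.symm hz]
    · have h3 : x = y ∨ y = z ∨ x = z ∨ ({x, y, z} : Finset (Fin n)) ∈ F := by
        by_contra hcon
        push Not at hcon
        exact h1 ⟨Ne.symm hcon.1, Ne.symm hcon.2.2.1, hcon.2.1⟩
      simp [h1, h3]
  rw [e1, sum_congr rfl fun p _ => e2 p, sum_add_distrib, sum_sub_distrib]
  rw [sum_ite_mem, sum_ite_mem, univ_inter, univ_inter]
  simp only [sum_const, nsmul_eq_mul, mul_one, card_link F h3 x]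
  rw [offDiag_card, card_erase_of_mem (mem_univ x)]
  simp only [card_univ, Fintype.card_prod, Fintype.card_fin]
  obtain ⟨m, rfl⟩ : ∃ m, n = m + 1 := ⟨n - 1, by omega⟩
  have e3 : m + 1 - 1 = m := by omega
  rw [e3]
  have e4 : m ≤ m * m ∨ m = 0 := by
    rcases Nat.eq_zero_or_pos m with h | h
    · exact Or.inr h
    · exact Or.inl (Nat.le_mul_of_pos_left m h)
  have e5 : ((m * m - m : ℕ) : ℝ) = (m : ℝ) * m - m := by
    rcases e4 with h | h
    · rw [Nat.cast_sub h]; push_cast; ring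
    · subst h; simp
  rw [e5]
  push_cast
  ring

theorem sum_dgr (F : Finset (Finset (Fin n))) (h3 : ∀ e ∈ F, e.card = 3) :
    ∑ x, (dgr F x : ℝ) = 3 * (F.card : ℝ) := by
  classical
  have h : ∑ x, dgr F x = 3 * F.card := by
    unfold dgr
    simp only [card_filter]
    rw [sum_comm]
    have e : ∀ t ∈ F, ∑ x, (if x ∈ t then 1 else 0) = 3 := by
      intro t ht
      rw [sum_boole]
      simp [h3 t ht]
    rw [sum_congr rfl e, sum_const, smul_eq_mul, mul_comm]
  exact_mod_cast h

end Pool.Agent.T53c
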