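import Pool.Agent.Lib.MP_19b7b8_co_FA.Fields
import Pool.Agent.Lib.MP_19b7b8_co_FC.Data

/-!
# MP_19b7b8_co FC: the packed fields of a graph
-/

set_option autoImplicit false

namespace Pool.Agent.T53c

open Finset Pool.Agent.T53

/-- coefficient of the bit `j` in the field `k` -/
noncomputable def ufc (k j : ℕ) : ℕ := dg 20 (dg 2660 UUc j) k

/-- the field `k` of the graph `g` -/
noncomputable def phic (k g : ℕ) : ℕ := ∑ j ∈ range 20, bt g j * ufc k j

theorem ckUc : allN (fun k => Nat.ble (Nat.add (sumN (fun j => ufc k j) 20) 1) 1048576) 133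
    = true := by decide +kernel

theorem phic_lt (k g : ℕ) (hk : k < 133) : phic k g < 2 ^ 20 := by
  have h := (allN_iff _ _).1 ckUc k hk
  have h1 := Nat.le_of_ble_eq_true h
  rw [sumN_eq] at h1
  have h2 : phic k g ≤ ∑ j ∈ range 20, ufc k j := by
    unfold phic
    refine sum_le_sum fun j _ => ?_
    calc bt g j * ufc k j ≤ 1 * ufc k j := Nat.mul_le_mul_right _ (bt_le _ _)
      _ = ufc k j := one_mul _
  have h3 : (∑ j ∈ range 20, ufc k j) + 1 ≤ 1048576 := h1
  omega

theorem dg_cgc (k g : ℕ) (hk : k < 133) : dg 20 (cg UUc g) k = phic k g := by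
  have h1 : cg UUc g = ∑ k ∈ range 133, phic k g * (2 ^ 20) ^ k := by
    unfold cg phic
    rw [sumN_eq]
    simp only [sum_mul]
    rw [sum_comm]
    refine sum_congr rfl fun j _ => ?_
    show bt g j * dg 2660 UUc j = _
    have h2 : dg 2660 UUc j < (2 ^ 20) ^ 133 := by
      rw [← pow_mul]; exact dg_lt _ _ _
    have h3 := dig_expand (2 ^ 20) (by positivity) 133 _ h2
    conv_lhs => rw [h3]
    rw [mul_sum]
    refine sum_congr rfl fun k _ => ?_
    unfold ufc
    rw [dg_eq 20, mul_assoc]
  rw [dg_eq, h1]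
  exact dig_get (2 ^ 20) (fun k => phic k g) 133 (fun i hi => phic_lt i g hi) k hk

theorem phic_sel (k g m : ℕ) (s : ℕ → ℕ) (hs : ∀ i < m, s i < 20)
    (hu : ∀ j < 20, ufc k j = mk (fun i => cond (Nat.beq (s i) j) 1 0) m) :
    phic k g = mk (fun i => bt g (s i)) m := by
  unfold phic
  rw [sum_congr rfl fun j hj => by rw [hu j (mem_range.1 hj), mk_eq, mul_sum], sum_comm, mk_eq]
  refine sum_congr rfl fun i hi => ?_
  rw [sum_eq_single (s i)]
  · simp
  · intro j _ hj
    have : Nat.beq (s i) j = false := by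
      rw [Bool.eq_false_iff]; intro h; exact hj (Nat.eq_of_beq_eq_true h).symm
    rw [this]; simp
  · intro h
    exact absurd (mem_range.2 (hs i (mem_range.1 hi))) h

/-- check of a field -/
noncomputable def ckFc (k m : ℕ) (s : ℕ → ℕ) : Bool :=
  allN (fun i => Nat.ble (Nat.add (s i) 1) 20) m &&
  allN (fun j => Nat.beq (ufc k j) (mk (fun i => cond (Nat.beq (s i) j) 1 0) m)) 20

theorem ckFc_spec {k m : ℕ} {s : ℕ → ℕ} (h : ckFc k m s = true) (g : ℕ) :
    phic k g = mk (fun i => bt g (s i)) m := by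
  simp only [ckFc, Bool.and_eq_true] at h
  exact phic_sel k g m s (fun i hi => Nat.le_of_ble_eq_true ((allN_iff _ _).1 h.1 i hi))
    fun j hj => Nat.eq_of_beq_eq_true ((allN_iff _ _).1 h.2 j hj)

theorem ckFc4 : allN (fun k => ckFc k 16 (fun i => sel (p4 k) (pos16 i))) 15 = true := by
  decide +kernel
theorem ckFc2 : allN (fun k => ckFc (Nat.add 15 k) 8 (fun i => sel (p2 k) (pos8 i))) 45
    = true := by decide +kernel
theorem ckFc1 : allN (fun k => ckFc (Nat.add 60 k) 5 (fun i => sel (p1 k) (pos5 i))) 60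
    = true := by decide +kernel
theorem ckFcg : allN (fun s => ckFc (Nat.add 127 s) 20 (fun i => sel (pg s) i)) 5 = true := by
  decide +kernel
theorem ckFci : ckFc 132 20 (fun i => i) = true := by decide +kernel

/-- the permutation that moves the vertex `5` to `v` -/
noncomputable def pq (v : ℕ) : ℕ := dg 18 PQ v

theorem ckFcv : allN (fun v => ckFc (Nat.add 121 v) 10 (fun i => sel (pq v) (Nat.add 10 i))) 6
    = true := by decide +kernel

theorem phic_g (g : ℕ) (hg : g < 2 ^ 20) : phic 132 g = g := by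
  rw [ckFc_spec ckFci g]; exact mk_bt 20 g hg

theorem phic_act {s : ℕ} (hs : s < 5) (g : ℕ) : phic (127 + s) g = act (pg s) g :=
  ckFc_spec ((allN_iff _ _).1 ckFcg s hs) g

theorem phic_v {v : ℕ} (hv : v < 6) (g : ℕ) : phic (121 + v) g = act (pq v) g / 1024 := by
  have h1 := (allN_iff _ _).1 ckFcv v hv
  have h0 : phic (121 + v) g = mk (fun i => bt g (sel (pq v) (10 + i))) 10 := ckFc_spec h1 g
  have e : act (pq v) g = mk (fun j => bt g (sel (pq v) j)) 10 +
      2 ^ 10 * mk (fun j => bt g (sel (pq v) (10 + j))) 10 := by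
    unfold act; rw [show (20 : ℕ) = 10 + 10 by norm_num, mk_add]
  rw [h0, e]
  have h2 : mk (fun j => bt g (sel (pq v) j)) 10 < 2 ^ 10 := mk_lt _ _ fun _ _ => bt_lt _ _
  omega

theorem phic_4 {k : ℕ} (hk : k < 15) (g : ℕ) : phic k g = code16 (act (p4 k) g) := by
  have h1 := (allN_iff _ _).1 ckFc4 k hk
  rw [ckFc_spec h1 g]
  have hlt : ∀ i < 16, sel (p4 k) (pos16 i) < 20 := by
    simp only [ckFc, Bool.and_eq_true] at h1
    exact fun i hi => Nat.le_of_ble_eq_true ((allN_iff _ _).1 h1.1 i hi)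
  rw [show (16 : ℕ) = 4 + (6 + 6) by norm_num, mk_add, mk_add]
  unfold code16
  have e1 : code post 4 (act (p4 k) g) = mk (fun i => bt g (sel (p4 k) (pos16 i))) 4 := by
    refine mk_congr fun i hi => ?_
    have h3 : pos16 i = post i := by
      unfold pos16
      have : Nat.ble (Nat.add i 1) 4 = true := Nat.ble_eq_true_of_le (by show i + 1 ≤ 4; omega)
      rw [this]; rfl
    rw [h3]
    exact bt_act _ _ _ (by
      have := (by decide +kernel : allN (fun i => Nat.ble (Nat.add (post i) 1) 20) 4 = true)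
      exact Nat.le_of_ble_eq_true ((allN_iff _ _).1 this i hi))
  have e2 : code posf 6 (act (p4 k) g) = mk (fun i => bt g (sel (p4 k) (pos16 (4 + i)))) 6 := by
    refine mk_congr fun i hi => ?_
    have h3 : pos16 (4 + i) = posf i := by
      unfold pos16
      have h4 : Nat.ble (Nat.add (4 + i) 1) 4 = false := by
        rw [Bool.eq_false_iff]; intro h
        have : (4 + i) + 1 ≤ 4 := Nat.le_of_ble_eq_true h
        omega
      have h5 : Nat.ble (Nat.add (4 + i) 1) 10 = true :=
        Nat.ble_eq_true_of_le (by show (4 + i) + 1 ≤ 10; omega)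
      have h6 : Nat.sub (4 + i) 4 = i := by show 4 + i - 4 = i; omega
      rw [h4, h5, h6]; rfl
    rw [h3]
    exact bt_act _ _ _ (by
      have := (by decide +kernel : allN (fun i => Nat.ble (Nat.add (posf i) 1) 20) 6 = true)
      exact Nat.le_of_ble_eq_true ((allN_iff _ _).1 this i hi))
  have e3 : code posg 6 (act (p4 k) g) = mk (fun i => bt g (sel (p4 k) (pos16 (4 + (6 + i))))) 6 := by
    refine mk_congr fun i hi => ?_
    have h3 : pos16 (4 + (6 + i)) = posg i := by
      unfold pos16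
      have h4 : Nat.ble (Nat.add (4 + (6 + i)) 1) 4 = false := by
        rw [Bool.eq_false_iff]; intro h
        have : (4 + (6 + i)) + 1 ≤ 4 := Nat.le_of_ble_eq_true h
        omega
      have h5 : Nat.ble (Nat.add (4 + (6 + i)) 1) 10 = false := by
        rw [Bool.eq_false_iff]; intro h
        have : (4 + (6 + i)) + 1 ≤ 10 := Nat.le_of_ble_eq_true h
        omega
      have h6 : Nat.sub (4 + (6 + i)) 10 = i := by show 4 + (6 + i) - 10 = i; omega
      rw [h4, h5, h6]; rfl
    rw [h3]
    exact bt_act _ _ _ (by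
      have := (by decide +kernel : allN (fun i => Nat.ble (Nat.add (posg i) 1) 20) 6 = true)
      exact Nat.le_of_ble_eq_true ((allN_iff _ _).1 this i hi))
  rw [e1, e2, e3]
  ring

theorem phic_2 {k : ℕ} (hk : k < 45) (g : ℕ) : phic (15 + k) g = code pos8 8 (act (p2 k) g) := by
  have h1 := (allN_iff _ _).1 ckFc2 k hk
  refine (ckFc_spec h1 g).trans (mk_congr fun i hi => ?_)
  exact (bt_act _ _ _ (by
      have := (by decide +kernel : allN (fun i => Nat.ble (Nat.add (pos8 i) 1) 20) 8 = true)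
      exact Nat.le_of_ble_eq_true ((allN_iff _ _).1 this i hi))).symm

theorem phic_1 {k : ℕ} (hk : k < 60) (g : ℕ) : phic (60 + k) g = code pos5 5 (act (p1 k) g) := by
  have h1 := (allN_iff _ _).1 ckFc1 k hk
  refine (ckFc_spec h1 g).trans (mk_congr fun i hi => ?_)
  exact (bt_act _ _ _ (by
      have := (by decide +kernel : allN (fun i => Nat.ble (Nat.add (pos5 i) 1) 20) 5 = true)
      exact Nat.le_of_ble_eq_true ((allN_iff _ _).1 this i hi))).symm

end Pool.Agent.T53c
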