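import Pool.Agent.Lib.MP_19b7b8_co_FB.Rel
import Pool.Agent.Lib.MP_19b7b8_co_FC.Defs
import Pool.Agent.Lib.MP_19b7b8_co_FC.Enum

/-!
# MP_19b7b8_co FC: the samples of a system of the class have no excluded code

The bits `10, ..., 19` of `g = gX (rel F) X` are the ten triples of `X 0, ..., X 4`: the position
`10 + i` is, for `i = 0, ..., 9`, the triple `234, 134, 124, 123, 034, 024, 023, 014, 013, 012`
(`ckTri`, `bX_isT`, `bt_gX` of `MP_19b7b8_co_FB/Exp.lean`).  For injective `X` the relation
`rel F (X i) (X j) (X k)` holds iff `{X i, X j, X k} ∈ F`.  `BM` is a mask of 1024 bits: the bits `0`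
and the 60 first entries of `BL`.

Suppose that `bt BM (g / 1024) = 1` (`bt_lt`); `s = g / 1024 < 1024` (`gX_lt`).
* A check (`decide +kernel`, in the style of `ckRc` in `Enum.lean`): for all `s < 1024` with
  `bt BM s = 1`, `s = 0` or there is an entry `(s, p)` of `BL`; and for all entries `(s, p)` of `BL`:
  `okP p`, `pv p 5 = 5` (or directly `10 ≤ sel p (10 + i)` for `i < 10`), and
  `act p (1024 * s) / 1024` is one of the numbers `528, 896, 832, 720`.
* `s = 0`: none of the ten triples is in `F`, a contradiction to `Cov F` (for instance with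
  `gX_valid` for `v = 5`, as in `pointwise_b` of `MP_19b7b8_co_FB/Enum.lean`).
* Otherwise put `Y = X ∘ pfun p` (injective, `pfun_bij`); `gX (rel F) Y = act p g` (`gX_perm`,
  `rel_sys`), and its bits `10, ..., 19` depend only on the bits `10, ..., 19` of `g` (compare
  `act_hi` in `MP_19b7b8_co_FB/Enum.lean`), so `gX (rel F) Y / 1024` is one of the four numbers.
  With `a, b, c, d, e = Y 0, ..., Y 4` these are exactly the four systems of `fourSystems`:
  `528 = {abc, ade}`, `896 = {abc, abd, abe}`, `832 = {abc, abd, acd}`,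
  `720 = {abc, acd, ade, abe}`.  So `S = {a, b, c, d, e}` is in `badSets F`, a contradiction (a
  triple of `F` inside `S` is `{Y i, Y j, Y k}` with `i < j < k < 5`, lemma `three_of` in
  `MP_19b7b8_co_FB/Rel.lean`; a similar proof is in `MP_19b7b8_co_FB/Six.lean`).
-/

set_option autoImplicit false

namespace Pool.Agent.T53c

open Finset Pool.Agent.T53 Pool.Agent.T53b

/-- the excluded codes with permutations that bring them into standard form -/
def BL : List (ℕ × ℕ) :=
  [(7, 165516), (11, 166027), (13, 166090), (14, 166097), (19, 172579), (20, 172740), (24,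
  172803), (34, 176772), (37, 176674), (40, 176898), (49, 169604), (54, 176772), (66, 180867),
  (68, 180930), (73, 180762), (81, 170115), (90, 180867), (97, 170178), (108, 180930), (112,
  170192), (129, 177220), (134, 177185), (136, 177409), (146, 173636), (149, 177220), (163,
  173636), (164, 177220), (176, 177248), (192, 177416), (257, 181315), (260, 181441), (266,
  181273), (274, 174147), (281, 181315), (288, 181448), (323, 174147), (328, 181315), (336,
  181336), (386, 174273), (396, 181441), (400, 174280), (480, 181448), (513, 181826), (514,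
  181889), (524, 181777), (528, 181896), (548, 178242), (553, 181826), (581, 178242), (584,
  181826), (608, 181840), (644, 178305), (650, 181889), (672, 178312), (720, 181896), (774,
  178305), (776, 181889), (816, 178312), (832, 181896), (896, 181896)]

/-- the codes of the four systems -/
def five_ok (v : ℕ) : Bool :=
  Bool.or (Nat.beq v 528) (Bool.or (Nat.beq v 896) (Bool.or (Nat.beq v 832) (Nat.beq v 720)))

/-- a Boolean test for all elements of a list -/
def five_all (P : ℕ × ℕ → Bool) (l : List (ℕ × ℕ)) : Bool :=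
  List.rec true (fun a _ ih => Bool.and (P a) ih) l

/-- a Boolean test for some element of a list -/
def five_any (P : ℕ × ℕ → Bool) (l : List (ℕ × ℕ)) : Bool :=
  List.rec false (fun a _ ih => Bool.or (P a) ih) l

theorem five_all_spec {P : ℕ × ℕ → Bool} {l : List (ℕ × ℕ)} (h : five_all P l = true) :
    ∀ a ∈ l, P a = true := by
  induction l with
  | nil => intro a ha; simp at ha
  | cons b l ih =>
    have h1 : (P b && five_all P l) = true := h
    rw [Bool.and_eq_true] at h1
    intro a ha
    rcases List.mem_cons.1 ha with rfl | ha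
    · exact h1.1
    · exact ih h1.2 a ha

theorem five_any_spec {P : ℕ × ℕ → Bool} {l : List (ℕ × ℕ)} (h : five_any P l = true) :
    ∃ a ∈ l, P a = true := by
  induction l with
  | nil => exact absurd h (by simp [five_any])
  | cons b l ih =>
    have h1 : (P b || five_any P l) = true := h
    rw [Bool.or_eq_true] at h1
    rcases h1 with h1 | h1
    · exact ⟨b, List.mem_cons_self, h1⟩
    · obtain ⟨a, ha, h2⟩ := ih h1
      exact ⟨a, List.mem_cons_of_mem _ ha, h2⟩

theorem five_ckM : allN (fun s => Bool.or (Nat.beq (bt BM s) 0) (Bool.or (Nat.beq s 0)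
    (five_any (fun a => Nat.beq a.1 s) BL))) 1024 = true := by decide +kernel

theorem five_ckL : five_all (fun a => Bool.and (okP a.2)
    (Bool.and (allN (fun i => Nat.ble 10 (sel a.2 (Nat.add 10 i))) 10)
      (five_ok (Nat.div (act a.2 (Nat.mul 1024 a.1)) 1024)))) BL = true := by decide +kernel

theorem five_ckI : allN (fun a => allN (fun b => allN (fun e =>
    Bool.or (Bool.not (Bool.and (Nat.ble (Nat.add a 1) b) (Nat.ble (Nat.add b 1) e)))
      (Nat.ble 10 (idx a b e))) 5) 5) 5 = true := by decide +kernel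

theorem five_ckT : allN (fun j => Bool.or (Nat.ble (Nat.add j 1) 10)
    (Nat.ble (Nat.add (tc j) 1) 5)) 20 = true := by decide +kernel

theorem five_idx {a b e : ℕ} (h1 : a < b) (h2 : b < e) (h3 : e < 5) : 10 ≤ idx a b e := by
  have h := (allN_iff _ _).1 ((allN_iff _ _).1 ((allN_iff _ _).1 five_ckI a (by omega)) b
    (by omega)) e h3
  have e1 : Nat.ble (Nat.add a 1) b = true := Nat.ble_eq_true_of_le h1
  have e2 : Nat.ble (Nat.add b 1) e = true := Nat.ble_eq_true_of_le h2
  rw [e1, e2] at h
  exact Nat.le_of_ble_eq_true (by simpa using h)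

theorem five_tc {j : ℕ} (hj : j < 20) (h : 10 ≤ j) : tc j < 5 := by
  have h1 := (allN_iff _ _).1 five_ckT j hj
  rw [Bool.or_eq_true] at h1
  rcases h1 with h1 | h1
  · have h2 : j + 1 ≤ 10 := Nat.le_of_ble_eq_true h1
    omega
  · exact Nat.le_of_ble_eq_true h1

/-- the upper bits of the permuted code -/
theorem five_act {p : ℕ} (hp : ∀ i < 10, 10 ≤ sel p (10 + i)) (g : ℕ) :
    act p g / 1024 = act p (1024 * (g / 1024)) / 1024 := by
  have e (x : ℕ) : act p x / 1024 = mk (fun j => bt x (sel p (10 + j))) 10 := by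
    unfold act
    rw [show (20 : ℕ) = 10 + 10 by norm_num, mk_add]
    have h2 : mk (fun j => bt x (sel p j)) 10 < 2 ^ 10 := mk_lt _ _ fun _ _ => bt_lt _ _
    omega
  rw [e, e]
  refine mk_congr fun i hi => ?_
  exact (T53b.bt_hi _ _ (hp i hi)).symm

theorem five_bt {g j : ℕ} (hj : 10 ≤ j) : bt g j = bt (g / 1024) (j - 10) := by
  rw [bt_eq, bt_eq]
  have h1 : (2 : ℕ) ^ j = 1024 * 2 ^ (j - 10) := by
    rw [show (1024 : ℕ) = 2 ^ 10 by norm_num, ← pow_add]; congr 1; omega
  rw [h1, ← Nat.div_div_eq_div_mul]

/-- the values of `Y` at the triple in position `j` -/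
noncomputable def five_tY {n : ℕ} (Y : Fin 6 → Fin n) (j : ℕ) : Finset (Fin n) :=
  {Y (fn (ta j)), Y (fn (tb j)), Y (fn (tc j))}

theorem five_tY_of {n : ℕ} {Y : Fin 6 → Fin n} {j a b e : ℕ} (h : isT TA TB TC j a b e = true) :
    five_tY Y j = {Y (fn a), Y (fn b), Y (fn e)} := by
  simp only [isT, Bool.and_eq_true] at h
  unfold five_tY ta tb tc
  rw [Nat.eq_of_beq_eq_true h.1, Nat.eq_of_beq_eq_true h.2.1, Nat.eq_of_beq_eq_true h.2.2]

/-- the triples inside of the first five points -/
theorem five_filter {n : ℕ} (F : Finset (Finset (Fin n))) (h3 : ∀ e ∈ F, e.card = 3)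
    (Y : Fin 6 → Fin n) (hY : Function.Injective Y) :
    F.filter (fun t => t ⊆ univ.image fun i : Fin 5 => Y i.castSucc) =
      ((range 20).filter fun j => 10 ≤ j ∧ bt (gX (rel F) Y / 1024) (j - 10) = 1).image
        (five_tY Y) := by
  ext t
  simp only [mem_filter, mem_image, mem_range]
  constructor
  · rintro ⟨ht, hsub⟩
    obtain ⟨i, j, k, hij, hjk, he⟩ := three_of (fun i : Fin 5 => Y i.castSucc)
      (hY.comp (Fin.castSucc_injective 5)) t (h3 t ht) (fun v hv => by simpa using hsub hv)
    have hi5 : i.val < j.val := hij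
    have hj5 : j.val < k.val := hjk
    have hk5 := k.isLt
    obtain ⟨e1, e2, e3, e4⟩ := idx_sorted hi5 hj5 (show k.val < 6 by omega)
    have h10 := five_idx hi5 hj5 hk5
    have f (x : Fin 5) : Y (fn x.val) = Y x.castSucc := by
      rw [show x.val = (x.castSucc : Fin 6).val from rfl, fn_fin]
    refine ⟨idx i.val j.val k.val, ⟨e4, h10, ?_⟩, ?_⟩
    · rw [← five_bt h10, bt_gX _ _ _ e4]
      unfold bX
      rw [e1, e2, e3, f, f, f]
      have : rel F (Y i.castSucc) (Y j.castSucc) (Y k.castSucc) = true := by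
        unfold rel
        rw [he]
        simp [ht]
      rw [this]
      rfl
    · unfold five_tY
      rw [e1, e2, e3, f, f, f]
      exact he
  · rintro ⟨p, ⟨hp, hp10, hb⟩, rfl⟩
    obtain ⟨l1, l2, l3⟩ := tri_lt hp
    have l4 := five_tc hp hp10
    rw [← five_bt hp10, bt_gX _ _ _ hp] at hb
    unfold bX at hb
    have hfn (u v : ℕ) (hu : u < 6) (hv : v < 6) (huv : u ≠ v) : Y (fn u) ≠ Y (fn v) := by
      intro h
      have h1 := congrArg Fin.val (hY h)
      rw [fn_val u hu, fn_val v hv] at h1
      exact huv h1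
    have hr : rel F (Y (fn (ta p))) (Y (fn (tb p))) (Y (fn (tc p))) = true := by
      by_contra hcon
      rw [Bool.not_eq_true] at hcon
      rw [hcon] at hb
      simp at hb
    unfold rel at hr
    have hr' := of_decide_eq_true hr
    rcases hr' with h | h | h | h
    · exact absurd h (hfn _ _ (by omega) (by omega) (by omega))
    · exact absurd h (hfn _ _ (by omega) (by omega) (by omega))
    · exact absurd h (hfn _ _ (by omega) (by omega) (by omega))
    · refine ⟨h, ?_⟩
      have hm : ∀ u < 5, Y (fn u) ∈ univ.image fun i : Fin 5 => Y i.castSucc := by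
        intro u hu
        rw [mem_image]
        refine ⟨⟨u, hu⟩, mem_univ _, ?_⟩
        congr 1
        exact Fin.ext (by rw [fn_val u (by omega)]; rfl)
      intro v hv
      unfold five_tY at hv
      simp only [mem_insert, mem_singleton] at hv
      rcases hv with rfl | rfl | rfl
      · exact hm _ (by omega)
      · exact hm _ (by omega)
      · exact hm _ l4

theorem five_b1 : (range 20).filter (fun j => 10 ≤ j ∧ bt 528 (j - 10) = 1) = {19, 14} := by
  decide +kernel
theorem five_b2 : (range 20).filter (fun j => 10 ≤ j ∧ bt 896 (j - 10) = 1) = {19, 18, 17} := by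
  decide +kernel
theorem five_b3 : (range 20).filter (fun j => 10 ≤ j ∧ bt 832 (j - 10) = 1) = {19, 18, 16} := by
  decide +kernel
theorem five_b4 : (range 20).filter (fun j => 10 ≤ j ∧ bt 720 (j - 10) = 1) = {19, 16, 14, 17} := by
  decide +kernel

theorem five_image {n : ℕ} (Y : Fin 6 → Fin n) :
    (univ : Finset (Fin 5)).image (fun i => Y i.castSucc) = {Y 0, Y 1, Y 2, Y 3, Y 4} := by
  ext v
  simp only [mem_image, mem_univ, true_and, mem_insert, mem_singleton]
  constructor
  · rintro ⟨i, rfl⟩
    fin_cases i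
    · exact Or.inl rfl
    · exact Or.inr (Or.inl rfl)
    · exact Or.inr (Or.inr (Or.inl rfl))
    · exact Or.inr (Or.inr (Or.inr (Or.inl rfl)))
    · exact Or.inr (Or.inr (Or.inr (Or.inr rfl)))
  · rintro (rfl | rfl | rfl | rfl | rfl)
    · exact ⟨0, rfl⟩
    · exact ⟨1, rfl⟩
    · exact ⟨2, rfl⟩
    · exact ⟨3, rfl⟩
    · exact ⟨4, rfl⟩

/-- a sample with one of the four codes gives a bad set -/
theorem five_bad {n : ℕ} {F : Finset (Finset (Fin n))} (h3 : ∀ e ∈ F, e.card = 3)
    (Y : Fin 6 → Fin n) (hY : Function.Injective Y)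
    (h : five_ok (gX (rel F) Y / 1024) = true) :
    (univ.image fun i : Fin 5 => Y i.castSucc) ∈ badSets F := by
  classical
  have hf := five_filter F h3 Y hY
  have ht := ckTri
  simp only [Bool.and_eq_true] at ht
  have t19 : five_tY Y 19 = {Y 0, Y 1, Y 2} := five_tY_of (a := 0) (b := 1) (e := 2) (by tauto)
  have t18 : five_tY Y 18 = {Y 0, Y 1, Y 3} := five_tY_of (a := 0) (b := 1) (e := 3) (by tauto)
  have t17 : five_tY Y 17 = {Y 0, Y 1, Y 4} := five_tY_of (a := 0) (b := 1) (e := 4) (by tauto)
  have t16 : five_tY Y 16 = {Y 0, Y 2, Y 3} := five_tY_of (a := 0) (b := 2) (e := 3) (by tauto)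
  have t14 : five_tY Y 14 = {Y 0, Y 3, Y 4} := five_tY_of (a := 0) (b := 3) (e := 4) (by tauto)
  unfold badSets
  rw [mem_filter, mem_powersetCard]
  refine ⟨⟨subset_univ _, ?_⟩, Y 0, Y 1, Y 2, Y 3, Y 4, five_image Y, ?_⟩
  · have hi : Function.Injective fun i : Fin 5 => Y i.castSucc :=
      hY.comp (Fin.castSucc_injective 5)
    rw [card_image_of_injective _ hi]
    simp
  have hf' : F.filter (fun t => t ⊆ univ.image fun i : Fin 5 => Y i.castSucc) =
      ((range 20).filter fun j => 10 ≤ j ∧ bt (gX (rel F) Y / 1024) (j - 10) = 1).image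
        (five_tY Y) := hf
  unfold fourSystems
  simp only [mem_insert, mem_singleton]
  unfold five_ok at h
  rw [Bool.or_eq_true, Bool.or_eq_true, Bool.or_eq_true] at h
  rcases h with h | h | h | h
  · left
    rw [Nat.eq_of_beq_eq_true h, five_b1] at hf'
    rw [hf']
    simp only [image_insert, image_singleton, t19, t14]
  · right; left
    rw [Nat.eq_of_beq_eq_true h, five_b2] at hf'
    rw [hf']
    simp only [image_insert, image_singleton, t19, t18, t17]
  · right; right; left
    rw [Nat.eq_of_beq_eq_true h, five_b3] at hf'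
    rw [hf']
    simp only [image_insert, image_singleton, t19, t18, t16]
  · right; right; right
    rw [Nat.eq_of_beq_eq_true h, five_b4] at hf'
    rw [hf']
    simp only [image_insert, image_singleton, t19, t16, t14, t17]

theorem ok5 {n : ℕ} {F : Finset (Finset (Fin n))} (h : Cl F) (X : Fin 6 → Fin n)
    (hX : Function.Injective X) : bt BM (gX (rel F) X / 1024) = 0 := by
  by_contra hne
  have hlt := bt_lt BM (gX (rel F) X / 1024)
  have hg := gX_lt (rel F) X
  have hs : gX (rel F) X / 1024 < 1024 := by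
    rw [Nat.div_lt_iff_lt_mul (by norm_num)]
    omega
  have hc : Sys (rel F) := rel_sys F h.1.1 h.1.2
  have h1 := (allN_iff _ _).1 five_ckM (gX (rel F) X / 1024) hs
  rw [Bool.or_eq_true, Bool.or_eq_true] at h1
  rcases h1 with h1 | h1 | h1
  · exact hne (Nat.eq_of_beq_eq_true h1)
  · have h0 : gX (rel F) X / 1024 = 0 := Nat.eq_of_beq_eq_true h1
    obtain ⟨j, hj, h2, h3⟩ := gX_valid hc X 5 (by norm_num)
    have h4 := (allN_iff _ _).1 T53b.ckV5b j hj
    rw [h2] at h4
    have h5 : 10 ≤ j := Nat.le_of_ble_eq_true (by simpa using h4)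
    rw [five_bt h5, h0, bt_eq] at h3
    simp at h3
  · obtain ⟨⟨s, p⟩, ha, h2⟩ := five_any_spec h1
    have h3 : s = gX (rel F) X / 1024 := Nat.eq_of_beq_eq_true h2
    have h4 := five_all_spec five_ckL _ ha
    rw [Bool.and_eq_true, Bool.and_eq_true] at h4
    obtain ⟨h5, h6, h7⟩ := h4
    have h8 : ∀ i < 10, 10 ≤ sel p (10 + i) := fun i hi =>
      Nat.le_of_ble_eq_true ((allN_iff _ _).1 h6 i hi)
    have h9 : five_ok (gX (rel F) (X ∘ pfun p) / 1024) = true := by
      rw [gX_perm hc h5 X, five_act h8, ← h3]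
      exact h7
    have h10 := five_bad h.1.1 _ (hX.comp (pfun_bij h5).injective) h9
    rw [h.2] at h10
    exact absurd h10 (notMem_empty _)

end Pool.Agent.T53c
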