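import Mathlib

/-!
# MP_19b7b8_co FC: a bounded nondecreasing sequence has small increments

If `(n + 1) * (a (n + 1) - a n) > η` for all `n ≥ m := max n0 3`, then
`a N ≥ a m + η * ∑_{m ≤ k < N} 1 / (k + 1)` for all `N ≥ m`, which is unbounded (the harmonic series
diverges, e.g. `Real.tendsto_sum_range_one_div_nat_succ_atTop`), a contradiction to `a N ≤ 1`.
-/

set_option autoImplicit false

namespace Pool.Agent.T53c

open Finset

theorem exists_small_inc (a : ℕ → ℝ) (h0 : ∀ n, 0 ≤ a n) (h1 : ∀ n, a n ≤ 1) (η : ℝ)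
    (hη : 0 < η) (n0 : ℕ) : ∃ n : ℕ, n0 ≤ n ∧ 3 ≤ n ∧ ((n : ℝ) + 1) * (a (n + 1) - a n) ≤ η := by
  by_contra hcon
  push Not at hcon
  set m : ℕ := max n0 3 with hm
  have hstep : ∀ N : ℕ, m ≤ N →
      η * (∑ k ∈ range N, 1 / ((k : ℝ) + 1)) - η * (∑ k ∈ range m, 1 / ((k : ℝ) + 1)) ≤
        a N - a m := by
    intro N hN
    induction N, hN using Nat.le_induction with
    | base => simp
    | succ N hN ih =>
      have h3 : n0 ≤ N := (le_max_left _ _).trans hN
      have h4 : 3 ≤ N := (le_max_right _ _).trans hN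
      have h5 := hcon N h3 h4
      have h6 : (0 : ℝ) < (N : ℝ) + 1 := by positivity
      have h7 : η * (1 / ((N : ℝ) + 1)) ≤ a (N + 1) - a N := by
        rw [mul_one_div, div_le_iff₀ h6]
        linarith
      rw [sum_range_succ, mul_add]
      linarith
  obtain ⟨N, hN1, hN2⟩ := ((Real.tendsto_sum_range_one_div_nat_succ_atTop.eventually_ge_atTop
    ((∑ k ∈ range m, 1 / ((k : ℝ) + 1)) + 2 / η)).and
      (Filter.eventually_ge_atTop m)).exists
  have h3 := hstep N hN2
  have h4 := mul_le_mul_of_nonneg_left hN1 hη.le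
  rw [mul_add, mul_div_cancel₀ _ hη.ne'] at h4
  linarith [h0 m, h1 N]

end Pool.Agent.T53c
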