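import Pool.Agent.Lib.MP_19b7b8_co_FC.Defs
import Pool.Agent.Lib.MP_19b7b8_co_FB.Rel

/-!
# MP_19b7b8_co FC: the average of the multipliers over the root

`rel F x y z` is true iff two of the points are equal or `{x, y, z} ∈ F`; it is symmetric
(`rel F` does not change if the points are permuted).  Write `c = rel F` and
`f x0 x3 x4 x5 = μ (n4 (c x3 x4 x5) (c x0 x3 x4) (c x0 x3 x5) (c x0 x4 x5))`.  Exchanging the names
`x0 ↔ x3`, `x0 ↔ x4`, `x0 ↔ x5` does not change the sum (`Finset.sum_comm`); with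
`p = c x3 x4 x5`, `q = c x0 x3 x4`, `r = c x0 x3 x5`, `t = c x0 x4 x5` the four summands are
`μ (n4 p q r t)`, `μ (n4 t q r p)`, `μ (n4 r q p t)`, `μ (n4 q p r t)`.  So 4 times the sum is at
most `-(4 * s)` times the number of the quadruples for which exactly two of `p, q, r, t` are true.
Every set `S` of four points with exactly two triples of `F` gives 24 such quadruples (the
bijections from `Fin 4` to `S`), different sets give different quadruples.
-/

set_option autoImplicit false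

namespace Pool.Agent.T53c

open Finset Pool.Agent.T53b

theorem quad_rel12 {n : ℕ} (F : Finset (Finset (Fin n))) (x y z : Fin n) :
    rel F x y z = rel F y x z := by
  unfold rel
  have e : ({x, y, z} : Finset (Fin n)) = {y, x, z} := by
    ext v
    simp only [mem_insert, mem_singleton]
    tauto
  rw [e]
  congr 1
  apply propext
  constructor <;> rintro (h | h | h | h)
  · exact Or.inl h.symm
  · exact Or.inr (Or.inr (Or.inl h))
  · exact Or.inr (Or.inl h)
  · exact Or.inr (Or.inr (Or.inr h))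
  · exact Or.inl h.symm
  · exact Or.inr (Or.inr (Or.inl h))
  · exact Or.inr (Or.inl h)
  · exact Or.inr (Or.inr (Or.inr h))

theorem quad_rel23 {n : ℕ} (F : Finset (Finset (Fin n))) (x y z : Fin n) :
    rel F x y z = rel F x z y := by
  unfold rel
  have e : ({x, y, z} : Finset (Fin n)) = {x, z, y} := by
    ext v
    simp only [mem_insert, mem_singleton]
    tauto
  rw [e]
  congr 1
  apply propext
  constructor <;> rintro (h | h | h | h)
  · exact Or.inr (Or.inr (Or.inl h))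
  · exact Or.inr (Or.inl h.symm)
  · exact Or.inl h
  · exact Or.inr (Or.inr (Or.inr h))
  · exact Or.inr (Or.inr (Or.inl h))
  · exact Or.inr (Or.inl h.symm)
  · exact Or.inl h
  · exact Or.inr (Or.inr (Or.inr h))

/-- the number of triples of `F` in a set of four points -/
theorem quad_card {n : ℕ} (F : Finset (Finset (Fin n))) (h3 : ∀ e ∈ F, e.card = 3)
    {a b c d : Fin n} (hab : a ≠ b) (hac : a ≠ c) (had : a ≠ d) (hbc : b ≠ c) (hbd : b ≠ d)
    (hcd : c ≠ d) : (F.filter (· ⊆ ({a, b, c, d} : Finset (Fin n)))).card =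
      (rel F b c d).toNat + (rel F a b c).toNat + (rel F a b d).toNat + (rel F a c d).toNat := by
  set S : Finset (Fin n) := {a, b, c, d} with hS
  have hS4 : S.card = 4 := by
    rw [hS, card_insert_of_notMem, card_insert_of_notMem, card_pair hcd]
    · simp only [mem_insert, mem_singleton, not_or]
      exact ⟨hbc, hbd⟩
    · simp only [mem_insert, mem_singleton, not_or]
      exact ⟨hab, hac, had⟩
  have himg : F.filter (· ⊆ S) = (S.filter fun x => S.erase x ∈ F).image fun x => S.erase x := by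
    ext e
    simp only [mem_filter, mem_image]
    constructor
    · rintro ⟨he, hes⟩
      have h1 : (S \ e).card = 1 := by
        rw [card_sdiff_of_subset hes, hS4, h3 e he]
      obtain ⟨x, hx⟩ := card_eq_one.1 h1
      have hxS : x ∈ S \ e := by rw [hx]; exact mem_singleton_self x
      have hee : S.erase x = e := by
        rw [← sdiff_singleton_eq_erase, ← hx, Finset.sdiff_sdiff_eq_self hes]
      refine ⟨x, ⟨(mem_sdiff.1 hxS).1, ?_⟩, hee⟩
      rw [hee]
      exact he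
    · rintro ⟨x, ⟨-, hx⟩, rfl⟩
      exact ⟨hx, erase_subset _ _⟩
  have hinj : Set.InjOn (fun x => S.erase x)
      (S.filter fun x => S.erase x ∈ F : Finset (Fin n)) := by
    refine (erase_injOn S).mono ?_
    exact coe_subset.2 (filter_subset _ _)
  rw [himg, card_image_of_injOn hinj, card_filter, hS, sum_insert, sum_insert, sum_insert,
    sum_singleton]
  · have ea : ({a, b, c, d} : Finset (Fin n)).erase a = {b, c, d} := by
      ext v
      simp only [mem_erase, mem_insert, mem_singleton]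
      constructor
      · rintro ⟨h1, h2 | h2⟩
        · exact absurd h2 h1
        · exact h2
      · rintro (rfl | rfl | rfl)
        · exact ⟨hab.symm, Or.inr (Or.inl rfl)⟩
        · exact ⟨hac.symm, Or.inr (Or.inr (Or.inl rfl))⟩
        · exact ⟨had.symm, Or.inr (Or.inr (Or.inr rfl))⟩
    have eb : ({a, b, c, d} : Finset (Fin n)).erase b = {a, c, d} := by
      ext v
      simp only [mem_erase, mem_insert, mem_singleton]
      constructor
      · rintro ⟨h1, h2 | h2 | h2 | h2⟩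
        · exact Or.inl h2
        · exact absurd h2 h1
        · exact Or.inr (Or.inl h2)
        · exact Or.inr (Or.inr h2)
      · rintro (rfl | rfl | rfl)
        · exact ⟨hab, Or.inl rfl⟩
        · exact ⟨hbc.symm, Or.inr (Or.inr (Or.inl rfl))⟩
        · exact ⟨hbd.symm, Or.inr (Or.inr (Or.inr rfl))⟩
    have ec : ({a, b, c, d} : Finset (Fin n)).erase c = {a, b, d} := by
      ext v
      simp only [mem_erase, mem_insert, mem_singleton]
      constructor
      · rintro ⟨h1, h2 | h2 | h2 | h2⟩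
        · exact Or.inl h2
        · exact Or.inr (Or.inl h2)
        · exact absurd h2 h1
        · exact Or.inr (Or.inr h2)
      · rintro (rfl | rfl | rfl)
        · exact ⟨hac, Or.inl rfl⟩
        · exact ⟨hbc, Or.inr (Or.inl rfl)⟩
        · exact ⟨hcd.symm, Or.inr (Or.inr (Or.inr rfl))⟩
    have ed : ({a, b, c, d} : Finset (Fin n)).erase d = {a, b, c} := by
      ext v
      simp only [mem_erase, mem_insert, mem_singleton]
      constructor
      · rintro ⟨h1, h2 | h2 | h2 | h2⟩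
        · exact Or.inl h2
        · exact Or.inr (Or.inl h2)
        · exact Or.inr (Or.inr h2)
        · exact absurd h2 h1
      · rintro (rfl | rfl | rfl)
        · exact ⟨had, Or.inl rfl⟩
        · exact ⟨hbd, Or.inr (Or.inl rfl)⟩
        · exact ⟨hcd, Or.inr (Or.inr (Or.inl rfl))⟩
    have hr : ∀ x y z : Fin n, x ≠ y → y ≠ z → x ≠ z →
        (rel F x y z).toNat = if ({x, y, z} : Finset (Fin n)) ∈ F then 1 else 0 := by
      intro x y z h1 h2 h4
      unfold rel
      by_cases h : ({x, y, z} : Finset (Fin n)) ∈ F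
      · simp [h]
      · simp [h, h1, h2, h4]
    rw [ea, eb, ec, ed, hr b c d hbc hcd hbd, hr a b c hab hbc hac, hr a b d hab hbd had,
      hr a c d hac hcd had]
    ring
  · simpa using hcd
  · simp only [mem_insert, mem_singleton, not_or]
    exact ⟨hbc, hbd⟩
  · simp only [mem_insert, mem_singleton, not_or]
    exact ⟨hab, hac, had⟩

/-- the number of quadruples with exactly two triples -/
theorem quad_count {n : ℕ} (F : Finset (Finset (Fin n))) (h3 : ∀ e ∈ F, e.card = 3) :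
    24 * M2 F ≤ (univ.filter fun v : Fin n × Fin n × Fin n × Fin n =>
      (rel F v.2.1 v.2.2.1 v.2.2.2).toNat + (rel F v.1 v.2.1 v.2.2.1).toNat +
      (rel F v.1 v.2.1 v.2.2.2).toNat + (rel F v.1 v.2.2.1 v.2.2.2).toNat = 2).card := by
  classical
  set A := univ.filter fun v : Fin n × Fin n × Fin n × Fin n =>
      (rel F v.2.1 v.2.2.1 v.2.2.2).toNat + (rel F v.1 v.2.1 v.2.2.1).toNat +
      (rel F v.1 v.2.1 v.2.2.2).toNat + (rel F v.1 v.2.2.1 v.2.2.2).toNat = 2 with hA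
  set G := univ.filter fun S : Finset (Fin n) => S.card = 4 ∧ (F.filter (· ⊆ S)).card = 2 with hG
  have hfib : ∀ S ∈ G, 24 ≤ (A.filter fun v => ({v.1, v.2.1, v.2.2.1, v.2.2.2} : Finset (Fin n))
      = S).card := by
    intro S hS
    obtain ⟨hS4, hS2⟩ := (mem_filter.1 hS).2
    set φ := S.orderEmbOfFin hS4 with hφ
    have hφi : Function.Injective φ := φ.injective
    have hrange : Set.range φ = (S : Set (Fin n)) := S.range_orderEmbOfFin hS4
    have h24 : (univ : Finset (Equiv.Perm (Fin 4))).card = 24 := by decide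
    rw [← h24]
    refine card_le_card_of_injOn (fun σ => (φ (σ 0), φ (σ 1), φ (σ 2), φ (σ 3))) ?_ ?_
    · intro σ _
      have hne : ∀ i j : Fin 4, i ≠ j → φ (σ i) ≠ φ (σ j) := fun i j hij h =>
        hij (σ.injective (hφi h))
      have hSe : ({φ (σ 0), φ (σ 1), φ (σ 2), φ (σ 3)} : Finset (Fin n)) = S := by
        apply coe_injective
        rw [← hrange]
        ext v
        simp only [coe_insert, coe_singleton, Set.mem_insert_iff, Set.mem_singleton_iff,
          Set.mem_range]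
        constructor
        · rintro (rfl | rfl | rfl | rfl) <;> exact ⟨_, rfl⟩
        · rintro ⟨j, rfl⟩
          obtain ⟨i, rfl⟩ := σ.surjective j
          fin_cases i
          · exact Or.inl rfl
          · exact Or.inr (Or.inl rfl)
          · exact Or.inr (Or.inr (Or.inl rfl))
          · exact Or.inr (Or.inr (Or.inr rfl))
      have hcard := quad_card F h3 (hne 0 1 (by decide)) (hne 0 2 (by decide))
        (hne 0 3 (by decide)) (hne 1 2 (by decide)) (hne 1 3 (by decide)) (hne 2 3 (by decide))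
      rw [hSe, hS2] at hcard
      exact mem_coe.2 (mem_filter.2 ⟨mem_filter.2 ⟨mem_univ _, hcard.symm⟩, hSe⟩)
    · intro σ _ τ _ hst
      have h := Prod.mk.inj hst
      have h' := Prod.mk.inj h.2
      have h'' := Prod.mk.inj h'.2
      apply Equiv.ext
      intro i
      fin_cases i
      · exact hφi h.1
      · exact hφi h'.1
      · exact hφi h''.1
      · exact hφi h''.2
  have hsub : (G.biUnion fun S => A.filter fun v =>
      ({v.1, v.2.1, v.2.2.1, v.2.2.2} : Finset (Fin n)) = S) ⊆ A := by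
    intro v hv
    obtain ⟨S, -, hv⟩ := mem_biUnion.1 hv
    exact (mem_filter.1 hv).1
  have hdis : (G : Set (Finset (Fin n))).PairwiseDisjoint fun S => A.filter fun v =>
      ({v.1, v.2.1, v.2.2.1, v.2.2.2} : Finset (Fin n)) = S := by
    intro S _ S' _ hne
    refine disjoint_left.2 fun v h1 h2 => hne ?_
    rw [← (mem_filter.1 h1).2, ← (mem_filter.1 h2).2]
  calc 24 * M2 F = ∑ S ∈ G, 24 := by
        rw [sum_const, smul_eq_mul, mul_comm]
        rfl
    _ ≤ ∑ S ∈ G, (A.filter fun v => ({v.1, v.2.1, v.2.2.1, v.2.2.2} : Finset (Fin n)) = S).card :=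
        sum_le_sum hfib
    _ = (G.biUnion fun S => A.filter fun v =>
          ({v.1, v.2.1, v.2.2.1, v.2.2.2} : Finset (Fin n)) = S).card := (card_biUnion hdis).symm
    _ ≤ A.card := card_le_card hsub

theorem quad (n : ℕ) (F : Finset (Finset (Fin n))) (h3 : ∀ e ∈ F, e.card = 3) (μ : ℕ → ℝ)
    (s : ℝ) (hs : 0 ≤ s)
    (hμ : ∀ p q r t : Bool, μ (n4 p q r t) + μ (n4 t q r p) + μ (n4 r q p t) + μ (n4 q p r t) ≤
      if p.toNat + q.toNat + r.toNat + t.toNat = 2 then -(4 * s) else 0) :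
    ∑ x0, ∑ x3, ∑ x4, ∑ x5, μ (n4 (rel F x3 x4 x5) (rel F x0 x3 x4) (rel F x0 x3 x5)
      (rel F x0 x4 x5)) ≤ -(24 * s * (M2 F : ℝ)) := by
  obtain ⟨g, hg⟩ : ∃ g : Fin n → Fin n → Fin n → Fin n → ℝ, g = fun x0 x3 x4 x5 =>
    μ (n4 (rel F x3 x4 x5) (rel F x0 x3 x4) (rel F x0 x3 x5) (rel F x0 x4 x5)) := ⟨_, rfl⟩
  have e0 : ∑ x0, ∑ x3, ∑ x4, ∑ x5, μ (n4 (rel F x3 x4 x5) (rel F x0 x3 x4) (rel F x0 x3 x5)
      (rel F x0 x4 x5)) = ∑ x0, ∑ x3, ∑ x4, ∑ x5, g x0 x3 x4 x5 := by rw [hg]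
  rw [e0]
  have e1 : ∑ x0, ∑ x3, ∑ x4, ∑ x5, g x0 x3 x4 x5 = ∑ x0, ∑ x3, ∑ x4, ∑ x5, g x3 x0 x4 x5 :=
    sum_comm
  have e2 : ∑ x0, ∑ x3, ∑ x4, ∑ x5, g x0 x3 x4 x5 = ∑ x0, ∑ x3, ∑ x4, ∑ x5, g x4 x3 x0 x5 := by
    calc ∑ x0, ∑ x3, ∑ x4, ∑ x5, g x0 x3 x4 x5
        = ∑ x3, ∑ x0, ∑ x4, ∑ x5, g x0 x3 x4 x5 := sum_comm
      _ = ∑ x3, ∑ x0, ∑ x4, ∑ x5, g x4 x3 x0 x5 := sum_congr rfl fun x3 _ => sum_comm
      _ = ∑ x0, ∑ x3, ∑ x4, ∑ x5, g x4 x3 x0 x5 := sum_comm
  have e3 : ∑ x0, ∑ x3, ∑ x4, ∑ x5, g x0 x3 x4 x5 = ∑ x0, ∑ x3, ∑ x4, ∑ x5, g x5 x3 x4 x0 := by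
    have f1 : ∀ h : Fin n → Fin n → Fin n → Fin n → ℝ,
        ∑ x0, ∑ x3, ∑ x4, ∑ x5, h x0 x3 x4 x5 = ∑ x3, ∑ x4, ∑ x0, ∑ x5, h x0 x3 x4 x5 := by
      intro h
      calc ∑ x0, ∑ x3, ∑ x4, ∑ x5, h x0 x3 x4 x5
          = ∑ x3, ∑ x0, ∑ x4, ∑ x5, h x0 x3 x4 x5 := sum_comm
        _ = ∑ x3, ∑ x4, ∑ x0, ∑ x5, h x0 x3 x4 x5 := sum_congr rfl fun x3 _ => sum_comm
    rw [f1 g, f1 fun x0 x3 x4 x5 => g x5 x3 x4 x0]
    exact sum_congr rfl fun x3 _ => sum_congr rfl fun x4 _ => sum_comm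
  have hle : ∀ x0 x3 x4 x5, g x0 x3 x4 x5 + g x3 x0 x4 x5 + g x4 x3 x0 x5 + g x5 x3 x4 x0 ≤
      if (rel F x3 x4 x5).toNat + (rel F x0 x3 x4).toNat + (rel F x0 x3 x5).toNat +
        (rel F x0 x4 x5).toNat = 2 then -(4 * s) else 0 := by
    intro x0 x3 x4 x5
    have h := hμ (rel F x3 x4 x5) (rel F x0 x3 x4) (rel F x0 x3 x5) (rel F x0 x4 x5)
    have r1 : rel F x3 x0 x4 = rel F x0 x3 x4 := quad_rel12 F _ _ _
    have r2 : rel F x3 x0 x5 = rel F x0 x3 x5 := quad_rel12 F _ _ _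
    have r3 : rel F x4 x3 x0 = rel F x0 x3 x4 := by
      rw [quad_rel23, quad_rel12, quad_rel23]
    have r4 : rel F x4 x3 x5 = rel F x3 x4 x5 := quad_rel12 F _ _ _
    have r5 : rel F x4 x0 x5 = rel F x0 x4 x5 := quad_rel12 F _ _ _
    have r6 : rel F x3 x4 x0 = rel F x0 x3 x4 := by
      rw [quad_rel23, quad_rel12]
    have r7 : rel F x5 x3 x4 = rel F x3 x4 x5 := by
      rw [quad_rel12, quad_rel23]
    have r8 : rel F x5 x3 x0 = rel F x0 x3 x5 := by
      rw [quad_rel23, quad_rel12, quad_rel23]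
    have r9 : rel F x5 x4 x0 = rel F x0 x4 x5 := by
      rw [quad_rel23, quad_rel12, quad_rel23]
    rw [hg]
    show μ (n4 (rel F x3 x4 x5) (rel F x0 x3 x4) (rel F x0 x3 x5) (rel F x0 x4 x5)) +
      μ (n4 (rel F x0 x4 x5) (rel F x3 x0 x4) (rel F x3 x0 x5) (rel F x3 x4 x5)) +
      μ (n4 (rel F x3 x0 x5) (rel F x4 x3 x0) (rel F x4 x3 x5) (rel F x4 x0 x5)) +
      μ (n4 (rel F x3 x4 x0) (rel F x5 x3 x4) (rel F x5 x3 x0) (rel F x5 x4 x0)) ≤ _
    rw [r1, r2, r3, r4, r5, r6, r7, r8, r9]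
    exact h
  have hsum : 4 * ∑ x0, ∑ x3, ∑ x4, ∑ x5, g x0 x3 x4 x5 ≤ ∑ x0, ∑ x3, ∑ x4, ∑ x5,
      if (rel F x3 x4 x5).toNat + (rel F x0 x3 x4).toNat + (rel F x0 x3 x5).toNat +
        (rel F x0 x4 x5).toNat = 2 then -(4 * s) else 0 := by
    have h4 : 4 * ∑ x0, ∑ x3, ∑ x4, ∑ x5, g x0 x3 x4 x5 = ∑ x0, ∑ x3, ∑ x4, ∑ x5,
        (g x0 x3 x4 x5 + g x3 x0 x4 x5 + g x4 x3 x0 x5 + g x5 x3 x4 x0) := by
      simp only [sum_add_distrib]
      rw [← e1, ← e2, ← e3]
      ring
    rw [h4]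
    exact sum_le_sum fun x0 _ => sum_le_sum fun x3 _ => sum_le_sum fun x4 _ =>
      sum_le_sum fun x5 _ => hle x0 x3 x4 x5
  have hcnt : (∑ x0, ∑ x3, ∑ x4, ∑ x5,
      if (rel F x3 x4 x5).toNat + (rel F x0 x3 x4).toNat + (rel F x0 x3 x5).toNat +
        (rel F x0 x4 x5).toNat = 2 then -(4 * s) else 0) =
      ((univ.filter fun v : Fin n × Fin n × Fin n × Fin n =>
      (rel F v.2.1 v.2.2.1 v.2.2.2).toNat + (rel F v.1 v.2.1 v.2.2.1).toNat +
      (rel F v.1 v.2.1 v.2.2.2).toNat + (rel F v.1 v.2.2.1 v.2.2.2).toNat = 2).card : ℝ) *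
        (-(4 * s)) := by
    rw [← nsmul_eq_mul, ← sum_const, sum_filter]
    simp only [← univ_product_univ, sum_product]
  rw [hcnt] at hsum
  have h24 : (24 * M2 F : ℝ) ≤ ((univ.filter fun v : Fin n × Fin n × Fin n × Fin n =>
      (rel F v.2.1 v.2.2.1 v.2.2.2).toNat + (rel F v.1 v.2.1 v.2.2.1).toNat +
      (rel F v.1 v.2.1 v.2.2.2).toNat + (rel F v.1 v.2.2.1 v.2.2.2).toNat = 2).card : ℝ) := by
    exact_mod_cast quad_count F h3
  have h5 := mul_le_mul_of_nonneg_right h24 hs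
  linarith

end Pool.Agent.T53c
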