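import Pool.Agent.Lib.MP_19b7b8_co_FB.Exp

/-!
# MP_19b7b8_co FC: samples with a repeated point are rare

`Ev w h = ∑ X : Fin 6 → V, (∏ i, w (X i)) * h X`.  For the uniform weights every `X` has weight
`(1 / n) ^ 6`; the number of the maps `Fin 6 → Fin n` that are not injective is at most
`15 * n ^ 5` (union over the 15 pairs `i < j` of `{X | X i = X j}`, each of size `n ^ 5`; or
`n ^ 6 - n.descFactorial 6 ≤ 15 * n ^ 5`).
-/

set_option autoImplicit false

namespace Pool.Agent.T53c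

open Finset Pool.Agent.T53 Pool.Agent.T53b

open Classical in
private theorem Unif_card (n : ℕ) :
    (∑ X : Fin 6 → Fin n, if Function.Injective X then (1 : ℝ) else 0)
      = (n.descFactorial 6 : ℕ) := by
  rw [Finset.sum_boole]
  congr 1
  have h1 : Fintype.card (Fin 6 ↪ Fin n) = n.descFactorial 6 := by
    rw [Fintype.card_embedding_eq, Fintype.card_fin, Fintype.card_fin]
  rw [← h1, ← Fintype.card_congr (Equiv.subtypeInjectiveEquivEmbedding (Fin 6) (Fin n)),
    Fintype.card_subtype]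

private theorem Unif_desc (n : ℕ) (hn : 0 < n) :
    (n : ℝ) ^ 6 - (n.descFactorial 6 : ℕ) ≤ 15 * (n : ℝ) ^ 5 := by
  have hn1 : (1 : ℝ) ≤ n := by exact_mod_cast hn
  rcases Nat.lt_or_ge n 6 with h | h
  · have h0 : (0 : ℝ) ≤ ((n.descFactorial 6 : ℕ) : ℝ) := Nat.cast_nonneg _
    have h6 : (n : ℝ) ≤ 15 := by
      have : n ≤ 15 := by omega
      exact_mod_cast this
    have h5 : (0 : ℝ) ≤ (n : ℝ) ^ 5 := by positivity
    nlinarith [mul_le_mul_of_nonneg_right h6 h5]
  · obtain ⟨m, rfl⟩ := Nat.exists_eq_add_of_le h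
    have hd : (6 + m).descFactorial 6
        = (m + 1) * (m + 2) * (m + 3) * (m + 4) * (m + 5) * (m + 6) := by
      have e1 : 6 + m - 5 = m + 1 := by omega
      have e2 : 6 + m - 4 = m + 2 := by omega
      have e3 : 6 + m - 3 = m + 3 := by omega
      have e4 : 6 + m - 2 = m + 4 := by omega
      have e5 : 6 + m - 1 = m + 5 := by omega
      simp only [Nat.descFactorial_succ, Nat.descFactorial_zero, Nat.sub_zero, mul_one,
        e1, e2, e3, e4, e5]
      ring
    rw [hd]
    push_cast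
    have hm : (0 : ℝ) ≤ (m : ℝ) := Nat.cast_nonneg _
    have key : (0 : ℝ) ≤ 15 * (6 + (m : ℝ)) ^ 5 - ((6 + (m : ℝ)) ^ 6
        - ((m : ℝ) + 1) * (m + 2) * (m + 3) * (m + 4) * (m + 5) * (m + 6)) := by
      have e : 15 * (6 + (m : ℝ)) ^ 5 - ((6 + (m : ℝ)) ^ 6
        - ((m : ℝ) + 1) * (m + 2) * (m + 3) * (m + 4) * (m + 5) * (m + 6))
        = 85 * m ^ 4 + 1815 * m ^ 3 + 14584 * m ^ 2 + 52308 * m + 70704 := by
        ring
      rw [e]; positivity
    linarith

open Classical in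
theorem Ev_noninj (n : ℕ) (hn : 0 < n) : Ev (fun _ : Fin n => (1 : ℝ) / n)
    (fun X : Fin 6 → Fin n => if Function.Injective X then (0 : ℝ) else 1) ≤ 15 / n := by
  have hn0 : (0 : ℝ) < n := by exact_mod_cast hn
  have hE : Ev (fun _ : Fin n => (1 : ℝ) / n)
      (fun X : Fin 6 → Fin n => if Function.Injective X then (0 : ℝ) else 1)
      = (1 / (n : ℝ)) ^ 6 * ((n : ℝ) ^ 6 - (n.descFactorial 6 : ℕ)) := by
    unfold Ev
    have h1 : ∀ X : Fin 6 → Fin n, (∏ _i : Fin 6, (1 : ℝ) / n) *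
        (if Function.Injective X then (0 : ℝ) else 1)
        = (1 / (n : ℝ)) ^ 6 * (1 - (if Function.Injective X then (1 : ℝ) else 0)) := by
      intro X
      rw [Finset.prod_const, Finset.card_univ, Fintype.card_fin]
      split_ifs <;> ring
    rw [Finset.sum_congr rfl fun X _ => h1 X, ← Finset.mul_sum, Finset.sum_sub_distrib,
      Unif_card]
    simp
  rw [hE]
  have hd := Unif_desc n hn
  calc (1 / (n : ℝ)) ^ 6 * ((n : ℝ) ^ 6 - (n.descFactorial 6 : ℕ))
      ≤ (1 / (n : ℝ)) ^ 6 * (15 * (n : ℝ) ^ 5) :=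
        mul_le_mul_of_nonneg_left hd (by positivity)
    _ = 15 / n := by field_simp

end Pool.Agent.T53c
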