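import Pool.Agent.Lib.MP_19b7b8_co_FC.Blocks
import Pool.Agent.Lib.MP_19b7b8_co_FC.Deg
import Pool.Agent.Lib.MP_19b7b8_co_FC.Five
import Pool.Agent.Lib.MP_19b7b8_co_FC.Unif
import Pool.Agent.Lib.MP_19b7b8_co_FC.Quad

/-!
# MP_19b7b8_co FC: the inequality from the certificate
-/

set_option autoImplicit false

namespace Pool.Agent.T53c

open Finset Pool.Agent.T53 Pool.Agent.T53b

theorem sum_abs_dev {ι : Type*} (s : Finset ι) (d : ι → ℝ) (b : ℝ) (hb : 0 ≤ b)
    (hd : ∀ x ∈ s, d x ≤ b) (h0 : ∑ x ∈ s, d x = 0) : ∑ x ∈ s, |d x| ≤ 2 * (s.card * b) := by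
  have h1 : ∀ x ∈ s, |d x| ≤ 2 * b - d x := by
    intro x hx
    have := hd x hx
    rcases abs_cases (d x) with h | h <;> rw [h.1] <;> linarith
  have h2 := sum_le_sum h1
  rw [sum_sub_distrib, h0, sum_const, nsmul_eq_mul] at h2
  linarith

open Classical in
theorem key_ev {n : ℕ} (hn : 0 < n) {F : Finset (Finset (Fin n))} (h : Cl F) :
    ∑ x0, (1 : ℝ) / n * ((4 * degb (fun _ : Fin n => (1 : ℝ) / n) (rel F) x0 - 1) *
      m3 (fun _ : Fin n => (1 : ℝ) / n) (rel F) x0) ≤ 128849018880 / n := by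
  have hn' : (0 : ℝ) < n := by exact_mod_cast hn
  set w : Fin n → ℝ := fun _ => (1 : ℝ) / n with hw_def
  have hw : ∀ x, 0 ≤ w x := fun x => by rw [hw_def]; positivity
  have hs : ∑ x, w x = 1 := by
    rw [hw_def]; simp only [sum_const, card_univ, Fintype.card_fin, nsmul_eq_mul]
    field_simp
  have hc := rel_sys F h.1.1 h.1.2
  have h0 := Ev_mono w hw (fun X => ((blk h4c p4 15 (gX (rel F) X) : ℝ) +
      (blk h2c p2 45 (gX (rel F) X) : ℝ)) + (blk h1c p1 60 (gX (rel F) X) : ℝ))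
    (fun X => (11072962560 : ℝ) + 515396075520 *
      (if Function.Injective X then (0 : ℝ) else 1)) (fun X => by
      by_cases hX : Function.Injective X
      · have h1 := pointwise_c hc (fun Y hY => ok5 h Y hY) (gX (rel F) X) X hX rfl
        unfold FFc at h1
        rw [if_pos hX, mul_zero, add_zero]
        exact_mod_cast h1
      · have h1 := FFc_le (gX (rel F) X)
        unfold FFc at h1
        rw [if_neg hX, mul_one]
        have h2 : ((blk h4c p4 15 (gX (rel F) X) : ℝ) + (blk h2c p2 45 (gX (rel F) X) : ℝ)) +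
          (blk h1c p1 60 (gX (rel F) X) : ℝ) ≤ 515396075520 := by exact_mod_cast h1
        linarith)
  rw [Ev_add, Ev_add, Ev_add, Ev_one w hs, Ev_smul, Ev_blk w hc _ _ _ okP4,
    Ev_blk w hc _ _ _ okP2, Ev_blk w hc _ _ _ okP1, Ev_h1c w hs] at h0
  have h4' := Ev_h4c w hw hs (rel F)
  have h2' := Ev_h2c w hw hs (rel F)
  have hni := Ev_noninj n hn
  rw [← hw_def] at hni
  have h5 : 128849018880 / (n : ℝ) = 515396075520 * (15 / n) / 60 := by ring
  rw [h5]
  push_cast at h0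
  linarith

theorem key {n : ℕ} (hn : 0 < n) {F : Finset (Finset (Fin n))} (h : Cl F) (B : ℝ)
    (hB : ∀ x, 2 * (dgr F x : ℝ) ≤ 6 * (F.card : ℝ) / n + B)
    (hD : 4 * (6 * (F.card : ℝ) + 3 * (n : ℝ) ^ 2) ≤ (n : ℝ) ^ 3) :
    (1 - 4 * (6 * (F.card : ℝ) + 3 * (n : ℝ) ^ 2) / (n : ℝ) ^ 3) * (M2 F : ℝ) ≤
      700 * (n : ℝ) ^ 3 + 2 * B * (n : ℝ) ^ 2 := by
  have hn' : (0 : ℝ) < n := by exact_mod_cast hn
  have h1 := key_ev hn h
  set w : Fin n → ℝ := fun _ => (1 : ℝ) / n with hw_def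
  have hw : ∀ x, 0 ≤ w x := fun x => by rw [hw_def]; positivity
  have hs : ∑ x, w x = 1 := by
    rw [hw_def]; simp only [sum_const, card_univ, Fintype.card_fin, nsmul_eq_mul]
    field_simp
  -- degrees
  have hdeg : ∀ x, degb w (rel F) x = (2 * (dgr F x : ℝ) + 3 * n - 2) / (n : ℝ) ^ 2 := by
    intro x
    unfold degb
    rw [← sum_rel F h.1.1 x, hw_def]
    simp only [← mul_sum]
    field_simp
  set D : ℝ := (6 * (F.card : ℝ) / n + 3 * n - 2) / (n : ℝ) ^ 2 with hDdef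
  set b : ℝ := B / (n : ℝ) ^ 2 with hbdef
  have hsum : ∑ x, (degb w (rel F) x - D) = 0 := by
    rw [sum_sub_distrib, sum_congr rfl fun x _ => hdeg x, ← sum_div, sum_sub_distrib,
      sum_add_distrib, ← mul_sum, sum_dgr F h.1.1]
    simp only [sum_const, card_univ, Fintype.card_fin, nsmul_eq_mul]
    rw [hDdef]
    field_simp
    ring
  have hle : ∀ x ∈ (univ : Finset (Fin n)), degb w (rel F) x - D ≤ b := by
    intro x _
    rw [hdeg x, hDdef, hbdef, ← sub_div]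
    refine div_le_div_of_nonneg_right ?_ (by positivity)
    have := hB x
    linarith
  have hb0 : 0 ≤ b := by
    have h2 := sum_le_sum hle
    rw [hsum, sum_const, card_univ, Fintype.card_fin, nsmul_eq_mul] at h2
    exact nonneg_of_mul_nonneg_right h2 hn'
  have habs := sum_abs_dev univ (fun x => degb w (rel F) x - D) b hb0 hle hsum
  rw [card_univ, Fintype.card_fin] at habs
  -- the average of the multipliers
  have hq := quad n F h.1.1 (fun k => (mmc k : ℝ)) 8000064 (by norm_num) root_le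
  have hm : ∑ x, m3 w (rel F) x ≤ -(24 * 8000064 * (M2 F : ℝ)) / (n : ℝ) ^ 3 := by
    have e : ∑ x, m3 w (rel F) x = (∑ x0, ∑ x3, ∑ x4, ∑ x5, (mmc (n4 (rel F x3 x4 x5)
        (rel F x0 x3 x4) (rel F x0 x3 x5) (rel F x0 x4 x5)) : ℝ)) / (n : ℝ) ^ 3 := by
      unfold m3
      rw [hw_def]
      simp only [← mul_sum]
      field_simp
    rw [e]
    exact div_le_div_of_nonneg_right hq (by positivity)
  have h4D : 4 * D ≤ 1 := by
    rw [hDdef, ← mul_div_assoc, div_le_one (by positivity)]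
    have h2 : 4 * (6 * (F.card : ℝ) / n + 3 * n - 2) = (4 * (6 * (F.card : ℝ) + 3 * (n : ℝ) ^ 2)
      - 8 * n) / n := by field_simp; ring
    rw [h2, div_le_iff₀ hn']
    nlinarith
  -- decomposition
  have hdec : ∑ x0, (1 : ℝ) / n * ((4 * degb w (rel F) x0 - 1) * m3 w (rel F) x0) =
      1 / n * (4 * ∑ x0, (degb w (rel F) x0 - D) * m3 w (rel F) x0) +
      1 / n * ((4 * D - 1) * ∑ x0, m3 w (rel F) x0) := by
    rw [mul_sum, mul_sum, mul_sum, mul_sum, ← sum_add_distrib]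
    exact sum_congr rfl fun x _ => by ring
  rw [hdec] at h1
  have hA : -(16777216 * (2 * (n * b))) ≤ ∑ x0, (degb w (rel F) x0 - D) * m3 w (rel F) x0 := by
    have h2 : |∑ x0, (degb w (rel F) x0 - D) * m3 w (rel F) x0| ≤ 16777216 * (2 * (n * b)) := by
      refine (abs_sum_le_sum_abs _ _).trans ?_
      have h3 : ∀ x ∈ (univ : Finset (Fin n)), |(degb w (rel F) x - D) * m3 w (rel F) x| ≤
          16777216 * |degb w (rel F) x - D| := by
        intro x _
        rw [abs_mul, mul_comm]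
        exact mul_le_mul_of_nonneg_right (m3_abs w hw hs (rel F) x) (abs_nonneg _)
      refine (sum_le_sum h3).trans ?_
      rw [← mul_sum]
      exact mul_le_mul_of_nonneg_left habs (by norm_num)
    exact (abs_le.1 h2).1
  have hC : (1 - 4 * D) * (24 * 8000064 * (M2 F : ℝ)) / (n : ℝ) ^ 3 ≤
      (4 * D - 1) * ∑ x0, m3 w (rel F) x0 := by
    have h2 : (1 - 4 * D) * ∑ x0, m3 w (rel F) x0 ≤
        (1 - 4 * D) * (-(24 * 8000064 * (M2 F : ℝ)) / (n : ℝ) ^ 3) :=
      mul_le_mul_of_nonneg_left hm (by linarith)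
    have h3 : (1 - 4 * D) * (-(24 * 8000064 * (M2 F : ℝ)) / (n : ℝ) ^ 3) =
      -((1 - 4 * D) * (24 * 8000064 * (M2 F : ℝ)) / (n : ℝ) ^ 3) := by ring
    linarith
  have hfin : (1 - 4 * D) * (24 * 8000064 * (M2 F : ℝ)) ≤
      128849018880 * (n : ℝ) ^ 3 + 134217728 * B * (n : ℝ) ^ 2 := by
    have h2 : 1 / (n : ℝ) * ((1 - 4 * D) * (24 * 8000064 * (M2 F : ℝ)) / (n : ℝ) ^ 3) -
        1 / n * (4 * (16777216 * (2 * (n * b)))) ≤ 128849018880 / n := by
      have h3 := mul_le_mul_of_nonneg_left hC (show (0 : ℝ) ≤ 1 / n by positivity)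
      have h4 := mul_le_mul_of_nonneg_left hA (show (0 : ℝ) ≤ 1 / n * 4 by positivity)
      linarith
    have h3 := mul_le_mul_of_nonneg_right h2 (show (0 : ℝ) ≤ (n : ℝ) ^ 4 by positivity)
    have e1 : (1 / (n : ℝ) * ((1 - 4 * D) * (24 * 8000064 * (M2 F : ℝ)) / (n : ℝ) ^ 3) -
        1 / n * (4 * (16777216 * (2 * (n * b))))) * (n : ℝ) ^ 4 =
        (1 - 4 * D) * (24 * 8000064 * (M2 F : ℝ)) - 134217728 * B * (n : ℝ) ^ 2 := by
      rw [hbdef]; field_simp; ring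
    have e2 : 128849018880 / (n : ℝ) * (n : ℝ) ^ 4 = 128849018880 * (n : ℝ) ^ 3 := by
      field_simp
    rw [e1, e2] at h3
    linarith
  have hM : (0 : ℝ) ≤ (M2 F : ℝ) := Nat.cast_nonneg _
  have hBn : 0 ≤ B := by
    have : B = b * (n : ℝ) ^ 2 := by rw [hbdef]; field_simp
    rw [this]; positivity
  have hDle : D ≤ (6 * (F.card : ℝ) + 3 * (n : ℝ) ^ 2) / (n : ℝ) ^ 3 := by
    rw [hDdef, div_le_div_iff₀ (by positivity) (by positivity)]
    have h2 : (6 * (F.card : ℝ) / n + 3 * n - 2) * (n : ℝ) ^ 3 =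
      (6 * (F.card : ℝ) + 3 * (n : ℝ) ^ 2 - 2 * n) * (n : ℝ) ^ 2 := by field_simp
    rw [h2]
    exact mul_le_mul_of_nonneg_right (by linarith) (by positivity)
  have hlast : (1 - 4 * (6 * (F.card : ℝ) + 3 * (n : ℝ) ^ 2) / (n : ℝ) ^ 3) * (M2 F : ℝ) ≤
      (1 - 4 * D) * (M2 F : ℝ) := by
    refine mul_le_mul_of_nonneg_right ?_ hM
    rw [mul_div_assoc]
    linarith
  have hn3 : (0 : ℝ) ≤ (n : ℝ) ^ 3 := by positivity
  have hBn2 : 0 ≤ B * (n : ℝ) ^ 2 := by positivity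
  nlinarith

end Pool.Agent.T53c
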