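import Pool.Agent.Lib.MP_19b7b8_co_FA.Leaf

/-!
# MP_19b7b8_co FC: the test at a leaf
-/

set_option autoImplicit false

namespace Pool.Agent.T53c

open Finset Pool.Agent.T53

/-- the test at a leaf; `bm` marks the excluded codes -/
def leafc (t4 : ℕ → ℕ) (t2 t1 bm C : ℕ) : Bool :=
  (cond (Nat.ble (Nat.add (Nat.land (Nat.shiftRight C 2540) 1048575) 1)
    (Nat.land (Nat.shiftRight C 2640) 1048575)) true
  (cond (Nat.ble (Nat.add (Nat.land (Nat.shiftRight C 2560) 1048575) 1)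
    (Nat.land (Nat.shiftRight C 2640) 1048575)) true
  (cond (Nat.ble (Nat.add (Nat.land (Nat.shiftRight C 2580) 1048575) 1)
    (Nat.land (Nat.shiftRight C 2640) 1048575)) true
  (cond (Nat.ble (Nat.add (Nat.land (Nat.shiftRight C 2600) 1048575) 1)
    (Nat.land (Nat.shiftRight C 2640) 1048575)) true
  (cond (Nat.ble (Nat.add (Nat.land (Nat.shiftRight C 2620) 1048575) 1)
    (Nat.land (Nat.shiftRight C 2640) 1048575)) true
  (cond (Nat.beq (Nat.land (Nat.shiftRight bm
    (Nat.land (Nat.shiftRight C 2420) 1048575)) 1) 1) true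
  (cond (Nat.beq (Nat.land (Nat.shiftRight bm
    (Nat.land (Nat.shiftRight C 2440) 1048575)) 1) 1) true
  (cond (Nat.beq (Nat.land (Nat.shiftRight bm
    (Nat.land (Nat.shiftRight C 2460) 1048575)) 1) 1) true
  (cond (Nat.beq (Nat.land (Nat.shiftRight bm
    (Nat.land (Nat.shiftRight C 2480) 1048575)) 1) 1) true
  (cond (Nat.beq (Nat.land (Nat.shiftRight bm
    (Nat.land (Nat.shiftRight C 2500) 1048575)) 1) 1) true
  (cond (Nat.beq (Nat.land (Nat.shiftRight bm
    (Nat.land (Nat.shiftRight C 2520) 1048575)) 1) 1) true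
  (Nat.ble (Nat.add (leafS4 t4 C) (Nat.add (leafS2 t2 C) (leafS1 t1 C))) 11072962560))))))))))))

/-- enumeration: `j` runs over the bits below `n` -/
def chkc (t4 : ℕ → ℕ) (t2 t1 bm uu : ℕ) (n : ℕ) : ℕ → Bool :=
  Nat.rec (fun C => leafc t4 t2 t1 bm C)
    (fun j ih C => cond (ih C) (ih (Nat.add C (dg 2660 uu j))) false) n

end Pool.Agent.T53c
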