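import Pool.Agent.Lib.MP_19b7b8_co_FC.Low
import Pool.Agent.Lib.MP_19b7b8_co_FB.Lim

/-!
# MP_19b7b8_co FC: limit forms

* `exists_large'`: for every `m` and `ε` there is `k ≥ m` with `(1/4 - ε) * k.choose 3 ≤ mn k` (in
  fact every large `k`): `exists_large` and `mn_mono`.
* `lower_few`: take `k ≥ 5` with `(1/4 - ε/2) ≤ mn k / k.choose 3` and `δ = ε / k.choose 5`, `n0 = k`;
  use `few_avg` (as in `MP_19b7b8_co_FB/Lim.lean`, `lower_few`).
* `limit_quarter`: lower bound from `exists_large` and `mn_mono`; upper bound from `mn_upper` as in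
  `MP_19b7b8_co_FB/Lim.lean`, `limit_quarter`.
-/

set_option autoImplicit false

namespace Pool.Agent.T53c

open Finset Filter

private theorem lim_aux (ε : ℝ) (hε : 0 < ε) : ∃ n0 : ℕ, 3 ≤ n0 ∧ ∀ k : ℕ, n0 ≤ k →
    1 / 4 - ε ≤ (mn k : ℝ) / (k.choose 3 : ℝ) := by
  obtain ⟨n0, h3, h⟩ := exists_large ε hε
  refine ⟨n0, h3, fun k hk => ?_⟩
  have hc : (0 : ℝ) < (n0.choose 3 : ℝ) := by exact_mod_cast Nat.choose_pos h3
  have h1 : 1 / 4 - ε ≤ (mn n0 : ℝ) / (n0.choose 3 : ℝ) := by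
    rw [le_div_iff₀ hc]
    exact h
  exact h1.trans (mn_mono h3 hk)

theorem lower_few (ε : ℝ) (hε : 0 < ε) : ∃ δ : ℝ, 0 < δ ∧ ∃ n0 : ℕ, ∀ n : ℕ, n0 ≤ n →
    ∀ F : Finset (Finset (Fin n)), (∀ e ∈ F, e.card = 3) →
      (∀ S : Finset (Fin n), S.card = 5 → ∃ e ∈ F, e ⊆ S) →
      ((badSets F).card : ℝ) ≤ δ * (n.choose 5 : ℝ) →
      (1 / 4 - ε) * (n.choose 3 : ℝ) ≤ F.card := by
  by_cases h14 : 1 / 4 - ε ≤ 0
  · refine ⟨1, one_pos, 0, fun n _ F _ _ _ => ?_⟩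
    exact (mul_nonpos_of_nonpos_of_nonneg h14 (Nat.cast_nonneg _)).trans (Nat.cast_nonneg _)
  rw [not_le] at h14
  obtain ⟨m, hm3, hm⟩ := lim_aux (ε / 2) (by linarith)
  set k : ℕ := max m 5 with hk
  have hk5 : 5 ≤ k := le_max_right _ _
  have hq := hm k (le_max_left _ _)
  have hc5 : (0 : ℝ) < k.choose 5 := by exact_mod_cast Nat.choose_pos hk5
  refine ⟨ε / (k.choose 5 : ℝ), by positivity, k, fun n hn F h3 h5 hB => ?_⟩
  have h := few_avg (F := F) ⟨h3, h5⟩ k hk5 hn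
  have p3 : (0 : ℝ) < n.choose 3 := by exact_mod_cast Nat.choose_pos (show 3 ≤ n by omega)
  have p5 : (0 : ℝ) < n.choose 5 := by exact_mod_cast Nat.choose_pos (show 5 ≤ n by omega)
  set b : ℝ := (badSets F).card * (k.choose 5 : ℝ) / (n.choose 5 : ℝ) with hb
  have hb0 : 0 ≤ b := by positivity
  have hb1 : b ≤ ε := by
    rw [hb, div_le_iff₀ p5]
    calc ((badSets F).card : ℝ) * (k.choose 5 : ℝ)
        ≤ (ε / (k.choose 5 : ℝ) * (n.choose 5 : ℝ)) * (k.choose 5 : ℝ) :=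
          mul_le_mul_of_nonneg_right hB hc5.le
      _ = ε * (n.choose 5 : ℝ) := by field_simp
  refine le_trans (mul_le_mul_of_nonneg_right ?_ p3.le) h
  have h10 : 0 ≤ 1 - b := by linarith
  have h11 : (1 / 4 - ε / 2) * (1 - b) ≤ (mn k : ℝ) / (k.choose 3 : ℝ) * (1 - b) :=
    mul_le_mul_of_nonneg_right hq h10
  nlinarith

theorem limit_quarter : Tendsto (fun n : ℕ =>
    ((sInf {m : ℕ | ∃ F : Finset (Finset (Fin n)), (∀ e ∈ F, e.card = 3) ∧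
      (∀ S : Finset (Fin n), S.card = 5 → ∃ e ∈ F, e ⊆ S) ∧ badSets F = ∅ ∧ F.card = m} : ℕ) : ℝ) /
      ((n.choose 3 : ℕ) : ℝ)) atTop (nhds (1 / 4)) := by
  have hset : ∀ n : ℕ, sInf {m : ℕ | ∃ F : Finset (Finset (Fin n)), (∀ e ∈ F, e.card = 3) ∧
      (∀ S : Finset (Fin n), S.card = 5 → ∃ e ∈ F, e ⊆ S) ∧ badSets F = ∅ ∧ F.card = m} =
      mn n := by
    intro n
    unfold mn
    congr 1
    ext m
    constructor
    · rintro ⟨F, g1, g2, g3, g4⟩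
      exact ⟨F, ⟨⟨g1, g2⟩, g3⟩, g4⟩
    · rintro ⟨F, ⟨⟨g1, g2⟩, g3⟩, g4⟩
      exact ⟨F, g1, g2, g3, g4⟩
  simp only [hset]
  have h2 : Tendsto (fun n : ℕ => (1 / 4 : ℝ) * ((1 - 2 / (n : ℝ)) ^ 3)⁻¹) atTop
      (nhds (1 / 4)) := by
    have h3 : Tendsto (fun n : ℕ => (1 : ℝ) - 2 / (n : ℝ)) atTop (nhds (1 - 0)) :=
      tendsto_const_nhds.sub (tendsto_const_div_atTop_nhds_zero_nat 2)
    rw [sub_zero] at h3
    have h4 := ((h3.pow 3).inv₀ (by norm_num)).const_mul (1 / 4 : ℝ)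
    simpa using h4
  refine tendsto_order.2 ⟨fun a ha => ?_, fun b hb => ?_⟩
  · obtain ⟨n0, _, h⟩ := lim_aux ((1 / 4 - a) / 2) (by linarith)
    filter_upwards [eventually_ge_atTop n0] with n hn
    have := h n hn
    linarith
  · have h3 := h2.eventually (gt_mem_nhds hb)
    filter_upwards [h3, eventually_ge_atTop 3] with n hnb hn
    refine lt_of_le_of_lt ?_ hnb
    have hn0 : (0 : ℝ) < n := by exact_mod_cast (show 0 < n by omega)
    have hn3 : (3 : ℝ) ≤ n := by exact_mod_cast hn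
    have hc : (0 : ℝ) < (n.choose 3 : ℝ) := by exact_mod_cast Nat.choose_pos hn
    have f4' : 24 * (mn n : ℝ) ≤ (n : ℝ) ^ 3 := by exact_mod_cast mn_upper n
    have h6 : ((n : ℝ) - 2) ^ 3 ≤ 6 * (n.choose 3 : ℝ) := by
      have h7 := Nat.pow_sub_le_descFactorial n 3
      rw [Nat.descFactorial_eq_factorial_mul_choose] at h7
      have h8 : (((n + 1 - 3 : ℕ) : ℝ)) ^ 3 ≤ ((3 : ℕ).factorial : ℝ) * (n.choose 3 : ℝ) := by
        exact_mod_cast h7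
      have h9 : ((n + 1 - 3 : ℕ) : ℝ) = (n : ℝ) - 2 := by
        rw [Nat.cast_sub (by omega)]
        push_cast
        ring
      rw [h9] at h8
      have h10 : ((3 : ℕ).factorial : ℝ) = 6 := by norm_num [Nat.factorial]
      rwa [h10] at h8
    rw [div_le_iff₀ hc]
    have hp : (0 : ℝ) < (n : ℝ) - 2 := by linarith
    have e1 : (1 - 2 / (n : ℝ)) = ((n : ℝ) - 2) / n := by field_simp
    rw [e1, div_pow, inv_div]
    have h11 : (n : ℝ) ^ 3 ≤ (n : ℝ) ^ 3 / ((n : ℝ) - 2) ^ 3 * (6 * (n.choose 3 : ℝ)) := by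
      have h12 : (n : ℝ) ^ 3 / ((n : ℝ) - 2) ^ 3 * ((n : ℝ) - 2) ^ 3 = (n : ℝ) ^ 3 := by
        field_simp
      calc (n : ℝ) ^ 3 = (n : ℝ) ^ 3 / ((n : ℝ) - 2) ^ 3 * ((n : ℝ) - 2) ^ 3 := h12.symm
        _ ≤ _ := mul_le_mul_of_nonneg_left h6 (by positivity)
    nlinarith

end Pool.Agent.T53c
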