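import Pool.Agent.Lib.MP_19b7b8_co_FC.Fields
import Pool.Agent.Lib.MP_19b7b8_co_FC.Leaf
import Pool.Agent.Lib.MP_19b7b8_co_FC.DataT

/-!
# MP_19b7b8_co FC: two-level lookups and the check functions for the large table
-/

set_option autoImplicit false

namespace Pool.Agent.T53c

open Finset Pool.Agent.T53

theorem tqc_eq (k r : ℕ) : tqc k r = dg 32 (Y5_0 k) r := rfl

theorem ttc_eq (k r : ℕ) (hr : r < 1024) : ttc (r + 1024 * k) = tqc k r := by
  unfold ttc
  have e1 : Nat.shiftRight (r + 1024 * k) 10 = k := by
    show (r + 1024 * k) >>> 10 = _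
    rw [Nat.shiftRight_eq_div_pow]; omega
  have e2 : Nat.land (r + 1024 * k) 1023 = r := by
    show (r + 1024 * k) &&& (2 ^ 10 - 1) = _
    rw [Nat.and_two_pow_sub_one_eq_mod]; omega
  rw [e1, e2]

/-- the representatives 0, 1, 3, 7, 15 of the types -/
noncomputable def tr5 (i : ℕ) : ℕ := dg 4 TRc i

/-- entries of the vectors of the blocks of type 4, shifted by `2^14` -/
noncomputable def rvc (i j f : ℕ) : ℕ := dg 16 (dg 1024 V4c (Nat.add (Nat.mul 19 i) j)) f

/-- weights of the vectors of the blocks of type 4 -/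
noncomputable def wvc (i j : ℕ) : ℕ := dg 32 W4c (Nat.add (Nat.mul 19 i) j)

/-- check of the Gram identity, for one type and one column -/
noncomputable def ckG1c (i f' : ℕ) : Bool := allN (fun f =>
  Nat.beq (Nat.add (tqc f' (Nat.add (tr5 i) (Nat.mul 16 f)))
      (Nat.mul 16384 (sumN (fun j => Nat.mul (wvc i j) (Nat.add (rvc i j f) (rvc i j f'))) 19)))
    (Nat.add (sumN (fun j => Nat.mul (wvc i j) (Nat.mul (rvc i j f) (rvc i j f'))) 19)
      (Nat.add (Nat.mul 268435456 (sumN (fun j => wvc i j) 19)) 268435456))) 64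

/-- check of the Gram identity, for one type and one block of columns -/
noncomputable def ckGc (i b : ℕ) : Bool := allN (fun k => ckG1c i (ixb b k)) 16

/-- check of the invariance of the table, for one type and one column -/
noncomputable def ckI1c (a t f' : ℕ) : Bool := allN (fun f =>
  Nat.beq (tqc (pm (af4 a) 6 f') (Nat.add (pm (at4 a) 4 t) (Nat.mul 16 (pm (af4 a) 6 f))))
    (tqc f' (Nat.add t (Nat.mul 16 f)))) 64

/-- check of the invariance of the table, for one type and one block of columns -/
noncomputable def ckIc (a t b : ℕ) : Bool := allN (fun i => ckI1c a t (ixb b i)) 16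

end Pool.Agent.T53c
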