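import Pool.Agent.Lib.MP_19b7b8_co_FC.Avg
import Pool.Agent.Lib.MP_19b7b8_co_FC.Inc
import Pool.Agent.Lib.MP_19b7b8_co_FC.Key
import Pool.Agent.Lib.MP_19b7b8_co.T53

/-!
# MP_19b7b8_co FC: the lower bound for some size

Let `a n = mn n / (n.choose 3)` for `3 ≤ n` (and `0` for `n < 3`, or use that the quotient is `0`
there); `0 ≤ a n ≤ 1` (`mn_upper`, or the system of all triples; for `n ≥ 3` it is enough that
`24 * mn n ≤ n ^ 3` and `n ^ 3 ≤ 27 * ...`; simplest: `mn n ≤ n.choose 3` since a system of triples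
has at most `n.choose 3` members).  Suppose `mn n < (1/4 - ε) * n.choose 3` for all `n ≥ 3`; in
particular `ε < 1/4`.  Let `η > 0` be small and `n0` large (to be chosen from `ε`).
`exists_small_inc` gives `n ≥ n0` with `(n + 1) * (a (n + 1) - a n) ≤ η`.  Put `N = n + 1` and let
`F` be optimal on `N` points (`exists_opt`).  With `g = a (n + 1) - a n ≤ η / N`:
`mn N - mn n = a N * C(N,3) - a n * C(n,3)`, `C(n,3) = C(N,3) * (N - 3) / N`, so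
`mn N - mn n = 3 * mn N / N + g * C(n,3) ≤ 3 * mn N / N + η N^2 / 6`.  By `opt_deg`
`2 * dgr F x ≤ 2 * (mn N - mn n) ≤ 6 * F.card / N + B` with `B = η N^2 / 3`.
Moreover `6 * F.card ≤ 6 * (1/4 - ε) * C(N,3) ≤ (1/4 - ε) N^3`, so for `N ≥ 6 / ε`
`4 * (6 * F.card + 3 N^2) ≤ (1 - 4 ε) N^3 + 12 N^2 ≤ (1 - 2 ε) N^3`; `key` gives
`2 ε * M2 F ≤ 700 N^3 + (2/3) η N^4`, so `M2 F ≤ N^4 * y` with `y = (700 / N + η) / (2 ε)`.
Finally `Pool.Agent.MP_19b7b8_co.T53.main_fin`: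
`N^3/24 - 13 N^2 - 32 (M2 F * N^5)^(1/3) ≤ F.card ≤ (1/4 - ε) N^3 / 6`, so
`ε / 6 ≤ 13 / N + 32 y^(1/3)`.  Choose `η, n0` so that `13 / N ≤ ε / 24` and
`y ≤ (ε / 400) ^ 3` (so `32 y^(1/3) ≤ 32 ε / 400 < ε / 12`): contradiction.
-/

set_option autoImplicit false

namespace Pool.Agent.T53c

open Finset

private theorem Low_le (n : ℕ) : (mn n : ℝ) ≤ (n.choose 3 : ℝ) := by
  obtain ⟨F, hF, hc⟩ := exists_opt n
  rw [← hc]
  have h1 : F ⊆ powersetCard 3 univ := fun t ht =>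
    mem_powersetCard.2 ⟨subset_univ t, hF.1.1 t ht⟩
  have h2 := card_le_card h1
  rw [card_powersetCard, card_univ, Fintype.card_fin] at h2
  exact_mod_cast h2

private theorem Low_ch (n : ℕ) (hn : 3 ≤ n) :
    (n.choose 3 : ℝ) * ((n : ℝ) + 1) = ((n + 1).choose 3 : ℝ) * ((n : ℝ) + 1 - 3) := by
  have h := Nat.choose_mul_succ_eq n 3
  have h1 : ((n + 1 - 3 : ℕ) : ℝ) = (n : ℝ) + 1 - 3 := by
    rw [Nat.cast_sub (by omega)]
    push_cast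
    ring
  rw [← h1]
  exact_mod_cast h

private theorem Low_C (n : ℕ) : (n.choose 3 : ℝ) ≤ (n : ℝ) ^ 3 / 6 := by
  have h := Nat.choose_le_pow_div (α := ℝ) 3 n
  have h1 : ((Nat.factorial 3 : ℕ) : ℝ) = 6 := by
    norm_num [Nat.factorial]
  rwa [h1] at h

/-- the difference of two consecutive minima -/
private theorem Low_diff {p q c C N η : ℝ} (hN : 0 < N) (hη : 0 ≤ η) (hc : c * N = C * (N - 3))
    (hC : 0 < C) (hc0 : 0 < c) (hcN : c ≤ N ^ 3 / 6) (hg : N * (p / C - q / c) ≤ η) :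
    p - q ≤ 3 * p / N + η * N ^ 2 / 6 := by
  have h1 : N * (p / C - q / c) * c = 3 * 0 + (N * (p - q) - 3 * p) := by
    have e1 : N * (p / C - q / c) * c = (c * N) * p / C - N * q := by
      field_simp
    rw [e1, hc]
    field_simp
    ring
  have h2 : N * (p / C - q / c) * c ≤ η * c := mul_le_mul_of_nonneg_right hg hc0.le
  have h3 : η * c ≤ η * (N ^ 3 / 6) := mul_le_mul_of_nonneg_left hcN hη
  have h4 : N * (p - q) ≤ N * (3 * p / N + η * N ^ 2 / 6) := by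
    have e2 : N * (3 * p / N + η * N ^ 2 / 6) = 3 * p + η * (N ^ 3 / 6) := by
      field_simp
    rw [e2]
    linarith
  exact le_of_mul_le_mul_left h4 hN

/-- the final contradiction -/
private theorem Low_fin {ε η N f M : ℝ} (hε : 0 < ε) (hε4 : ε < 1 / 4) (hη : η = ε ^ 4 / 400 ^ 3)
    (hN1 : 700 * 400 ^ 3 / ε ^ 4 ≤ N) (hN2 : 150 / ε ≤ N) (hM0 : 0 ≤ M)
    (hf : f ≤ (1 / 4 - ε) * (N ^ 3 / 6)) (hf' : f < (1 / 4 - ε) * (N ^ 3 / 6))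
    (hkey : 4 * (6 * f + 3 * N ^ 2) ≤ N ^ 3 →
      (1 - 4 * (6 * f + 3 * N ^ 2) / N ^ 3) * M ≤ 700 * N ^ 3 + 2 * (η * N ^ 2 / 3) * N ^ 2)
    (hmain : N ^ 3 / 24 - 13 * N ^ 2 - 32 * (M * N ^ 5) ^ (1 / 3 : ℝ) ≤ f) : False := by
  have hN : 0 < N := lt_of_lt_of_le (by positivity) hN2
  have hN2' : 150 ≤ ε * N := by
    rw [div_le_iff₀ hε] at hN2
    linarith
  have hN1' : 700 * 400 ^ 3 ≤ N * ε ^ 4 := by
    rwa [div_le_iff₀ (by positivity)] at hN1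
  have hN3 : 0 < N ^ 3 := by positivity
  have h12 : 150 * N ^ 2 ≤ ε * N ^ 3 := by
    have := mul_le_mul_of_nonneg_right hN2' (sq_nonneg N)
    linarith [this, (by ring : ε * N * N ^ 2 = ε * N ^ 3)]
  have h4 : 4 * (6 * f + 3 * N ^ 2) ≤ (1 - 2 * ε) * N ^ 3 := by nlinarith
  have h5 : 4 * (6 * f + 3 * N ^ 2) ≤ N ^ 3 := by nlinarith
  have h6 := hkey h5
  have h7 : 2 * ε ≤ 1 - 4 * (6 * f + 3 * N ^ 2) / N ^ 3 := by
    have : 4 * (6 * f + 3 * N ^ 2) / N ^ 3 ≤ 1 - 2 * ε := by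
      rw [div_le_iff₀ hN3]
      exact h4
    linarith
  have h8 : 2 * ε * M ≤ 700 * N ^ 3 + 2 * (η * N ^ 2 / 3) * N ^ 2 :=
    (mul_le_mul_of_nonneg_right h7 hM0).trans h6
  have h9 : M ≤ N ^ 4 * (ε / 400) ^ 3 := by
    have e1 : 700 * N ^ 3 ≤ N ^ 4 * (ε ^ 4 / 400 ^ 3) := by
      have e2 := mul_le_mul_of_nonneg_right hN1' hN3.le
      have e3 : N * ε ^ 4 * N ^ 3 = 400 ^ 3 * (N ^ 4 * (ε ^ 4 / 400 ^ 3)) := by
        field_simp
      rw [e3] at e2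
      nlinarith
    have e4 : 2 * (η * N ^ 2 / 3) * N ^ 2 ≤ N ^ 4 * (ε ^ 4 / 400 ^ 3) := by
      rw [hη]
      have e5 : 0 ≤ N ^ 4 * (ε ^ 4 / 400 ^ 3) := by positivity
      nlinarith
    have e6 : 2 * ε * M ≤ 2 * ε * (N ^ 4 * (ε / 400) ^ 3) := by
      have e7 : 2 * ε * (N ^ 4 * (ε / 400) ^ 3) = 2 * (N ^ 4 * (ε ^ 4 / 400 ^ 3)) := by
        field_simp
      rw [e7]
      linarith
    exact le_of_mul_le_mul_left e6 (by positivity)
  have h10 : (M * N ^ 5) ^ (1 / 3 : ℝ) ≤ N ^ 3 * (ε / 400) := by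
    have e1 : M * N ^ 5 ≤ (N ^ 3 * (ε / 400)) ^ 3 := by
      have e2 := mul_le_mul_of_nonneg_right h9 (by positivity : 0 ≤ N ^ 5)
      have e3 : N ^ 4 * (ε / 400) ^ 3 * N ^ 5 = (N ^ 3 * (ε / 400)) ^ 3 := by ring
      rwa [e3] at e2
    have e4 := Real.rpow_le_rpow (by positivity) e1 (by norm_num : (0 : ℝ) ≤ 1 / 3)
    have e5 : ((N ^ 3 * (ε / 400)) ^ 3) ^ (1 / 3 : ℝ) = N ^ 3 * (ε / 400) := by
      rw [← Real.rpow_natCast (N ^ 3 * (ε / 400)) 3, ← Real.rpow_mul (by positivity)]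
      norm_num
    rwa [e5] at e4
  nlinarith

theorem exists_large (ε : ℝ) (hε : 0 < ε) :
    ∃ n : ℕ, 3 ≤ n ∧ (1 / 4 - ε) * (n.choose 3 : ℝ) ≤ mn n := by
  by_contra hcon
  push Not at hcon
  have hε4 : ε < 1 / 4 := by
    have h3 := hcon 3 le_rfl
    have h0 : (0 : ℝ) ≤ mn 3 := Nat.cast_nonneg _
    have h1 : ((Nat.choose 3 3 : ℕ) : ℝ) = 1 := by norm_num
    rw [h1] at h3
    linarith
  obtain ⟨η, hη⟩ : ∃ η, η = ε ^ 4 / 400 ^ 3 := ⟨_, rfl⟩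
  have hη0 : 0 < η := by
    rw [hη]
    positivity
  obtain ⟨n, hn0, hn3, hinc⟩ := exists_small_inc (fun n => (mn n : ℝ) / (n.choose 3 : ℝ))
    (fun n => by positivity) (fun n => div_le_one_of_le₀ (Low_le n) (Nat.cast_nonneg _)) η hη0
    ⌈700 * 400 ^ 3 / ε ^ 4 + 150 / ε⌉₊
  have hb := (Nat.le_ceil (700 * 400 ^ 3 / ε ^ 4 + 150 / ε)).trans
    (Nat.cast_le.2 hn0 : ((⌈700 * 400 ^ 3 / ε ^ 4 + 150 / ε⌉₊ : ℕ) : ℝ) ≤ (n : ℝ))
  have hp1 : 0 < 700 * 400 ^ 3 / ε ^ 4 := by positivity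
  have hp2 : 0 < 150 / ε := by positivity
  obtain ⟨F, hF, hc⟩ := exists_opt (n + 1)
  have hN : ((n + 1 : ℕ) : ℝ) = (n : ℝ) + 1 := by push_cast; ring
  have hNpos : (0 : ℝ) < (n : ℝ) + 1 := by positivity
  have hc0 : (0 : ℝ) < (n.choose 3 : ℝ) := by
    exact_mod_cast Nat.choose_pos hn3
  have hC0 : (0 : ℝ) < ((n + 1).choose 3 : ℝ) := by
    exact_mod_cast Nat.choose_pos (by omega : 3 ≤ n + 1)
  have hcN : (n.choose 3 : ℝ) ≤ ((n : ℝ) + 1) ^ 3 / 6 := by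
    refine (Low_C n).trans ?_
    have : (n : ℝ) ^ 3 ≤ ((n : ℝ) + 1) ^ 3 := pow_le_pow_left₀ (Nat.cast_nonneg _) (by linarith) 3
    linarith
  have hd := Low_diff hNpos hη0.le (Low_ch n hn3) hC0 hc0 hcN hinc
  have hCN : ((n + 1).choose 3 : ℝ) ≤ ((n : ℝ) + 1) ^ 3 / 6 := by
    have := Low_C (n + 1)
    rwa [hN] at this
  have hfl := hcon (n + 1) (by omega)
  have hfu : (F.card : ℝ) < (1 / 4 - ε) * (((n : ℝ) + 1) ^ 3 / 6) := by
    rw [hc]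
    exact hfl.trans_le (mul_le_mul_of_nonneg_left hCN (by linarith))
  refine Low_fin (N := (n : ℝ) + 1) (f := (F.card : ℝ)) (M := (M2 F : ℝ)) hε hε4 hη
    (by linarith) (by linarith) (Nat.cast_nonneg _) hfu.le hfu ?_ ?_
  · intro hD
    have hk := key (n := n + 1) (Nat.succ_pos n) hF (η * ((n : ℝ) + 1) ^ 2 / 3) (fun x => ?_)
      (by rw [hN]; exact hD)
    · rw [hN] at hk
      exact hk
    · have h1 := opt_deg hF hc x
      have h2 : (dgr F x : ℝ) + (mn n : ℝ) ≤ (mn (n + 1) : ℝ) := by exact_mod_cast h1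
      rw [hN, hc]
      have h3 : 6 * (mn (n + 1) : ℝ) / ((n : ℝ) + 1) =
          2 * (3 * (mn (n + 1) : ℝ) / ((n : ℝ) + 1)) := by
        ring
      rw [h3]
      linarith
  · have hm := Pool.Agent.MP_19b7b8_co.T53.main_fin (n + 1) F hF.1.1 hF.1.2
    rw [hN] at hm
    exact hm

end Pool.Agent.T53c
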