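import Pool.Agent.Lib.MP_19b7b8_co_FC.Defs

/-!
# MP_19b7b8_co FC: Ringel's system is in the class

`ringel p` covers every set of five points and has no bad set.  Both are finite checks on the five
classes `p a, ..., p e` (`4 ^ 5` cases, use `decide` or `decide +kernel` on a Boolean statement over
`ZMod 4 = Fin 4`).  For five different points whether `{x, y, z}` is in `ringel p` depends only on
`p x, p y, p z` : let `rg α β γ : Bool` be true iff two of the classes are equal, say to `i`, and the
third one is `i` or `i + 1`.  Then (different `x, y, z`) `{x, y, z} ∈ ringel p ↔ rg (p x) (p y) (p z)`.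
* Cover: for all `α β γ δ ε` one of the ten values `rg` is true.
* No bad set: if the triples inside `S = {a, b, c, d, e}` are one of the four systems, then all ten
  values `rg` are prescribed (true for the listed triples, false for the others); no choice of
  `α β γ δ ε` has these values, for each of the four systems.  It is enough to use these values:
  system 1: `abc, ade` true, the other eight false; and so on.
-/

set_option autoImplicit false

namespace Pool.Agent.T53c

open Finset

/-- membership in terms of the classes -/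
private def rg (α β γ : ZMod 4) : Bool :=
  decide ((α = β ∧ (γ = α ∨ γ = α + 1)) ∨ (α = γ ∧ (β = α ∨ β = α + 1)) ∨
    (β = γ ∧ (α = β ∨ α = β + 1)))

private theorem rg_cov : ∀ α β γ δ ε : ZMod 4,
    rg α β γ = true ∨ rg α β δ = true ∨ rg α β ε = true ∨
    rg α γ δ = true ∨ rg α γ ε = true ∨ rg α δ ε = true ∨
    rg β γ δ = true ∨ rg β γ ε = true ∨ rg β δ ε = true ∨
    rg γ δ ε = true := by
  decide +kernel

private theorem rg_no1 : ∀ α β γ δ ε : ZMod 4, ¬ (
    rg α β γ = true ∧ rg α β δ = false ∧ rg α β ε = false ∧
    rg α γ δ = false ∧ rg α γ ε = false ∧ rg α δ ε = true ∧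
    rg β γ δ = false ∧ rg β γ ε = false ∧ rg β δ ε = false ∧
    rg γ δ ε = false) := by
  decide +kernel

private theorem rg_no2 : ∀ α β γ δ ε : ZMod 4, ¬ (
    rg α β γ = true ∧ rg α β δ = true ∧ rg α β ε = true ∧
    rg α γ δ = false ∧ rg α γ ε = false ∧ rg α δ ε = false ∧
    rg β γ δ = false ∧ rg β γ ε = false ∧ rg β δ ε = false ∧
    rg γ δ ε = false) := by
  decide +kernel

private theorem rg_no3 : ∀ α β γ δ ε : ZMod 4, ¬ (
    rg α β γ = true ∧ rg α β δ = true ∧ rg α β ε = false ∧
    rg α γ δ = true ∧ rg α γ ε = false ∧ rg α δ ε = false ∧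
    rg β γ δ = false ∧ rg β γ ε = false ∧ rg β δ ε = false ∧
    rg γ δ ε = false) := by
  decide +kernel

private theorem rg_no4 : ∀ α β γ δ ε : ZMod 4, ¬ (
    rg α β γ = true ∧ rg α β δ = false ∧ rg α β ε = true ∧
    rg α γ δ = true ∧ rg α γ ε = false ∧ rg α δ ε = true ∧
    rg β γ δ = false ∧ rg β γ ε = false ∧ rg β δ ε = false ∧
    rg γ δ ε = false) := by
  decide +kernel

private theorem mem_ringel {n : ℕ} (p : Fin n → ZMod 4) {x y z : Fin n} (hxy : x ≠ y)
    (hxz : x ≠ z) (hyz : y ≠ z) :
    ({x, y, z} : Finset (Fin n)) ∈ ringel p ↔ rg (p x) (p y) (p z) = true := by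
  have hc : ({x, y, z} : Finset (Fin n)).card = 3 := by
    rw [Finset.card_eq_three]
    exact ⟨x, y, z, hxy, hxz, hyz, rfl⟩
  unfold ringel rg
  rw [Finset.mem_filter, Finset.mem_powersetCard, decide_eq_true_iff]
  constructor
  · rintro ⟨-, u, hu, v, hv, w, hw, huv, huw, hvw, h1, h2⟩
    simp only [Finset.mem_insert, Finset.mem_singleton] at hu hv hw
    rcases hu with rfl | rfl | rfl <;> rcases hv with rfl | rfl | rfl <;>
      rcases hw with rfl | rfl | rfl <;> simp_all
  · intro h
    refine ⟨⟨Finset.subset_univ _, hc⟩, ?_⟩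
    rcases h with ⟨h1, h2⟩ | ⟨h1, h2⟩ | ⟨h1, h2⟩
    · exact ⟨x, by simp, y, by simp, z, by simp, hxy, hxz, hyz, h1, h2⟩
    · exact ⟨x, by simp, z, by simp, y, by simp, hxz, hxy, hyz.symm, h1, h2⟩
    · exact ⟨y, by simp, z, by simp, x, by simp, hyz, hxy.symm, hxz.symm, h1, h2⟩

private theorem key {n : ℕ} (p : Fin n → ZMod 4) (f : Fin 5 ↪ Fin n) {S : Finset (Fin n)}
    (hS : ∀ i, f i ∈ S) {Y : Finset (Finset (Fin 5))} {X : Finset (Finset (Fin n))}
    (hX : X = Y.map (Finset.mapEmbedding f).toEmbedding)
    (hF : (ringel p).filter (fun t => t ⊆ S) = X) {i j k : Fin 5} (hij : i ≠ j)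
    (hik : i ≠ k) (hjk : j ≠ k) :
    rg (p (f i)) (p (f j)) (p (f k)) = true ↔ ({i, j, k} : Finset (Fin 5)) ∈ Y := by
  have hne : ∀ {u v : Fin 5}, u ≠ v → f u ≠ f v := fun h h' => h (f.injective h')
  rw [← mem_ringel p (hne hij) (hne hik) (hne hjk)]
  have hsub : ({f i, f j, f k} : Finset (Fin n)) ⊆ S := by
    intro x hx
    simp only [Finset.mem_insert, Finset.mem_singleton] at hx
    rcases hx with rfl | rfl | rfl <;> exact hS _
  have h1 : ({f i, f j, f k} : Finset (Fin n)) ∈ ringel p ↔
      ({f i, f j, f k} : Finset (Fin n)) ∈ (ringel p).filter (fun t => t ⊆ S) := by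
    rw [Finset.mem_filter]
    exact ⟨fun h => ⟨h, hsub⟩, fun h => h.1⟩
  have h2 : ({f i, f j, f k} : Finset (Fin n)) =
      (Finset.mapEmbedding f).toEmbedding ({i, j, k} : Finset (Fin 5)) := by
    change _ = ({i, j, k} : Finset (Fin 5)).map f
    simp only [Finset.map_insert, Finset.map_singleton]
  rw [h1, hF, hX, h2, Finset.mem_map']

theorem ringel_cl {n : ℕ} (p : Fin n → ZMod 4) : Cl (ringel p) := by
  refine ⟨⟨fun t ht => ?_, fun S hS => ?_⟩, ?_⟩
  · unfold ringel at ht
    rw [Finset.mem_filter, Finset.mem_powersetCard] at ht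
    exact ht.1.2
  · obtain ⟨f, hf⟩ : ∃ f : Fin 5 ↪ Fin n, ∀ i, f i ∈ S :=
      ⟨(S.orderEmbOfFin hS).toEmbedding, fun i => Finset.orderEmbOfFin_mem S hS i⟩
    have hne : ∀ {u v : Fin 5}, u ≠ v → f u ≠ f v := fun h h' => h (f.injective h')
    have hin : ∀ {i j k : Fin 5}, i ≠ j → i ≠ k → j ≠ k →
        rg (p (f i)) (p (f j)) (p (f k)) = true → ∃ e ∈ ringel p, e ⊆ S := by
      intro i j k hij hik hjk h
      refine ⟨{f i, f j, f k}, (mem_ringel p (hne hij) (hne hik) (hne hjk)).2 h, ?_⟩
      intro x hx
      simp only [Finset.mem_insert, Finset.mem_singleton] at hx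
      rcases hx with rfl | rfl | rfl <;> exact hf _
    rcases rg_cov (p (f 0)) (p (f 1)) (p (f 2)) (p (f 3)) (p (f 4)) with
      h | h | h | h | h | h | h | h | h | h
    · exact hin (i := 0) (j := 1) (k := 2) (by decide) (by decide) (by decide) h
    · exact hin (i := 0) (j := 1) (k := 3) (by decide) (by decide) (by decide) h
    · exact hin (i := 0) (j := 1) (k := 4) (by decide) (by decide) (by decide) h
    · exact hin (i := 0) (j := 2) (k := 3) (by decide) (by decide) (by decide) h
    · exact hin (i := 0) (j := 2) (k := 4) (by decide) (by decide) (by decide) h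
    · exact hin (i := 0) (j := 3) (k := 4) (by decide) (by decide) (by decide) h
    · exact hin (i := 1) (j := 2) (k := 3) (by decide) (by decide) (by decide) h
    · exact hin (i := 1) (j := 2) (k := 4) (by decide) (by decide) (by decide) h
    · exact hin (i := 1) (j := 3) (k := 4) (by decide) (by decide) (by decide) h
    · exact hin (i := 2) (j := 3) (k := 4) (by decide) (by decide) (by decide) h
  · rw [Finset.eq_empty_iff_forall_notMem]
    intro S hS
    unfold badSets at hS
    rw [Finset.mem_filter, Finset.mem_powersetCard] at hS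
    obtain ⟨⟨-, hc⟩, a, b, c, d, e, hSe, hbad⟩ := hS
    have hnd : ([a, b, c, d, e] : List (Fin n)).Nodup := by
      have h1 : (([a, b, c, d, e] : List (Fin n)) : Multiset (Fin n)).toFinset = S := by
        rw [hSe]
        ext x
        simp
      have h2 := Multiset.toFinset_card_eq_card_iff_nodup
        (m := (([a, b, c, d, e] : List (Fin n)) : Multiset (Fin n)))
      rw [h1, hc] at h2
      have h3 := h2.1 (by simp)
      simpa using h3
    have hinj : Function.Injective (![a, b, c, d, e] : Fin 5 → Fin n) := by
      simp only [List.nodup_cons, List.mem_cons, List.not_mem_nil, or_false, not_or,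
        List.nodup_nil, and_true, not_false_eq_true] at hnd
      obtain ⟨⟨h1, h2, h3, h4⟩, ⟨h5, h6, h7⟩, ⟨h8, h9⟩, h10⟩ := hnd
      intro i j hij
      fin_cases i <;> fin_cases j <;> simp_all
    obtain ⟨f, hf⟩ : ∃ f : Fin 5 ↪ Fin n, ⇑f = ![a, b, c, d, e] := ⟨⟨_, hinj⟩, rfl⟩
    have fa : f 0 = a := by rw [hf]; rfl
    have fb : f 1 = b := by rw [hf]; rfl
    have fc : f 2 = c := by rw [hf]; rfl
    have fd : f 3 = d := by rw [hf]; rfl
    have fe : f 4 = e := by rw [hf]; rfl
    have hfS : ∀ i, f i ∈ S := by
      intro i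
      rw [hSe]
      fin_cases i
      · change f 0 ∈ _
        rw [fa]
        simp
      · change f 1 ∈ _
        rw [fb]
        simp
      · change f 2 ∈ _
        rw [fc]
        simp
      · change f 3 ∈ _
        rw [fd]
        simp
      · change f 4 ∈ _
        rw [fe]
        simp
    have hmap : ∀ i j k : Fin 5, (Finset.mapEmbedding f).toEmbedding
        ({i, j, k} : Finset (Fin 5)) = {f i, f j, f k} := by
      intro i j k
      change ({i, j, k} : Finset (Fin 5)).map f = _
      simp only [Finset.map_insert, Finset.map_singleton]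
    unfold fourSystems at hbad
    simp only [Finset.mem_insert, Finset.mem_singleton] at hbad
    rcases hbad with hbad | hbad | hbad | hbad
    · have hk := @key n p f S hfS
        ({{0, 1, 2}, {0, 3, 4}} : Finset (Finset (Fin 5))) _ (by
        simp only [Finset.map_insert, Finset.map_singleton, hmap, fa, fb, fc, fd, fe]) hbad
      refine rg_no1 (p (f 0)) (p (f 1)) (p (f 2)) (p (f 3)) (p (f 4))
        ⟨?_, ?_, ?_, ?_, ?_, ?_, ?_, ?_, ?_, ?_⟩
      · exact (hk (i := 0) (j := 1) (k := 2) (by decide) (by decide) (by decide)).2 (by decide)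
      · exact Bool.eq_false_iff.2 fun h => absurd ((hk (i := 0) (j := 1) (k := 3)
          (by decide) (by decide) (by decide)).1 h) (by decide)
      · exact Bool.eq_false_iff.2 fun h => absurd ((hk (i := 0) (j := 1) (k := 4)
          (by decide) (by decide) (by decide)).1 h) (by decide)
      · exact Bool.eq_false_iff.2 fun h => absurd ((hk (i := 0) (j := 2) (k := 3)
          (by decide) (by decide) (by decide)).1 h) (by decide)
      · exact Bool.eq_false_iff.2 fun h => absurd ((hk (i := 0) (j := 2) (k := 4)
          (by decide) (by decide) (by decide)).1 h) (by decide)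
      · exact (hk (i := 0) (j := 3) (k := 4) (by decide) (by decide) (by decide)).2 (by decide)
      · exact Bool.eq_false_iff.2 fun h => absurd ((hk (i := 1) (j := 2) (k := 3)
          (by decide) (by decide) (by decide)).1 h) (by decide)
      · exact Bool.eq_false_iff.2 fun h => absurd ((hk (i := 1) (j := 2) (k := 4)
          (by decide) (by decide) (by decide)).1 h) (by decide)
      · exact Bool.eq_false_iff.2 fun h => absurd ((hk (i := 1) (j := 3) (k := 4)
          (by decide) (by decide) (by decide)).1 h) (by decide)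
      · exact Bool.eq_false_iff.2 fun h => absurd ((hk (i := 2) (j := 3) (k := 4)
          (by decide) (by decide) (by decide)).1 h) (by decide)
    · have hk := @key n p f S hfS
        ({{0, 1, 2}, {0, 1, 3}, {0, 1, 4}} : Finset (Finset (Fin 5))) _ (by
        simp only [Finset.map_insert, Finset.map_singleton, hmap, fa, fb, fc, fd, fe]) hbad
      refine rg_no2 (p (f 0)) (p (f 1)) (p (f 2)) (p (f 3)) (p (f 4))
        ⟨?_, ?_, ?_, ?_, ?_, ?_, ?_, ?_, ?_, ?_⟩
      · exact (hk (i := 0) (j := 1) (k := 2) (by decide) (by decide) (by decide)).2 (by decide)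
      · exact (hk (i := 0) (j := 1) (k := 3) (by decide) (by decide) (by decide)).2 (by decide)
      · exact (hk (i := 0) (j := 1) (k := 4) (by decide) (by decide) (by decide)).2 (by decide)
      · exact Bool.eq_false_iff.2 fun h => absurd ((hk (i := 0) (j := 2) (k := 3)
          (by decide) (by decide) (by decide)).1 h) (by decide)
      · exact Bool.eq_false_iff.2 fun h => absurd ((hk (i := 0) (j := 2) (k := 4)
          (by decide) (by decide) (by decide)).1 h) (by decide)
      · exact Bool.eq_false_iff.2 fun h => absurd ((hk (i := 0) (j := 3) (k := 4)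
          (by decide) (by decide) (by decide)).1 h) (by decide)
      · exact Bool.eq_false_iff.2 fun h => absurd ((hk (i := 1) (j := 2) (k := 3)
          (by decide) (by decide) (by decide)).1 h) (by decide)
      · exact Bool.eq_false_iff.2 fun h => absurd ((hk (i := 1) (j := 2) (k := 4)
          (by decide) (by decide) (by decide)).1 h) (by decide)
      · exact Bool.eq_false_iff.2 fun h => absurd ((hk (i := 1) (j := 3) (k := 4)
          (by decide) (by decide) (by decide)).1 h) (by decide)
      · exact Bool.eq_false_iff.2 fun h => absurd ((hk (i := 2) (j := 3) (k := 4)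
          (by decide) (by decide) (by decide)).1 h) (by decide)
    · have hk := @key n p f S hfS
        ({{0, 1, 2}, {0, 1, 3}, {0, 2, 3}} : Finset (Finset (Fin 5))) _ (by
        simp only [Finset.map_insert, Finset.map_singleton, hmap, fa, fb, fc, fd, fe]) hbad
      refine rg_no3 (p (f 0)) (p (f 1)) (p (f 2)) (p (f 3)) (p (f 4))
        ⟨?_, ?_, ?_, ?_, ?_, ?_, ?_, ?_, ?_, ?_⟩
      · exact (hk (i := 0) (j := 1) (k := 2) (by decide) (by decide) (by decide)).2 (by decide)
      · exact (hk (i := 0) (j := 1) (k := 3) (by decide) (by decide) (by decide)).2 (by decide)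
      · exact Bool.eq_false_iff.2 fun h => absurd ((hk (i := 0) (j := 1) (k := 4)
          (by decide) (by decide) (by decide)).1 h) (by decide)
      · exact (hk (i := 0) (j := 2) (k := 3) (by decide) (by decide) (by decide)).2 (by decide)
      · exact Bool.eq_false_iff.2 fun h => absurd ((hk (i := 0) (j := 2) (k := 4)
          (by decide) (by decide) (by decide)).1 h) (by decide)
      · exact Bool.eq_false_iff.2 fun h => absurd ((hk (i := 0) (j := 3) (k := 4)
          (by decide) (by decide) (by decide)).1 h) (by decide)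
      · exact Bool.eq_false_iff.2 fun h => absurd ((hk (i := 1) (j := 2) (k := 3)
          (by decide) (by decide) (by decide)).1 h) (by decide)
      · exact Bool.eq_false_iff.2 fun h => absurd ((hk (i := 1) (j := 2) (k := 4)
          (by decide) (by decide) (by decide)).1 h) (by decide)
      · exact Bool.eq_false_iff.2 fun h => absurd ((hk (i := 1) (j := 3) (k := 4)
          (by decide) (by decide) (by decide)).1 h) (by decide)
      · exact Bool.eq_false_iff.2 fun h => absurd ((hk (i := 2) (j := 3) (k := 4)
          (by decide) (by decide) (by decide)).1 h) (by decide)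
    · have hk := @key n p f S hfS
        ({{0, 1, 2}, {0, 2, 3}, {0, 3, 4}, {0, 1, 4}} : Finset (Finset (Fin 5))) _ (by
        simp only [Finset.map_insert, Finset.map_singleton, hmap, fa, fb, fc, fd, fe]) hbad
      refine rg_no4 (p (f 0)) (p (f 1)) (p (f 2)) (p (f 3)) (p (f 4))
        ⟨?_, ?_, ?_, ?_, ?_, ?_, ?_, ?_, ?_, ?_⟩
      · exact (hk (i := 0) (j := 1) (k := 2) (by decide) (by decide) (by decide)).2 (by decide)
      · exact Bool.eq_false_iff.2 fun h => absurd ((hk (i := 0) (j := 1) (k := 3)
          (by decide) (by decide) (by decide)).1 h) (by decide)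
      · exact (hk (i := 0) (j := 1) (k := 4) (by decide) (by decide) (by decide)).2 (by decide)
      · exact (hk (i := 0) (j := 2) (k := 3) (by decide) (by decide) (by decide)).2 (by decide)
      · exact Bool.eq_false_iff.2 fun h => absurd ((hk (i := 0) (j := 2) (k := 4)
          (by decide) (by decide) (by decide)).1 h) (by decide)
      · exact (hk (i := 0) (j := 3) (k := 4) (by decide) (by decide) (by decide)).2 (by decide)
      · exact Bool.eq_false_iff.2 fun h => absurd ((hk (i := 1) (j := 2) (k := 3)
          (by decide) (by decide) (by decide)).1 h) (by decide)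
      · exact Bool.eq_false_iff.2 fun h => absurd ((hk (i := 1) (j := 2) (k := 4)
          (by decide) (by decide) (by decide)).1 h) (by decide)
      · exact Bool.eq_false_iff.2 fun h => absurd ((hk (i := 1) (j := 3) (k := 4)
          (by decide) (by decide) (by decide)).1 h) (by decide)
      · exact Bool.eq_false_iff.2 fun h => absurd ((hk (i := 2) (j := 3) (k := 4)
          (by decide) (by decide) (by decide)).1 h) (by decide)

end Pool.Agent.T53c
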