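import Pool.Agent.Lib.MP_19b7b8_co_FB.Sharp
import Pool.Agent.Lib.MP_19b7b8_co_FC.Defs

/-!
# MP_19b7b8_co FC: the two-part system has no bad sets

Take `F = Pool.Agent.T53b.twoPart A` with `A.card = n / 2` (file `MP_19b7b8_co_FB/Sharp.lean`:
`mem_twoPart`, `twoPart_cover`, `twoPart_card`; adapt `exists_twoPart`).  No bad set: let the triples
inside `S = {a, b, c, d, e}` (five different points) be exactly one of the four systems.  A triple
is in `F` iff its points are on one side.  In the systems 1, 2, 4 all five points are on one side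
(the triples listed pairwise intersect and cover `S`), so `{b, c, d}` is in `F` and inside `S`, but it
is not listed; in the system 3 the points `a, b, c, d` are on one side, so `{b, c, d}` is in `F`, but
it is not listed.
-/

set_option autoImplicit false

namespace Pool.Agent.T53c

open Finset

private theorem Two_bad {n : ℕ} (A : Finset (Fin n)) :
    badSets (Pool.Agent.T53b.twoPart A) = ∅ := by
  classical
  rw [eq_empty_iff_forall_notMem]
  intro S hS
  unfold badSets at hS
  obtain ⟨hS1, a, b, c, d, e, hSe, hF⟩ := mem_filter.1 hS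
  have hcard := (mem_powersetCard.1 hS1).2
  have hnd : [a, b, c, d, e].Nodup := by
    have h1 : ([a, b, c, d, e] : List (Fin n)).toFinset.card = 5 := by
      rw [← hcard, hSe]
      congr 1
      ext v
      simp
    have h2 : ([a, b, c, d, e] : List (Fin n)).length = 5 := rfl
    rw [← Multiset.coe_nodup]
    by_contra hcon
    have h3 : ([a, b, c, d, e] : List (Fin n)).toFinset.card <
        ([a, b, c, d, e] : List (Fin n)).length := by
      rw [List.card_toFinset]
      have h4 := List.dedup_sublist ([a, b, c, d, e] : List (Fin n))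
      rcases Nat.lt_or_ge ([a, b, c, d, e] : List (Fin n)).dedup.length
        ([a, b, c, d, e] : List (Fin n)).length with h5 | h5
      · exact h5
      · exfalso
        apply hcon
        have h6 := h4.eq_of_length_le h5
        rw [Multiset.coe_nodup, ← h6]
        exact List.nodup_dedup _
    omega
  simp only [List.nodup_cons, List.mem_cons, List.not_mem_nil, or_false, not_or, List.nodup_nil,
    and_true, not_false_iff] at hnd
  obtain ⟨⟨hab, hac, had, hae⟩, ⟨hbc, hbd, hbe⟩, ⟨hcd, hce⟩, hde⟩ := hnd
  obtain ⟨Fl, hFl⟩ : ∃ Fl, Fl = (Pool.Agent.T53b.twoPart A).filter fun t => t ⊆ S := ⟨_, rfl⟩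
  rw [← hFl] at hF
  unfold fourSystems at hF
  simp only [mem_insert, mem_singleton] at hF
  -- every listed triple contains the point `a`
  have all : ∀ t ∈ Fl, a ∈ t := by
    intro t ht
    rcases hF with h | h | h | h <;> rw [h] at ht <;>
      simp only [mem_insert, mem_singleton] at ht
    · rcases ht with rfl | rfl <;> simp
    · rcases ht with rfl | rfl | rfl <;> simp
    · rcases ht with rfl | rfl | rfl <;> simp
    · rcases ht with rfl | rfl | rfl | rfl <;> simp
  have m1 : ({a, b, c} : Finset (Fin n)) ∈ Fl := by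
    rcases hF with h | h | h | h <;> rw [h] <;> simp
  have m2 : ∃ t ∈ Fl, a ∈ t ∧ d ∈ t := by
    rcases hF with h | h | h | h
    · exact ⟨{a, d, e}, by rw [h]; simp, by simp, by simp⟩
    · exact ⟨{a, b, d}, by rw [h]; simp, by simp, by simp⟩
    · exact ⟨{a, b, d}, by rw [h]; simp, by simp, by simp⟩
    · exact ⟨{a, c, d}, by rw [h]; simp, by simp, by simp⟩
  obtain ⟨t, ht, hat, hdt⟩ := m2
  rw [hFl, mem_filter] at m1 ht
  obtain ⟨-, h1⟩ := Pool.Agent.T53b.mem_twoPart.1 m1.1
  obtain ⟨-, h2⟩ := Pool.Agent.T53b.mem_twoPart.1 ht.1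
  have m3 : ({b, c, d} : Finset (Fin n)) ∈ Fl := by
    rw [hFl, mem_filter]
    refine ⟨Pool.Agent.T53b.mem_twoPart.2
      ⟨card_eq_three.2 ⟨b, c, d, hbc, hbd, hcd, rfl⟩, ?_⟩, ?_⟩
    · rcases h1 with h1 | h1
      · left
        have hA : a ∈ A := h1 a (by simp)
        have hB : b ∈ A := h1 b (by simp)
        have hC : c ∈ A := h1 c (by simp)
        have hD : d ∈ A := by
          rcases h2 with h2 | h2
          · exact h2 d hdt
          · exact absurd hA (h2 a hat)
        intro v hv
        simp only [mem_insert, mem_singleton] at hv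
        rcases hv with rfl | rfl | rfl <;> assumption
      · right
        have hA : a ∉ A := h1 a (by simp)
        have hB : b ∉ A := h1 b (by simp)
        have hC : c ∉ A := h1 c (by simp)
        have hD : d ∉ A := by
          rcases h2 with h2 | h2
          · exact absurd (h2 a hat) hA
          · exact h2 d hdt
        intro v hv
        simp only [mem_insert, mem_singleton] at hv
        rcases hv with rfl | rfl | rfl <;> assumption
    · intro v hv
      rw [hSe]
      simp only [mem_insert, mem_singleton] at hv ⊢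
      rcases hv with rfl | rfl | rfl
      · exact Or.inr (Or.inl rfl)
      · exact Or.inr (Or.inr (Or.inl rfl))
      · exact Or.inr (Or.inr (Or.inr (Or.inl rfl)))
  have h3 := all _ m3
  simp only [mem_insert, mem_singleton] at h3
  rcases h3 with h3 | h3 | h3
  · exact hab h3
  · exact hac h3
  · exact had h3

theorem two_cl {n : ℕ} (A : Finset (Fin n)) :
    Cl (powersetCard 3 A ∪ powersetCard 3 (univ \ A)) :=
  ⟨⟨fun _ he => (Pool.Agent.T53b.mem_twoPart.1 he).1, Pool.Agent.T53b.twoPart_cover A⟩,
    Two_bad A⟩

theorem exists_two (n : ℕ) : ∃ F : Finset (Finset (Fin n)), Cl F ∧ 24 * F.card ≤ n ^ 3 := by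
  obtain ⟨A, _, hA⟩ := exists_subset_card_eq (show n / 2 ≤ (univ : Finset (Fin n)).card by
    rw [card_univ, Fintype.card_fin]; omega)
  exact ⟨Pool.Agent.T53b.twoPart A, ⟨⟨fun e he => (Pool.Agent.T53b.mem_twoPart.1 he).1,
    Pool.Agent.T53b.twoPart_cover A⟩, Two_bad A⟩, Pool.Agent.T53b.twoPart_card A hA⟩

end Pool.Agent.T53c
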